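import Pool.Agent.MP_cbf1af_ag.cmp2.Defs

/-! Relative period matrices of two abelian varieties. -/

namespace Pool.Agent.SHP

/-- There is no nonzero homomorphism from the first complex torus to the second one. -/
def NoHom {g₁ g₂ : ℕ} (Λ₁ : AddSubgroup (Fin g₁ → ℂ)) (Λ₂ : AddSubgroup (Fin g₂ → ℂ)) : Prop :=
  ∀ φ : (Fin g₁ → ℂ) →ₗ[ℂ] (Fin g₂ → ℂ), (∀ l ∈ Λ₁, φ l ∈ Λ₂) → φ = 0

/-- the vector of the quasi-periods along `l` -/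
noncomputable def qp {g : ℕ} (η : (Fin g → ℂ) → (Fin g → ℂ) →ₗ[ℂ] ℂ) (l : Fin g → ℂ) :
    Fin g → ℂ := fun j => η l (Pi.single j 1)

/-- `Γ` is defined over `K`: it maps `K`-points to `K`-points -/
def OverK {g : ℕ} (K : IntermediateField ℚ ℂ)
    (Γ : ((Fin g → ℂ) × (Fin g → ℂ)) →ₗ[ℂ] ((Fin g → ℂ) × (Fin g → ℂ))) : Prop :=
  ∀ p : (Fin g → ℂ) × (Fin g → ℂ), (∀ i, p.1 i ∈ K) → (∀ i, p.2 i ∈ K) →
    (∀ i, (Γ p).1 i ∈ K) ∧ ∀ i, (Γ p).2 i ∈ K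

end Pool.Agent.SHP
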