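import Pool.Agent.MP_cbf1af_ag.cmp.Basic
import Pool.Agent.MP_cbf1af_ag.cmp2.Defs
import Mathlib.Analysis.Complex.Schwarz
import Mathlib.RingTheory.PiTensorProduct
import Mathlib.Tactic.Polynomial.Basic
import Mathlib.Topology.Algebra.MvPolynomial
import Mathlib.Analysis.SpecialFunctions.Gamma.Basic
import Mathlib.Analysis.SpecialFunctions.Elliptic.Weierstrass
import Pool.Agent.MP_cbf1af_ag.shp.Defs
import Mathlib.Algebra.MvPolynomial.Funext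

-- ======== part 0: formerly Pool.Agent.MP_cbf1af_ag.cmp2.Spec
section MrgPart0

/-! The zero estimate on the vector extensions `G' = ℂ^g × ℂ^e` of an abelian variety:
working definitions and module statements. Proofs on paper: /team-store/CMQ_BLUEPRINT.md -/

namespace Pool.Agent.CMQ

open MvPolynomial Filter Topology
open Pool.Agent.CMP (Qb Quad DiffSys fn)

noncomputable section

/-- common zeros of a family of forms in the functions `Θ i` -/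
def ZCl {G ι : Type} (Θ : ι → G → ℂ) (X : Set G) : Prop :=
  ∃ S : Set (MvPolynomial ι ℂ), (∀ P ∈ S, ∃ n, P.IsHomogeneous n) ∧
    ∀ z, z ∈ X ↔ ∀ P ∈ S, eval (fun i => Θ i z) P = 0

/-- upper bound for the affine Hilbert function, dimension `n` -/
def HilbT {G ι : Type} (Θ : ι → G → ℂ) (i₀ : ι) (n : ℕ) : Prop :=
  ∃ C : ℕ, ∀ (d : ℕ) (κ : Type) [Fintype κ] (P : κ → MvPolynomial ι ℂ),
    (∀ i, (P i).totalDegree ≤ d) → C * (d + 1) ^ n < Fintype.card κ →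
    ∃ c : κ → ℂ, c ≠ 0 ∧ ∀ z, Θ i₀ z ≠ 0 → ∑ i, c i * eval (fun j => Θ j z / Θ i₀ z) (P i) = 0

/-- `f` vanishes to order `k` at `p` along the span of the `W j` -/
def OrdL {G : Type} [AddCommGroup G] [Module ℂ G] {r : ℕ} (W : Fin r → G) (k : ℕ) (f : G → ℂ)
    (p : G) : Prop :=
  (fun x : Fin r → ℂ => f (p + ∑ j, x j • W j)) =O[𝓝 0] fun x => ‖x‖ ^ k

/-- weighted order `T` along the curves `τ ↦ (τ ^ ω i * ξ i)` -/
def OC {κ : Type} (ω : κ → ℕ) (T : ℕ) (f : (κ → ℂ) → ℂ) : Prop :=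
  ∀ ξ : κ → ℂ, (fun τ : ℂ => f fun i => τ ^ ω i * ξ i) =O[𝓝 0] fun τ : ℂ => τ ^ T

/-- lattice points close to `𝔞` lie in `𝔞` (so `𝔞` is spanned by lattice points) -/
def Disc {g : ℕ} (Λ : AddSubgroup (Fin g → ℂ)) (𝔞 : Submodule ℂ (Fin g → ℂ)) : Prop :=
  ∃ ε : ℝ, 0 < ε ∧ ∀ l ∈ Λ, ∀ x ∈ 𝔞, ‖l - x‖ < ε → l ∈ 𝔞

/-- the Lie algebra of the extension -/
abbrev GE (g e : ℕ) : Type := (Fin g → ℂ) × (Fin e → ℂ)

section
variable {g N e : ℕ} (Θ : Fin (N + 1) → (Fin g → ℂ) → ℂ) (Λ : AddSubgroup (Fin g → ℂ))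
  (η : (Fin g → ℂ) → (Fin g → ℂ) →ₗ[ℂ] ℂ) (ℓ : Fin e → Fin g → ℂ)

/-- projective coordinates on the vector extension -/
def xt : Fin (N + 1) ⊕ Fin e × Fin (N + 1) → GE g e → ℂ
  | Sum.inl i => fun p => Θ i p.1
  | Sum.inr k => fun p => fderiv ℂ (Θ k.2) p.1 (ℓ k.1) + p.2 k.1 * Θ k.2 p.1

/-- affine coordinates `(f, s)` in the chart `Θ i ≠ 0` -/
def ch (i : Fin (N + 1)) (p : GE g e) : Fin (N + 1) ⊕ Fin e → ℂ :=
  Sum.elim (fun j => Θ j p.1 / Θ i p.1) fun k => xt Θ ℓ (Sum.inr (k, i)) p / Θ i p.1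

/-- entire, polynomial of degree at most `δ` in the vector part, automorphic of weight `n` -/
structure An (n δ : ℕ) (F : GE g e → ℂ) : Prop where
  pol : ∃ A : MvPolynomial (Fin e) ((Fin g → ℂ) → ℂ), A.totalDegree ≤ δ ∧
    (∀ m z, AnalyticAt ℂ (A.coeff m) z) ∧
    ∀ p, F p = eval₂ (Pi.evalRingHom (fun _ => ℂ) p.1) p.2 A
  aut : ∀ l ∈ Λ, ∀ c : ℂ, (∀ i z, Θ i (z + l) = Complex.exp (η l z + c) * Θ i z) →
    ∀ p : GE g e, F (p.1 + l, fun k => p.2 k - η l (ℓ k)) = Complex.exp (η l p.1 + c) ^ n * F p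

/-- `F / Θ i ^ n` is locally a rational function of the affine coordinates -/
def Rat (n : ℕ) (F : GE g e → ℂ) : Prop :=
  ∀ (p₀ : GE g e) (i : Fin (N + 1)), Θ i p₀.1 ≠ 0 →
    ∃ a P : MvPolynomial (Fin (N + 1) ⊕ Fin e) ℂ, eval (ch Θ ℓ i p₀) a ≠ 0 ∧
      ∀ p, Θ i p.1 ≠ 0 → eval (ch Θ ℓ i p) a * F p = Θ i p.1 ^ n * eval (ch Θ ℓ i p) P

/-- algebraic sections of bidegree `(n, δ)` -/
def Cl (n δ : ℕ) (F : GE g e → ℂ) : Prop := An Θ Λ η ℓ n δ F ∧ Rat Θ ℓ n F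

end

/-- the weight `u` and the real linear extension `L` of the quasi-periods -/
structure Wt {g N : ℕ} (Θ : Fin (N + 1) → (Fin g → ℂ) → ℂ) (Λ : AddSubgroup (Fin g → ℂ))
    (η : (Fin g → ℂ) → (Fin g → ℂ) →ₗ[ℂ] ℂ) (u : (Fin g → ℂ) → ℝ)
    (L : (Fin g → ℂ) →ₗ[ℝ] (Fin g → ℂ) →ₗ[ℂ] ℂ) : Prop where
  ext : ∀ l ∈ Λ, L l = η l
  quad : Quad u
  cont : Continuous u
  per : ∀ l ∈ Λ, ∀ c : ℂ, (∀ i z, Θ i (z + l) = Complex.exp (η l z + c) * Θ i z) →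
    ∀ z, u (z + l) = u z + (η l z + c).re
  bdd : ∃ C : ℝ, ∀ i z, ‖Θ i z‖ * Real.exp (-u z) ≤ C ∧
    ∀ y, ‖fderiv ℂ (Θ i) z y - L z y * Θ i z‖ * Real.exp (-u z) ≤ C * ‖y‖
  symm : ∀ y z, (L y z).re = (L z y).re
  riem : ∀ l ∈ Λ, ∀ l' ∈ Λ, ∃ n : ℤ, L l l' - L l' l = n * (2 * Real.pi * Complex.I)
  pos : ∀ y, y ≠ 0 → 0 < (L y y + Complex.I * L (Complex.I • y) y).re

/-! ### Module statements -/

/-- WT -/
def WtStmt : Prop :=
  ∀ (g N : ℕ) (Θ : Fin (N + 1) → (Fin g → ℂ) → ℂ) (Λ : AddSubgroup (Fin g → ℂ))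
    (η : (Fin g → ℂ) → (Fin g → ℂ) →ₗ[ℂ] ℂ), IsTheta Θ Λ η → ∃ u L, Wt Θ Λ η u L

/-- DER 1: first and second logarithmic derivatives are forms with algebraic coefficients -/
def PairStmt : Prop :=
  ∀ (g N : ℕ) (Θ : Fin (N + 1) → (Fin g → ℂ) → ℂ) (Λ : AddSubgroup (Fin g → ℂ))
    (η : (Fin g → ℂ) → (Fin g → ℂ) →ₗ[ℂ] ℂ), IsTheta Θ Λ η →
    (∀ i j k, ∃ Q : MvPolynomial (Fin (N + 1)) Qb, Q.IsHomogeneous 2 ∧ ∀ z,
      fderiv ℂ (Θ j) z (Pi.single k 1) * Θ i z - Θ j z * fderiv ℂ (Θ i) z (Pi.single k 1) =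
        aeval (fun m => Θ m z) Q) ∧
    ∀ i j k, ∃ Q : MvPolynomial (Fin (N + 1)) Qb, Q.IsHomogeneous 2 ∧ ∀ z,
      fderiv ℂ (fun z => fderiv ℂ (Θ i) z (Pi.single j 1)) z (Pi.single k 1) * Θ i z -
        fderiv ℂ (Θ i) z (Pi.single j 1) * fderiv ℂ (Θ i) z (Pi.single k 1) =
        aeval (fun m => Θ m z) Q

/-- DER 2: the differential system of `(f, ζ)` (from DER 1) -/
def DerStmt : Prop :=
  ∀ (g N : ℕ) (Θ : Fin (N + 1) → (Fin g → ℂ) → ℂ) (Λ : AddSubgroup (Fin g → ℂ))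
    (η : (Fin g → ℂ) → (Fin g → ℂ) →ₗ[ℂ] ℂ), IsTheta Θ Λ η →
    DiffSys (fun z => Fin.append (fn Θ z)
      fun j : Fin g => fderiv ℂ (Θ 0) z (Pi.single j 1) / Θ 0 z)

/-- FORM: forms in the `xt` are sections, polynomial in every chart; the operators
`∂_(ℓ k) + n v_k` act on sections (from DER 1) -/
def FormStmt : Prop :=
  ∀ (g N : ℕ) (Θ : Fin (N + 1) → (Fin g → ℂ) → ℂ) (Λ : AddSubgroup (Fin g → ℂ))
    (η : (Fin g → ℂ) → (Fin g → ℂ) →ₗ[ℂ] ℂ), IsTheta Θ Λ η →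
    ∀ (e : ℕ) (ℓ : Fin e → Fin g → ℂ),
      (∀ (n : ℕ) (P : MvPolynomial (Fin (N + 1) ⊕ Fin e × Fin (N + 1)) ℂ), P.IsHomogeneous n →
        Cl Θ Λ η ℓ n n (fun p => eval (fun j => xt Θ ℓ j p) P) ∧
        ∀ i, ∃ Q : MvPolynomial (Fin (N + 1) ⊕ Fin e) ℂ, ∀ p : GE g e, Θ i p.1 ≠ 0 →
          eval (fun j => xt Θ ℓ j p) P = Θ i p.1 ^ n * eval (ch Θ ℓ i p) Q) ∧
      ∀ (n δ : ℕ) (F : GE g e → ℂ) (k : Fin e), Cl Θ Λ η ℓ n δ F →
        Cl Θ Λ η ℓ n (δ + 1) fun p => fderiv ℂ F p (ℓ k, 0) + n * p.2 k * F p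

/-- HILB: Hilbert bounds on the extension (from WT, FORM and `CMP.samp`) -/
def HilbStmt : Prop :=
  ∀ (g N : ℕ) (Θ : Fin (N + 1) → (Fin g → ℂ) → ℂ) (Λ : AddSubgroup (Fin g → ℂ))
    (η : (Fin g → ℂ) → (Fin g → ℂ) →ₗ[ℂ] ℂ), IsTheta Θ Λ η →
    ∃ C : ℕ, ∀ (e : ℕ) (ℓ : Fin e → Fin g → ℂ), HilbT (xt Θ ℓ) (Sum.inl 0) (g + e) ∧
      ∀ (a b : ℕ) (κ : Type) [Fintype κ] (F : κ → GE g e → ℂ),
        (∀ i, An Θ Λ η ℓ a b (F i)) → C * (a + 1) ^ g * (b + 1) ^ e < Fintype.card κ →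
        ∃ c : κ → ℂ, c ≠ 0 ∧ ∀ p, ∑ i, c i * F i p = 0

/-- TRANS: the group law of the extension (from FORM, HILB) -/
def TransStmt : Prop :=
  ∀ (g N : ℕ) (Θ : Fin (N + 1) → (Fin g → ℂ) → ℂ) (Λ : AddSubgroup (Fin g → ℂ))
    (η : (Fin g → ℂ) → (Fin g → ℂ) →ₗ[ℂ] ℂ), IsTheta Θ Λ η →
    ∀ (e : ℕ) (ℓ : Fin e → Fin g → ℂ),
      (∀ X, ZCl (xt Θ ℓ) X → ∀ q, ZCl (xt Θ ℓ) {p | p + q ∈ X}) ∧
      ∀ (n δ : ℕ) (F : GE g e → ℂ), Cl Θ Λ η ℓ n δ F → ∀ j : Fin (N + 1),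
        ∃ (m : ℕ) (A S : Fin m → GE g e → ℂ),
          (∀ i q, AnalyticAt ℂ (A i) q) ∧ (∀ i, Cl Θ Λ η ℓ (2 * n) δ (S i)) ∧
          ∀ p q, Θ j (p.1 - q.1) ^ n * F (p + q) = ∑ i, A i q * S i p

/-- COMP: a common component and its stabiliser -/
def CompStmt : Prop :=
  ∀ (G ι : Type) [NormedAddCommGroup G] [NormedSpace ℂ G] [Fintype ι] (Θ : ι → G → ℂ) (i₀ : ι)
    (n : ℕ), (∀ i z, AnalyticAt ℂ (Θ i) z) → Θ i₀ 0 ≠ 0 →
    (∀ X, ZCl Θ X → ∀ q, ZCl Θ {p | p + q ∈ X}) → HilbT Θ i₀ n →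
    ∀ Y : ℕ → Set G, (∀ j, ZCl Θ (Y j)) → Antitone Y → Y 0 ≠ Set.univ → 0 ∈ Y n →
    ∃ j < n, ∃ Z ⊆ Y (j + 1), ∃ H : AddSubgroup G, 0 ∈ Z ∧ ZCl Θ H ∧ H ≠ ⊤ ∧
      (∀ y ∈ H, ∀ v ∈ Z, y + v ∈ Z) ∧
      ∀ᶠ y in 𝓝 (0 : G), (∀ v ∈ Z, y + v ∈ Y j) → y ∈ H

/-- JET (from TRANS, `CMP.cauchy`, `CMP.ordIff`) -/
def JetStmt : Prop :=
  ∀ (g N : ℕ) (Θ : Fin (N + 1) → (Fin g → ℂ) → ℂ) (Λ : AddSubgroup (Fin g → ℂ))
    (η : (Fin g → ℂ) → (Fin g → ℂ) →ₗ[ℂ] ℂ), IsTheta Θ Λ η →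
    ∀ (e r : ℕ) (ℓ : Fin e → Fin g → ℂ) (W : Fin r → GE g e) (D δ : ℕ) (F : GE g e → ℂ),
      Cl Θ Λ η ℓ D δ F → (∀ k, ZCl (xt Θ ℓ) {p | OrdL W k F p}) ∧
      ∀ (k T : ℕ) (Z : Set (GE g e)), ∃ J : Set (GE g e → ℂ),
        (∀ Q ∈ J, Cl Θ Λ η ℓ (2 * D) δ Q) ∧
        (∀ y, (∀ v ∈ Z, OrdL W (k + T) F (y + v)) → ∀ Q ∈ J, OrdL W T Q y) ∧
        ∀ y, (∀ Q ∈ J, Q y = 0) → ∀ v ∈ Z, OrdL W k F (y + v)

/-- ISO: an isolated point of an algebraic set is a component -/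
def IsoStmt : Prop :=
  ∀ (σ : Type) [Fintype σ] (S : Set (MvPolynomial σ ℂ)) (x₀ : σ → ℂ),
    (∀ᶠ y in 𝓝 x₀, (∀ P ∈ S, eval y P = 0) → y = x₀) →
    ∃ b : MvPolynomial σ ℂ, eval x₀ b ≠ 0 ∧
      ∀ y, (∀ P ∈ S, eval y P = 0) → eval y b = 0 ∨ y = x₀

/-- LOC: weighted local multiplicity bound in a chart (from ISO) -/
def LocStmt : Prop :=
  ∀ (σ κ : Type) [Fintype σ] [Fintype κ] (φ : (κ → ℂ) → σ → ℂ)
    (Fil : ℕ → ℕ → Submodule ℂ ((κ → ℂ) → ℂ)) (g e C T E₁ E₂ : ℕ) (ω : κ → ℕ)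
    (J : Set ((κ → ℂ) → ℂ)), Fintype.card κ = g + e → AnalyticAt ℂ φ 0 →
    (∀ (i : κ) (k : ℕ), ∃ P : MvPolynomial σ ℂ,
      (fun x => eval (φ x) P - x i) =O[𝓝 0] fun x => ‖x‖ ^ k) →
    (∀ a b a' b', a ≤ a' → b ≤ b' → Fil a b ≤ Fil a' b') →
    (∀ a b a' b', ∀ f ∈ Fil a b, ∀ f' ∈ Fil a' b', f * f' ∈ Fil (a + a') (b + b')) →
    (∀ (d : ℕ) (P : MvPolynomial σ ℂ), P.totalDegree ≤ d → (fun x => eval (φ x) P) ∈ Fil d d) →
    (∀ (a b : ℕ) (ι : Type) [Fintype ι] (f : ι → (κ → ℂ) → ℂ), (∀ i, f i ∈ Fil a b) →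
      C * (a + 1) ^ g * (b + 1) ^ e < Fintype.card ι →
      ∃ c : ι → ℂ, c ≠ 0 ∧ ∀ᶠ x in 𝓝 0, ∑ i, c i * f i x = 0) →
    1 ≤ T → (∀ i, 1 ≤ ω i ∧ ω i ≤ T) → (∀ Q ∈ J, Q ∈ Fil E₁ E₂ ∧ OC ω T Q) →
    (∀ᶠ y in 𝓝 (φ 0), (∀ P : MvPolynomial σ ℂ, (∀ᶠ x in 𝓝 0, eval (φ x) P = 0) → eval y P = 0) →
      (∀ Q ∈ J, ∀ a P : MvPolynomial σ ℂ,
        (∀ᶠ x in 𝓝 0, eval (φ x) a * Q x = eval (φ x) P) → eval y P = 0) → y = φ 0) →
    T ^ (g + e) ≤ C * (2 * (g + e + 2)) ^ (g + e) * (E₁ + 1) ^ g * (E₂ + 1) ^ e * ∏ i, ω i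

/-- PROP: a smooth point of the Zariski closure of the image (from HILB) -/
def PropStmt : Prop :=
  ∀ (g N : ℕ) (Θ : Fin (N + 1) → (Fin g → ℂ) → ℂ) (Λ : AddSubgroup (Fin g → ℂ))
    (η : (Fin g → ℂ) → (Fin g → ℂ) →ₗ[ℂ] ℂ), IsTheta Θ Λ η →
    ∀ (e : ℕ) (ℓ : Fin e → Fin g → ℂ), ∃ p₀ : GE g e, Θ 0 p₀.1 ≠ 0 ∧
      (∀ x : GE g e, (∀ j, fderiv ℂ (ch Θ ℓ 0) p₀ x (Sum.inl j) = 0) → x.1 = 0) ∧
      Function.Injective (fderiv ℂ (ch Θ ℓ 0) p₀) ∧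
      ∀ U ∈ 𝓝 p₀, ∀ᶠ y in 𝓝 (ch Θ ℓ 0 p₀), (∀ P : MvPolynomial (Fin (N + 1) ⊕ Fin e) ℂ,
        (∀ p : GE g e, Θ 0 p.1 ≠ 0 → eval (ch Θ ℓ 0 p) P = 0) → eval y P = 0) →
        ∃ p ∈ U, y = ch Θ ℓ 0 p

/-- SUB: closed subgroups of the extension -/
def SubStmt : Prop :=
  ∀ (g N : ℕ) (Θ : Fin (N + 1) → (Fin g → ℂ) → ℂ) (Λ : AddSubgroup (Fin g → ℂ))
    (η : (Fin g → ℂ) → (Fin g → ℂ) →ₗ[ℂ] ℂ) (u : (Fin g → ℂ) → ℝ)
    (L : (Fin g → ℂ) →ₗ[ℝ] (Fin g → ℂ) →ₗ[ℂ] ℂ), IsTheta Θ Λ η → Wt Θ Λ η u L →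
    ∀ (e : ℕ) (ℓ : Fin e → Fin g → ℂ) (H : AddSubgroup (GE g e)), ZCl (xt Θ ℓ) H →
      ∃ 𝔥 : Submodule ℂ (GE g e), (∀ p ∈ 𝔥, p ∈ H) ∧ (∀ᶠ p in 𝓝 0, p ∈ H → p ∈ 𝔥) ∧
        Disc Λ (𝔥.map (LinearMap.fst ℂ _ _)) ∧
        ∀ w ∈ 𝔥.map (LinearMap.fst ℂ _ _), (w, fun k => -L w (ℓ k)) ∈ 𝔥

/-- COORD: a chart adapted to a subspace `𝔥` and to directions independent modulo `𝔥` -/
def CoordStmt : Prop :=
  ∀ (G σ τ : Type) [NormedAddCommGroup G] [NormedSpace ℂ G] [FiniteDimensional ℂ G]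
    [Fintype σ] [Fintype τ] (φ : G → σ ⊕ τ → ℂ) (p₀ : G) (𝔥 : Submodule ℂ G) (a : ℕ)
    (w : Fin a → G), AnalyticAt ℂ φ p₀ → Function.Injective (fderiv ℂ φ p₀) →
    (∀ x ∈ 𝔥, (∀ j, fderiv ℂ φ p₀ x (Sum.inl j) = 0) → x = 0) →
    LinearIndependent ℂ (𝔥.mkQ ∘ w) →
    ∃ (h q : ℕ) (y : Fin h → σ → ℂ) (t : Fin a ⊕ Fin q → G →L[ℂ] ℂ) (b : Fin q → G)
      (Ψ : (Fin h ⊕ (Fin a ⊕ Fin q) → ℂ) → G),
      h = Module.finrank ℂ 𝔥 ∧ h + (a + q) = Module.finrank ℂ G ∧ (∀ i, ∀ p ∈ 𝔥, t i p = 0) ∧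
      (∀ p, p - (∑ i, t (Sum.inl i) p • w i + ∑ i, t (Sum.inr i) p • b i) ∈ 𝔥) ∧
      AnalyticAt ℂ Ψ 0 ∧ Ψ 0 = p₀ ∧
      (∀ᶠ x in 𝓝 0, (∀ i, ∑ j, y i j * (φ (Ψ x) (Sum.inl j) - φ p₀ (Sum.inl j)) = x (Sum.inl i)) ∧
        ∀ i, t i (Ψ x - p₀) = x (Sum.inr i)) ∧
      (∀ᶠ p in 𝓝 p₀, Ψ (Sum.elim (fun i => ∑ j, y i j * (φ p (Sum.inl j) - φ p₀ (Sum.inl j)))
        fun i => t i (p - p₀)) = p) ∧
      ∀ i (k : ℕ), ∃ P : MvPolynomial (σ ⊕ τ) ℂ,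
        (fun x => eval (φ (Ψ x)) P - x i) =O[𝓝 0] fun x => ‖x‖ ^ k

/-- QUOT: a section with high order along a line of the vector part gives one on the quotient -/
def QuotStmt : Prop :=
  ∀ (g N : ℕ) (Θ : Fin (N + 1) → (Fin g → ℂ) → ℂ) (Λ : AddSubgroup (Fin g → ℂ))
    (η : (Fin g → ℂ) → (Fin g → ℂ) →ₗ[ℂ] ℂ), IsTheta Θ Λ η →
    ∀ (e r : ℕ) (ℓ : Fin (e + 1) → Fin g → ℂ) (W : Fin r → GE g (e + 1)) (n δ K : ℕ)
      (F : GE g (e + 1) → ℂ) (v₀ : Fin (e + 1) → ℂ), v₀ ≠ 0 → Cl Θ Λ η ℓ n δ F → F ≠ 0 →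
      (∀ s : ℂ, OrdL W K F (0, s • v₀)) →
      ∃ (M : Matrix (Fin e) (Fin (e + 1)) ℂ) (F' : GE g e → ℂ),
        Function.Surjective M.mulVec ∧ Cl Θ Λ η (fun k => ∑ j, M k j • ℓ j) n δ F' ∧ F' ≠ 0 ∧
        OrdL (fun j => ((W j).1, M.mulVec (W j).2)) K F' 0

/-- the conclusion of the zero estimate -/
def Obs {g e r : ℕ} (Λ : AddSubgroup (Fin g → ℂ)) (L : (Fin g → ℂ) →ₗ[ℝ] (Fin g → ℂ) →ₗ[ℂ] ℂ)
    (ℓ : Fin e → Fin g → ℂ) (W : Fin r → GE g e) (C D δ T : ℕ) : Prop :=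
  ∃ 𝔥 : Submodule ℂ (GE g e), 𝔥 ≠ ⊤ ∧ Disc Λ (𝔥.map (LinearMap.fst ℂ _ _)) ∧
    (∀ w ∈ 𝔥.map (LinearMap.fst ℂ _ _), (w, fun k => -L w (ℓ k)) ∈ 𝔥) ∧
    T ^ Module.finrank ℂ ((Submodule.span ℂ (Set.range W)).map 𝔥.mkQ) *
      D ^ Module.finrank ℂ (𝔥.map (LinearMap.fst ℂ _ _)) *
      δ ^ Module.finrank ℂ (𝔥.comap (LinearMap.inr ℂ _ _)) ≤ C * D ^ g * δ ^ e

/-- ZERO: the multiplicity estimate on the extension -/
def ZeroStmt : Prop :=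
  ∀ (g N : ℕ) (Θ : Fin (N + 1) → (Fin g → ℂ) → ℂ) (Λ : AddSubgroup (Fin g → ℂ))
    (η : (Fin g → ℂ) → (Fin g → ℂ) →ₗ[ℂ] ℂ) (u : (Fin g → ℂ) → ℝ)
    (L : (Fin g → ℂ) →ₗ[ℝ] (Fin g → ℂ) →ₗ[ℂ] ℂ), IsTheta Θ Λ η → Wt Θ Λ η u L →
    ∀ e : ℕ, ∃ K C : ℕ, ∀ (r : ℕ) (ℓ : Fin e → Fin g → ℂ) (W : Fin r → GE g e) (D δ T : ℕ)
      (F : GE g e → ℂ), Cl Θ Λ η ℓ D δ F → F ≠ 0 → 1 ≤ D → 1 ≤ δ → D ≤ T →
      OrdL W (K * T + 1) F 0 → Obs Λ L ℓ W C D δ T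

end

end Pool.Agent.CMQ

end MrgPart0

-- ======== part 1: formerly Pool.Agent.MP_cbf1af_ag.cmp2.Basic
section MrgPart1

/-! Basic API for sections on the vector extension. -/

namespace Pool.Agent.CMQ

open MvPolynomial Filter Topology
open Pool.Agent.CMP (analyticAt_eval eval_smul_homog analyticAt_dir fn)

noncomputable section

/-! ### Forms and closed sets -/

theorem exists_homog {ι : Type} (i₀ : ι) {n : ℕ} (P : MvPolynomial ι ℂ) (hP : P.totalDegree ≤ n) :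
    ∃ Q : MvPolynomial ι ℂ, Q.IsHomogeneous n ∧
      ∀ x : ι → ℂ, x i₀ ≠ 0 → eval x Q = x i₀ ^ n * eval (fun i => x i / x i₀) P := by
  refine ⟨∑ d ∈ Finset.range (P.totalDegree + 1), X i₀ ^ (n - d) * homogeneousComponent d P,
    IsHomogeneous.sum _ _ _ fun d hd => ?_, fun x hx => ?_⟩
  · have hd' : d ≤ n := by have := Finset.mem_range.1 hd; omega
    have := ((isHomogeneous_X ℂ i₀).pow (n - d)).mul (homogeneousComponent_isHomogeneous d P)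
    rwa [one_mul, Nat.sub_add_cancel hd'] at this
  · conv_rhs => rw [← sum_homogeneousComponent P]
    rw [map_sum, map_sum, Finset.mul_sum]
    refine Finset.sum_congr rfl fun d hd => ?_
    have hd' : d ≤ n := by have := Finset.mem_range.1 hd; omega
    have h := eval_smul_homog (homogeneousComponent_isHomogeneous d P) (x i₀) fun i => x i / x i₀
    have hx' : (fun i => x i₀ * (x i / x i₀)) = x := by
      funext i; field_simp
    rw [hx'] at h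
    rw [map_mul, map_pow, eval_X, h, ← mul_assoc, ← pow_add, Nat.sub_add_cancel hd']

namespace ZCl

variable {G ι : Type} {Θ : ι → G → ℂ}

theorem form {n : ℕ} {P : MvPolynomial ι ℂ} (h : P.IsHomogeneous n) :
    ZCl Θ {z | eval (fun i => Θ i z) P = 0} :=
  ⟨{P}, fun Q hQ => ⟨n, by rw [Set.mem_singleton_iff.1 hQ]; exact h⟩, fun z => by simp⟩

theorem univ : ZCl Θ Set.univ := ⟨∅, by simp, by simp⟩

theorem iInter {κ : Type} {X : κ → Set G} (h : ∀ i, ZCl Θ (X i)) : ZCl Θ (⋂ i, X i) := by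
  choose S hS hX using h
  refine ⟨⋃ i, S i, fun P hP => ?_, fun z => ?_⟩
  · obtain ⟨i, hi⟩ := Set.mem_iUnion.1 hP
    exact hS i P hi
  · simp only [Set.mem_iInter, Set.mem_iUnion, hX]
    exact ⟨fun h P ⟨i, hi⟩ => h i P hi, fun h i P hi => h P ⟨i, hi⟩⟩

/-- common zeros of a family of functions with closed zero sets -/
theorem family {J : Set (G → ℂ)} (h : ∀ Q ∈ J, ZCl Θ {z | Q z = 0}) :
    ZCl Θ {z | ∀ Q ∈ J, Q z = 0} := by
  have : {z | ∀ Q ∈ J, Q z = 0} = ⋂ Q : J, {z | Q.1 z = 0} := by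
    ext z; simp
  rw [this]
  exact iInter fun Q => h Q.1 Q.2

theorem isClosed [TopologicalSpace G] (hΘ : ∀ i, Continuous (Θ i)) {X : Set G} (h : ZCl Θ X) :
    IsClosed X := by
  obtain ⟨S, -, hX⟩ := h
  have : X = ⋂ P ∈ S, {z | eval (fun i => Θ i z) P = 0} := by
    ext z; simp [hX]
  rw [this]
  refine isClosed_biInter fun P _ => isClosed_eq ?_ continuous_const
  exact (continuous_eval P).comp (continuous_pi hΘ)

end ZCl

/-! ### Orders -/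

section
variable {G : Type} [NormedAddCommGroup G] [NormedSpace ℂ G] {r : ℕ} {W : Fin r → G}

omit [NormedSpace ℂ G] in
theorem OrdL.mono [Module ℂ G] {W : Fin r → G} {k k' : ℕ} {f : G → ℂ} {p : G}
    (h : OrdL W k' f p) (hk : k ≤ k') : OrdL W k f p := by
  refine Asymptotics.IsBigO.trans h (Asymptotics.IsBigO.of_bound 1 ?_)
  filter_upwards [Metric.closedBall_mem_nhds (0 : Fin r → ℂ) one_pos] with x hx
  rw [mem_closedBall_zero_iff] at hx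
  simpa using pow_le_pow_of_le_one (norm_nonneg x) hx hk

omit [NormedSpace ℂ G] in
theorem OrdL.eq_zero [Module ℂ G] {W : Fin r → G} {k : ℕ} {f : G → ℂ} {p : G}
    (h : OrdL W (k + 1) f p) : f p = 0 := by
  obtain ⟨C, hC⟩ := h.bound
  simpa using hC.self_of_nhds

theorem continuous_lin (W : Fin r → G) : Continuous fun x : Fin r → ℂ => ∑ j, x j • W j :=
  continuous_finsetSum _ fun j _ => (continuous_apply j).smul continuous_const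

/-- the order is uniform in the base point -/
theorem ordL_uniform {f : G → ℂ} {p : G} (hf : AnalyticAt ℂ f p) (W : Fin r → G) (k : ℕ) :
    ∃ C : ℝ, ∀ᶠ q in 𝓝 (p, (0 : Fin r → ℂ)), OrdL W k f q.1 →
      ‖f (q.1 + ∑ j, q.2 j • W j)‖ ≤ C * ‖q.2‖ ^ k := by
  have h1 : Tendsto (fun q : G × (Fin r → ℂ) => q.1 + ∑ j, q.2 j • W j) (𝓝 (p, 0)) (𝓝 p) := by
    have : Continuous fun q : G × (Fin r → ℂ) => q.1 + ∑ j, q.2 j • W j :=
      continuous_fst.add ((continuous_lin W).comp continuous_snd)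
    simpa using this.tendsto (p, 0)
  have h2 := h1.eventually (hf.eventually_analyticAt.and
    (hf.continuousAt.norm.eventually (gt_mem_nhds (lt_add_one ‖f p‖))))
  obtain ⟨ρ, hρ, H⟩ := Metric.eventually_nhds_iff.1 h2
  set M := ‖f p‖ + 1 with hM
  have hM0 : 0 < M := by positivity
  refine ⟨M * (1 + ρ⁻¹ ^ k), ?_⟩
  filter_upwards [Metric.ball_mem_nhds (p, (0 : Fin r → ℂ)) hρ] with q hq ho
  rw [Metric.mem_ball, Prod.dist_eq, max_lt_iff, dist_zero_right] at hq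
  have H' : ∀ x : Fin r → ℂ, ‖x‖ < ρ → AnalyticAt ℂ f (q.1 + ∑ j, x j • W j) ∧
      ‖f (q.1 + ∑ j, x j • W j)‖ < M := fun x hx =>
    H (y := (q.1, x)) (by rw [Prod.dist_eq, max_lt_iff, dist_zero_right]; exact ⟨hq.1, hx⟩)
  cases k with
  | zero =>
    have := (H' q.2 hq.2).2
    simp only [pow_zero, mul_one]
    linarith
  | succ k =>
    have h0 : f q.1 = 0 := ho.eq_zero
    have hd : DifferentiableOn ℂ (fun x : Fin r → ℂ => f (q.1 + ∑ j, x j • W j))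
        (Metric.ball 0 ρ) := fun x hx => by
      refine ((H' x (mem_ball_zero_iff.1 hx)).1.differentiableAt.comp x ?_).differentiableWithinAt
      fun_prop
    have key := Complex.dist_le_mul_div_pow_of_mapsTo_ball_of_isLittleO (n := k) (R₂ := M)
      (z := q.2) hd (fun x hx => by
        simpa [h0] using (H' x (mem_ball_zero_iff.1 hx)).2.le) (by
        simp only [Pi.zero_apply, zero_smul, Finset.sum_const_zero, add_zero, h0, sub_zero]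
        exact Asymptotics.IsBigO.trans_isLittleO ho
          (Asymptotics.isLittleO_pow_pow (Nat.lt_succ_self k) |>.comp_tendsto
            (by simpa using (continuous_norm.tendsto (0 : Fin r → ℂ)))))
      (mem_ball_zero_iff.2 hq.2)
    simp only [Pi.zero_apply, zero_smul, Finset.sum_const_zero, add_zero, h0, dist_zero_right]
      at key
    refine key.trans ?_
    rw [div_eq_mul_inv, mul_pow, mul_assoc]
    refine mul_le_mul_of_nonneg_left ?_ hM0.le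
    have : 0 ≤ ‖q.2‖ ^ (k + 1) := by positivity
    nlinarith

end

variable {g N e : ℕ} {Θ : Fin (N + 1) → (Fin g → ℂ) → ℂ} {Λ : AddSubgroup (Fin g → ℂ)}
  {η : (Fin g → ℂ) → (Fin g → ℂ) →ₗ[ℂ] ℂ} {ℓ : Fin e → Fin g → ℂ}

/-! ### Coordinates -/

theorem IsTheta.continuous (h : IsTheta Θ Λ η) (i : Fin (N + 1)) : Continuous (Θ i) :=
  continuous_iff_continuousAt.2 fun z => (h.hol i z).continuousAt

theorem IsTheta.analyticAt_fst (h : IsTheta Θ Λ η) (i : Fin (N + 1)) (p : GE g e) :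
    AnalyticAt ℂ (fun p : GE g e => Θ i p.1) p := (h.hol i p.1).comp _root_.analyticAt_fst

theorem IsTheta.analyticAt_xt (h : IsTheta Θ Λ η) (ℓ : Fin e → Fin g → ℂ)
    (j : Fin (N + 1) ⊕ Fin e × Fin (N + 1)) (p : GE g e) : AnalyticAt ℂ (xt Θ ℓ j) p := by
  rcases j with i | ⟨k, i⟩
  · exact h.analyticAt_fst i p
  · refine ((analyticAt_dir (h.hol i p.1) (ℓ k)).comp _root_.analyticAt_fst).add
      (AnalyticAt.mul ?_ (h.analyticAt_fst i p))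
    exact ((ContinuousLinearMap.proj (R := ℂ) (φ := fun _ : Fin e => ℂ) k).analyticAt _).comp
      analyticAt_snd

theorem IsTheta.continuous_xt (h : IsTheta Θ Λ η) (ℓ : Fin e → Fin g → ℂ)
    (j : Fin (N + 1) ⊕ Fin e × Fin (N + 1)) : Continuous (xt Θ ℓ j) :=
  continuous_iff_continuousAt.2 fun z => (h.analyticAt_xt ℓ j z).continuousAt

theorem IsTheta.analyticAt_ch' (h : IsTheta Θ Λ η) (ℓ : Fin e → Fin g → ℂ) {i : Fin (N + 1)}
    {p : GE g e} (hp : Θ i p.1 ≠ 0) (j : Fin (N + 1) ⊕ Fin e) :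
    AnalyticAt ℂ (fun p => ch Θ ℓ i p j) p := by
  rcases j with j | k
  · exact (h.analyticAt_fst j p).div (h.analyticAt_fst i p) hp
  · exact (h.analyticAt_xt ℓ _ p).div (h.analyticAt_fst i p) hp

theorem IsTheta.analyticAt_ch (h : IsTheta Θ Λ η) (ℓ : Fin e → Fin g → ℂ) {i : Fin (N + 1)}
    {p : GE g e} (hp : Θ i p.1 ≠ 0) : AnalyticAt ℂ (ch Θ ℓ i) p :=
  analyticAt_pi_iff.2 (h.analyticAt_ch' ℓ hp)

theorem IsTheta.eventually_ne (h : IsTheta Θ Λ η) {i : Fin (N + 1)} {p : GE g e}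
    (hp : Θ i p.1 ≠ 0) : ∀ᶠ q in 𝓝 p, Θ i q.1 ≠ 0 :=
  (h.analyticAt_fst i p).continuousAt.eventually_ne hp

theorem IsTheta.analyticAt_fn (h : IsTheta Θ Λ η) {z : Fin g → ℂ} (hz : Θ 0 z ≠ 0)
    (i : Fin (N + 1)) : AnalyticAt ℂ (fun z => fn Θ z i) z :=
  (h.hol i z).div (h.hol 0 z) hz

/-- `g` of the affine coordinates are local coordinates at the origin -/
theorem IsTheta.exists_coord (h : IsTheta Θ Λ η) :
    ∃ (ι : Fin g → Fin (N + 1)) (L : (Fin g → ℂ) ≃L[ℂ] (Fin g → ℂ)),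
      AnalyticAt ℂ (fun z k => fn Θ z (ι k)) 0 ∧
      HasStrictFDerivAt (fun z k => fn Θ z (ι k)) (L : (Fin g → ℂ) →L[ℂ] (Fin g → ℂ)) 0 := by
  classical
  have han : AnalyticAt ℂ (fun z i => Θ i z / Θ 0 z) (0 : Fin g → ℂ) :=
    analyticAt_pi_iff.2 fun i => h.analyticAt_fn h.ne0 i
  set Φ := fderiv ℂ (fun z i => Θ i z / Θ 0 z) (0 : Fin g → ℂ) with hΦ
  let φ : Fin (N + 1) → Module.Dual ℂ (Fin g → ℂ) := fun i =>
    (LinearMap.proj i) ∘ₗ (Φ : (Fin g → ℂ) →ₗ[ℂ] (Fin (N + 1) → ℂ))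
  have hspan : Submodule.span ℂ (Set.range φ) = ⊤ := by
    rw [Submodule.span_eq_top_of_ne_zero]
    intro z hz
    by_contra hc
    push Not at hc
    refine hz (h.imm ?_)
    rw [map_zero]
    funext i
    exact hc (φ i) ⟨i, rfl⟩
  obtain ⟨κ, a, ha, hsp, hli⟩ := exists_linearIndependent' ℂ φ
  have : Finite κ := Finite.of_injective a ha
  have := Fintype.ofFinite κ
  have hcard : Fintype.card κ = g := by
    have h1 := finrank_span_eq_card hli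
    rw [hsp, hspan, finrank_top] at h1
    simpa using h1.symm
  let e : Fin g ≃ κ := (Fintype.equivFinOfCardEq hcard).symm
  let ι : Fin g → Fin (N + 1) := a ∘ e
  let L0 : (Fin g → ℂ) →L[ℂ] (Fin g → ℂ) :=
    ContinuousLinearMap.pi fun k => (ContinuousLinearMap.proj (ι k)).comp Φ
  have hinj : Function.Injective L0 := by
    rw [injective_iff_map_eq_zero]
    intro z hz
    have hz' : ∀ ψ ∈ Submodule.span ℂ (Set.range (φ ∘ a)), ψ z = 0 := by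
      intro ψ hψ
      induction hψ using Submodule.span_induction with
      | mem ψ hψ =>
        obtain ⟨k, rfl⟩ := hψ
        have := congrFun hz (e.symm k)
        simpa [L0, ι, φ] using this
      | zero => rfl
      | add _ _ _ _ h1 h2 => simp [h1, h2]
      | smul _ _ _ h1 => simp [h1]
    rw [hsp, hspan] at hz'
    exact (Module.forall_dual_apply_eq_zero_iff ℂ z).1 fun ψ => hz' ψ trivial
  let L : (Fin g → ℂ) ≃L[ℂ] (Fin g → ℂ) :=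
    (LinearEquiv.ofInjectiveEndo (L0 : (Fin g → ℂ) →ₗ[ℂ] (Fin g → ℂ)) hinj).toContinuousLinearEquiv
  refine ⟨ι, L, analyticAt_pi_iff.2 fun k => h.analyticAt_fn h.ne0 _, ?_⟩
  have hL : (L : (Fin g → ℂ) →L[ℂ] (Fin g → ℂ)) = L0 := by
    ext1 z; rfl
  rw [hL]
  have hs := han.hasStrictFDerivAt
  refine hasStrictFDerivAt_pi.2 fun k => ?_
  exact (ContinuousLinearMap.proj (R := ℂ) (φ := fun _ : Fin (N + 1) => ℂ)
    (ι k)).hasStrictFDerivAt.comp 0 hs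

/-- periods independent over `ℤ` are independent over `ℝ` -/
theorem IsTheta.real_indep (h : IsTheta Θ Λ η) {s : ℕ} {lam : Fin s → Fin g → ℂ}
    (hl : ∀ i, lam i ∈ Λ) (hi : LinearIndependent ℤ lam) : LinearIndependent ℝ lam := by
  obtain ⟨b, hb⟩ := h.lat
  have hc : ∀ i, ∃ c : Fin (2 * g) → ℤ, lam i = ∑ k, (c k : ℝ) • b k := by
    intro i
    have h1 := hl i
    rw [hb, ← Submodule.span_int_eq_addSubgroupClosure] at h1
    obtain ⟨c, hc⟩ := (Submodule.mem_span_range_iff_exists_fun ℤ).1 h1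
    exact ⟨c, by rw [← hc]; simp only [Int.cast_smul_eq_zsmul]⟩
  choose c hc using hc
  have hrep : ∀ i, b.equivFun (lam i) = algebraMap ℤ ℝ ∘ c i := by
    intro i
    rw [hc i, ← b.equivFun_symm_apply, LinearEquiv.apply_symm_apply]
    rfl
  have h2 : LinearIndependent ℤ c := by
    rw [Fintype.linearIndependent_iff] at hi ⊢
    intro x hx
    refine hi x (b.equivFun.injective ?_)
    rw [map_sum, map_zero]
    funext k
    have := congrFun hx k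
    simp only [Finset.sum_apply, Pi.smul_apply, smul_eq_mul, Pi.zero_apply] at this
    simp only [map_zsmul, hrep]
    simp only [Finset.sum_apply, Function.comp_apply, Pi.mul_apply, Pi.intCast_apply,
      Pi.zero_apply, zsmul_eq_mul, eq_intCast]
    exact_mod_cast this
  have h3 : LinearIndependent ℝ fun i => algebraMap ℤ ℝ ∘ c i :=
    linearIndependent_algebraMap_comp_iff.2 h2
  refine LinearIndependent.of_comp b.equivFun.toLinearMap ?_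
  convert h3 using 1
  funext i
  exact hrep i

/-- the chart coordinates are quotients of projective coordinates -/
def cix (i : Fin (N + 1)) : Fin (N + 1) ⊕ Fin e → Fin (N + 1) ⊕ Fin e × Fin (N + 1) :=
  Sum.elim Sum.inl fun k => Sum.inr (k, i)

theorem ch_eq (i : Fin (N + 1)) (p : GE g e) :
    ch Θ ℓ i p = (fun j => xt Θ ℓ j p / Θ i p.1) ∘ cix i := by
  funext j
  rcases j with j | k <;> rfl

/-- a chart polynomial times a power of `Θ i` is a form -/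
theorem exists_form (i : Fin (N + 1)) {n : ℕ} (P : MvPolynomial (Fin (N + 1) ⊕ Fin e) ℂ)
    (hP : P.totalDegree ≤ n) :
    ∃ Q : MvPolynomial (Fin (N + 1) ⊕ Fin e × Fin (N + 1)) ℂ, Q.IsHomogeneous n ∧
      ∀ p : GE g e, Θ i p.1 ≠ 0 →
        eval (fun j => xt Θ ℓ j p) Q = Θ i p.1 ^ n * eval (ch Θ ℓ i p) P := by
  obtain ⟨Q, hQ, hQ'⟩ := exists_homog (Sum.inl i) (rename (cix i) P)
    ((totalDegree_rename_le _ _).trans hP)
  refine ⟨Q, hQ, fun p hp => ?_⟩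
  rw [hQ' _ hp, eval_rename, ch_eq]
  rfl

/-! ### Analytic sections -/

/-- functions analytic everywhere -/
def Ent (G : Type) [NormedAddCommGroup G] [NormedSpace ℂ G] : Subalgebra ℂ (G → ℂ) where
  carrier := {f | ∀ z, AnalyticAt ℂ f z}
  mul_mem' hf hg z := (hf z).mul (hg z)
  add_mem' hf hg z := (hf z).add (hg z)
  algebraMap_mem' _ _ := analyticAt_const

namespace An

variable {n n' δ δ' : ℕ} {F F' : GE g e → ℂ}

theorem analyticAt (h : An Θ Λ η ℓ n δ F) (p : GE g e) : AnalyticAt ℂ F p := by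
  obtain ⟨A, -, hA, hF⟩ := h.pol
  have : F = fun p => ∑ m ∈ A.support, A.coeff m p.1 * ∏ k, p.2 k ^ m k := by
    funext p
    rw [hF, eval₂_eq']
    rfl
  rw [this]
  refine Finset.analyticAt_fun_sum _ fun m _ => ((hA m p.1).comp analyticAt_fst).fun_mul ?_
  refine Finset.analyticAt_fun_prod _ fun k _ => AnalyticAt.fun_pow ?_ _
  exact ((ContinuousLinearMap.proj (R := ℂ) (φ := fun _ : Fin e => ℂ) k).analyticAt _).comp
    analyticAt_snd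

theorem mono (h : An Θ Λ η ℓ n δ F) (hδ : δ ≤ δ') : An Θ Λ η ℓ n δ' F :=
  ⟨h.pol.imp fun _ hA => ⟨hA.1.trans hδ, hA.2⟩, h.aut⟩

/-- an automorphic entire function of the first variable -/
theorem of_fst {a : (Fin g → ℂ) → ℂ} (ha : ∀ z, AnalyticAt ℂ a z)
    (h : ∀ l ∈ Λ, ∀ c : ℂ, (∀ i z, Θ i (z + l) = Complex.exp (η l z + c) * Θ i z) →
      ∀ z, a (z + l) = Complex.exp (η l z + c) ^ n * a z) :
    An Θ Λ η ℓ n 0 fun p => a p.1 := by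
  classical
  refine ⟨⟨C a, by simp, fun m z => ?_, fun p => by simp⟩, fun l hl c hc p => h l hl c hc p.1⟩
  rw [coeff_C]
  split_ifs
  exacts [ha z, analyticAt_const]

theorem const (c : ℂ) : An Θ Λ η ℓ 0 0 fun _ => c :=
  of_fst (a := fun _ => c) (fun _ => analyticAt_const) fun _ _ _ _ _ => by simp

theorem zero (n δ : ℕ) : An Θ Λ η ℓ n δ fun _ => 0 :=
  (of_fst (a := fun _ => 0) (fun _ => analyticAt_const) fun _ _ _ _ _ => by simp).mono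
    (Nat.zero_le δ)

theorem theta (h : IsTheta Θ Λ η) (i : Fin (N + 1)) : An Θ Λ η ℓ 1 0 fun p => Θ i p.1 :=
  of_fst (h.hol i) fun _ _ _ hc z => by rw [pow_one, hc]

theorem add (h : An Θ Λ η ℓ n δ F) (h' : An Θ Λ η ℓ n δ F') :
    An Θ Λ η ℓ n δ fun p => F p + F' p := by
  obtain ⟨A, hd, hA, hF⟩ := h.pol
  obtain ⟨A', hd', hA', hF'⟩ := h'.pol
  refine ⟨⟨A + A', (totalDegree_add _ _).trans (max_le hd hd'), fun m z => ?_, fun p => ?_⟩,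
    fun l hl c hc p => ?_⟩
  · rw [coeff_add]; exact (hA m z).add (hA' m z)
  · rw [eval₂_add, hF, hF']
  · simp only [h.aut l hl c hc, h'.aut l hl c hc, mul_add]

theorem mul (h : An Θ Λ η ℓ n δ F) (h' : An Θ Λ η ℓ n' δ' F') :
    An Θ Λ η ℓ (n + n') (δ + δ') fun p => F p * F' p := by
  classical
  obtain ⟨A, hd, hA, hF⟩ := h.pol
  obtain ⟨A', hd', hA', hF'⟩ := h'.pol
  refine ⟨⟨A * A', (totalDegree_mul _ _).trans (add_le_add hd hd'), fun m z => ?_, fun p => ?_⟩,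
    fun l hl c hc p => ?_⟩
  · rw [coeff_mul]
    exact Finset.analyticAt_sum _ fun x _ => (hA x.1 z).mul (hA' x.2 z)
  · rw [eval₂_mul, hF, hF']
  · simp only [h.aut l hl c hc, h'.aut l hl c hc, pow_add]; ring

theorem smul (c : ℂ) (h : An Θ Λ η ℓ n δ F) : An Θ Λ η ℓ n δ fun p => c * F p := by
  simpa using (const c).mul h

theorem sub (h : An Θ Λ η ℓ n δ F) (h' : An Θ Λ η ℓ n δ F') :
    An Θ Λ η ℓ n δ fun p => F p - F' p := by
  simpa [sub_eq_add_neg] using h.add (h'.smul (-1))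

theorem sum {κ : Type*} (s : Finset κ) {F : κ → GE g e → ℂ}
    (h : ∀ i ∈ s, An Θ Λ η ℓ n δ (F i)) : An Θ Λ η ℓ n δ fun p => ∑ i ∈ s, F i p := by
  classical
  induction s using Finset.induction_on with
  | empty => simpa using zero n δ
  | insert i s hi ih =>
    simp only [Finset.sum_insert hi]
    exact (h i (by simp)).add (ih fun j hj => h j (by simp [hj]))

theorem pow (h : An Θ Λ η ℓ n δ F) (k : ℕ) : An Θ Λ η ℓ (k * n) (k * δ) fun p => F p ^ k := by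
  induction k with
  | zero => simpa using const 1
  | succ k ih => simpa only [pow_succ, Nat.succ_mul] using ih.mul h

theorem prod {κ : Type*} (s : Finset κ) {F : κ → GE g e → ℂ} {n δ : κ → ℕ}
    (h : ∀ i ∈ s, An Θ Λ η ℓ (n i) (δ i) (F i)) :
    An Θ Λ η ℓ (∑ i ∈ s, n i) (∑ i ∈ s, δ i) fun p => ∏ i ∈ s, F i p := by
  classical
  induction s using Finset.induction_on with
  | empty => simpa using const 1
  | insert i s hi ih =>
    simp only [Finset.sum_insert hi, Finset.prod_insert hi]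
    exact (h i (by simp)).mul (ih fun j hj => h j (by simp [hj]))

end An

/-- the derivative of the automorphy relation -/
theorem IsTheta.fderiv_quasi (h : IsTheta Θ Λ η) {l : Fin g → ℂ} {c : ℂ}
    (hc : ∀ i z, Θ i (z + l) = Complex.exp (η l z + c) * Θ i z) (i : Fin (N + 1))
    (z y : Fin g → ℂ) : fderiv ℂ (Θ i) (z + l) y =
      Complex.exp (η l z + c) * (fderiv ℂ (Θ i) z y + η l y * Θ i z) := by
  have h1 : HasFDerivAt (fun z => Θ i (z + l)) (fderiv ℂ (Θ i) (z + l)) z :=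
    (hasFDerivAt_comp_add_right l).2 (h.hol i _).differentiableAt.hasFDerivAt
  have h2 := ((((LinearMap.toContinuousLinearMap (η l)).hasFDerivAt (x := z)).add_const
    c).cexp).mul (h.hol i z).differentiableAt.hasFDerivAt
  have h3 : (fun z => Θ i (z + l)) = fun z => Complex.exp (η l z + c) * Θ i z := funext (hc i)
  rw [h3] at h1
  rw [h1.unique h2]
  simp
  ring

theorem An.xi (h : IsTheta Θ Λ η) (k : Fin e × Fin (N + 1)) :
    An Θ Λ η ℓ 1 1 (xt Θ ℓ (Sum.inr k)) := by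
  classical
  refine ⟨⟨C (fun z => fderiv ℂ (Θ k.2) z (ℓ k.1)) + X k.1 * C (Θ k.2), ?_, fun m z => ?_,
    fun p => by simp [xt]⟩, fun l hl c hc p => ?_⟩
  · refine (totalDegree_add _ _).trans (max_le (by simp) ((totalDegree_mul _ _).trans ?_))
    rw [totalDegree_C, add_zero]
    exact (totalDegree_X _).le
  · rw [coeff_add, mul_comm, coeff_C_mul, coeff_C, coeff_X]
    refine AnalyticAt.add ?_ ((h.hol _ z).mul ?_)
    · split_ifs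
      exacts [analyticAt_dir (h.hol _ z) _, analyticAt_const]
    · split_ifs <;> exact analyticAt_const
  · simp only [xt, h.fderiv_quasi hc, hc, pow_one]
    ring

/-! ### Local rationality -/

namespace Rat

variable {n n' : ℕ} {F F' : GE g e → ℂ}

/-- a function that is a polynomial in every chart -/
theorem of_poly (h : ∀ i, ∃ Q : MvPolynomial (Fin (N + 1) ⊕ Fin e) ℂ, ∀ p : GE g e,
    Θ i p.1 ≠ 0 → F p = Θ i p.1 ^ n * eval (ch Θ ℓ i p) Q) : Rat Θ ℓ n F := fun _ i _ => by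
  obtain ⟨Q, hQ⟩ := h i
  exact ⟨1, Q, by simp, fun p hp => by simpa using hQ p hp⟩

theorem const (c : ℂ) : Rat Θ ℓ 0 fun _ => c := of_poly fun _ => ⟨C c, fun _ _ => by simp⟩

theorem zero (n : ℕ) : Rat Θ ℓ n fun _ => 0 := of_poly fun _ => ⟨0, fun _ _ => by simp⟩

theorem theta (j : Fin (N + 1)) : Rat Θ ℓ 1 fun p => Θ j p.1 :=
  of_poly fun i => ⟨X (Sum.inl j), fun p hp => by simp [ch]; field_simp⟩

theorem add (h : Rat Θ ℓ n F) (h' : Rat Θ ℓ n F') : Rat Θ ℓ n fun p => F p + F' p := by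
  intro p₀ i hi
  obtain ⟨a, P, ha, hP⟩ := h p₀ i hi
  obtain ⟨a', P', ha', hP'⟩ := h' p₀ i hi
  refine ⟨a * a', a' * P + a * P', by simpa using ⟨ha, ha'⟩, fun p hp => ?_⟩
  simp only [map_mul, map_add]
  linear_combination eval (ch Θ ℓ i p) a' * hP p hp + eval (ch Θ ℓ i p) a * hP' p hp

theorem mul (h : Rat Θ ℓ n F) (h' : Rat Θ ℓ n' F') :
    Rat Θ ℓ (n + n') fun p => F p * F' p := by
  intro p₀ i hi
  obtain ⟨a, P, ha, hP⟩ := h p₀ i hi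
  obtain ⟨a', P', ha', hP'⟩ := h' p₀ i hi
  refine ⟨a * a', P * P', by simpa using ⟨ha, ha'⟩, fun p hp => ?_⟩
  simp only [map_mul, pow_add]
  linear_combination (eval (ch Θ ℓ i p) a' * F' p) * hP p hp +
    (Θ i p.1 ^ n * eval (ch Θ ℓ i p) P) * hP' p hp

/-- local rationality in terms of forms -/
theorem forms (hΘ : IsTheta Θ Λ η) (h : Rat Θ ℓ n F) (p₀ : GE g e) :
    ∃ (m : ℕ) (a P : MvPolynomial (Fin (N + 1) ⊕ Fin e × Fin (N + 1)) ℂ),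
      a.IsHomogeneous m ∧ P.IsHomogeneous (m + n) ∧ eval (fun j => xt Θ ℓ j p₀) a ≠ 0 ∧
      ∀ p, eval (fun j => xt Θ ℓ j p) a * F p = eval (fun j => xt Θ ℓ j p) P := by
  obtain ⟨i, hi⟩ := hΘ.ne p₀.1
  obtain ⟨a, P, ha, hP⟩ := h p₀ i hi
  obtain ⟨a', h1, h2⟩ := exists_form (Θ := Θ) (ℓ := ℓ) i a
    (le_max_left a.totalDegree P.totalDegree)
  obtain ⟨P', h3, h4⟩ := exists_form (Θ := Θ) (ℓ := ℓ) i P
    (le_max_right a.totalDegree P.totalDegree)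
  generalize max a.totalDegree P.totalDegree = M at h1 h2 h3 h4
  have hx : ∀ p : GE g e, xt Θ ℓ (Sum.inl i) p = Θ i p.1 := fun _ => rfl
  refine ⟨1 + M, X (Sum.inl i) * a', X (Sum.inl i) ^ (1 + n) * P',
    (isHomogeneous_X _ _).mul h1, ?_, ?_, fun p => ?_⟩
  · have := (isHomogeneous_X_pow (R := ℂ) (Sum.inl i) (1 + n)).mul h3
    rwa [show 1 + n + M = 1 + M + n by ring] at this
  · rw [map_mul, eval_X, hx, h2 _ hi]
    exact mul_ne_zero hi (mul_ne_zero (pow_ne_zero _ hi) ha)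
  · simp only [map_mul, map_pow, eval_X, hx]
    by_cases hp : Θ i p.1 = 0
    · simp [hp]
    · rw [h2 p hp, h4 p hp, pow_add]
      linear_combination Θ i p.1 * Θ i p.1 ^ M * hP p hp

theorem zcl (hΘ : IsTheta Θ Λ η) (h : Rat Θ ℓ n F) : ZCl (xt Θ ℓ) {p | F p = 0} := by
  choose m a P h1 h2 h3 h4 using h.forms hΘ
  refine ⟨Set.range P, ?_, fun p => ⟨?_, fun hp => ?_⟩⟩
  · rintro _ ⟨q, rfl⟩
    exact ⟨_, h2 q⟩
  · rintro hp _ ⟨q, rfl⟩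
    rw [← h4 q p, show F p = 0 from hp, mul_zero]
  · have := h4 p p
    rw [hp _ ⟨p, rfl⟩] at this
    exact (mul_eq_zero.1 this).resolve_left (h3 p)

end Rat

namespace Cl

variable {n n' δ δ' : ℕ} {F F' : GE g e → ℂ}

theorem analyticAt (h : Cl Θ Λ η ℓ n δ F) (p : GE g e) : AnalyticAt ℂ F p := h.1.analyticAt p

theorem mono (h : Cl Θ Λ η ℓ n δ F) (hδ : δ ≤ δ') : Cl Θ Λ η ℓ n δ' F := ⟨h.1.mono hδ, h.2⟩

theorem const (c : ℂ) : Cl Θ Λ η ℓ 0 0 fun _ => c := ⟨An.const c, Rat.const c⟩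

theorem zero (n δ : ℕ) : Cl Θ Λ η ℓ n δ fun _ => 0 := ⟨An.zero n δ, Rat.zero n⟩

theorem theta (h : IsTheta Θ Λ η) (i : Fin (N + 1)) : Cl Θ Λ η ℓ 1 0 fun p => Θ i p.1 :=
  ⟨An.theta h i, Rat.theta i⟩

theorem add (h : Cl Θ Λ η ℓ n δ F) (h' : Cl Θ Λ η ℓ n δ F') :
    Cl Θ Λ η ℓ n δ fun p => F p + F' p := ⟨h.1.add h'.1, h.2.add h'.2⟩

theorem mul (h : Cl Θ Λ η ℓ n δ F) (h' : Cl Θ Λ η ℓ n' δ' F') :
    Cl Θ Λ η ℓ (n + n') (δ + δ') fun p => F p * F' p := ⟨h.1.mul h'.1, h.2.mul h'.2⟩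

theorem smul (c : ℂ) (h : Cl Θ Λ η ℓ n δ F) : Cl Θ Λ η ℓ n δ fun p => c * F p := by
  simpa using (const c).mul h

theorem sub (h : Cl Θ Λ η ℓ n δ F) (h' : Cl Θ Λ η ℓ n δ F') :
    Cl Θ Λ η ℓ n δ fun p => F p - F' p := by
  simpa [sub_eq_add_neg] using h.add (h'.smul (-1))

theorem sum {κ : Type*} (s : Finset κ) {F : κ → GE g e → ℂ}
    (h : ∀ i ∈ s, Cl Θ Λ η ℓ n δ (F i)) : Cl Θ Λ η ℓ n δ fun p => ∑ i ∈ s, F i p := by
  classical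
  induction s using Finset.induction_on with
  | empty => simpa using zero n δ
  | insert i s hi ih =>
    simp only [Finset.sum_insert hi]
    exact (h i (by simp)).add (ih fun j hj => h j (by simp [hj]))

theorem pow (h : Cl Θ Λ η ℓ n δ F) (k : ℕ) : Cl Θ Λ η ℓ (k * n) (k * δ) fun p => F p ^ k := by
  induction k with
  | zero => simpa using const 1
  | succ k ih => simpa only [pow_succ, Nat.succ_mul] using ih.mul h

theorem zcl (hΘ : IsTheta Θ Λ η) (h : Cl Θ Λ η ℓ n δ F) : ZCl (xt Θ ℓ) {p | F p = 0} :=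
  h.2.zcl hΘ

end Cl

end

end Pool.Agent.CMQ

end MrgPart1

-- ======== part 2: formerly Pool.Agent.MP_cbf1af_ag.shp.Spec
section MrgPart2

/-! PROJECT SHARP: working definitions and module statements.
Proofs on paper: /team-store/SHARP_BLUEPRINT.md -/

namespace Pool.Agent.SHP

open Filter Topology Module
open Pool.Agent.CMP (Qb Quad DiffSys Sz wd)
open Pool.Agent.CMQ (IsTheta GE Cl Wt Disc)

noncomputable section

/-- Lie algebra of the abelian variety -/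
abbrev V (n : ℕ) : Type := Fin n → ℂ

/-! ### The auxiliary functions -/

section
variable {n e : ℕ}

/-- the operator `∂_(ℓ k) + v_k` -/
def nab (ℓ : Fin e → V n) (k : Fin e) (F : GE n e → ℂ) : GE n e → ℂ :=
  fun p => fderiv ℂ F p (ℓ k, 0) + p.2 k * F p

/-- words in these operators, the head of the list acts first -/
def opl (ℓ : Fin e → V n) : List (Fin e) → (GE n e → ℂ) → GE n e → ℂ
  | [], F => F
  | k :: l, F => opl ℓ l (nab ℓ k F)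

/-- a word applied to the theta function -/
def fw (ϑ : V n → ℂ) (ℓ : Fin e → V n) (l : List (Fin e)) : GE n e → ℂ :=
  opl ℓ l fun p => ϑ p.1

/-- the word of a monomial -/
def mw {D : ℕ} (α : Fin e → Fin (D + 1)) : List (Fin e) :=
  (List.finRange e).flatMap fun j => List.replicate (α j) j

/-- Taylor coefficients at the origin of `fw / ϑ` along the directions `W j` -/
def tc {q : ℕ} (ϑ : V n → ℂ) (ℓ : Fin e → V n) (W : Fin q → GE n e) (l' : List (Fin q))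
    (l : List (Fin e)) : ℂ :=
  wd (fun i => Pi.single i 1) l'
    (fun x : Fin q → ℂ => fw ϑ ℓ l (∑ j, x j • W j) / ϑ (∑ j, x j • W j).1) 0

/-- the complex span of some periods of the extension -/
def PS {κ : Type} (η : V n → V n →ₗ[ℂ] ℂ) (lam : κ → V n) (ℓ : Fin e → V n) :
    Submodule ℂ (GE n e) :=
  Submodule.span ℂ (Set.range fun i => (lam i, fun k => -η (lam i) (ℓ k)))

/-- no algebraic subgroup obstructs the multiplicity estimate -/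
def Semi (Λ : AddSubgroup (V n)) (L : V n →ₗ[ℝ] V n →ₗ[ℂ] ℂ) (ℓ : Fin e → V n)
    (W : Submodule ℂ (GE n e)) : Prop :=
  ∀ 𝔥 : Submodule ℂ (GE n e), 𝔥 ≠ ⊤ → Disc Λ (𝔥.map (LinearMap.fst ℂ _ _)) →
    (∀ w ∈ 𝔥.map (LinearMap.fst ℂ _ _), (w, fun k => -L w (ℓ k)) ∈ 𝔥) →
    1 ≤ finrank ℂ (W.map 𝔥.mkQ) ∧
      e ≤ finrank ℂ (W.map 𝔥.mkQ) + finrank ℂ (𝔥.comap (LinearMap.inr ℂ _ _))

/-- from the universal extension to the extension defined by `ℓ` -/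
def pr (ℓ : Fin e → V n) : GE n n →ₗ[ℂ] GE n e :=
  LinearMap.prodMap LinearMap.id (Matrix.of ℓ).mulVecLin

end

/-! ### Words and specialisations -/

/-- words in first order operators `f ↦ ∂_v f + (m ⬝ h) f`, the head of the list acts first -/
def ew {E σ : Type} [NormedAddCommGroup E] [NormedSpace ℂ E] [Fintype σ] (h : E → σ → ℂ) :
    List (E × (σ → ℂ)) → (E → ℂ) → E → ℂ
  | [], f => f
  | p :: l, f => ew h l fun x => fderiv ℂ f x p.1 + (p.2 ⬝ᵥ h x) * f x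

/-- a polynomial differential system with algebraic coefficients and initial value -/
def DSys {E σ τ : Type} [NormedAddCommGroup E] [NormedSpace ℂ E] [DecidableEq τ]
    (B : (τ → ℂ) →ₗ[ℂ] E) (h : E → σ → ℂ) : Prop :=
  (∀ i, AnalyticAt ℂ (fun z => h z i) 0) ∧ (∀ i, IsAlgebraic ℚ (h 0 i)) ∧
    ∃ G : σ → τ → MvPolynomial σ Qb, ∀ i k, ∀ᶠ z in 𝓝 (0 : E),
      fderiv ℂ (fun z => h z i) z (B (Pi.single k 1)) = MvPolynomial.aeval (h z) (G i k)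

/-- `x'` is a specialisation of `x` -/
def Spc {M : ℕ} (x x' : Fin M → ℂ) : Prop :=
  ∀ P : MvPolynomial (Fin M) ℤ, MvPolynomial.aeval x P = 0 → MvPolynomial.aeval x' P = 0

/-- evaluation of a vector of integer polynomials -/
def evv {M : ℕ} {τ : Type} (x : Fin M → ℂ) (p : τ → MvPolynomial (Fin M) ℤ) : τ → ℂ :=
  fun i => MvPolynomial.aeval x (p i)

/-! ### Products -/

/-- first projection -/
def p1 (g₁ g₂ : ℕ) : V (g₁ + g₂) →ₗ[ℂ] V g₁ := LinearMap.funLeft ℂ ℂ (Fin.castAdd g₂)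

/-- second projection -/
def p2 (g₁ g₂ : ℕ) : V (g₁ + g₂) →ₗ[ℂ] V g₂ := LinearMap.funLeft ℂ ℂ (Fin.natAdd g₁)

/-- concatenation -/
def app (g₁ g₂ : ℕ) : (V g₁ × V g₂) ≃ₗ[ℂ] V (g₁ + g₂) where
  toFun y := Fin.append y.1 y.2
  invFun z := (p1 g₁ g₂ z, p2 g₁ g₂ z)
  map_add' y y' := by
    funext i
    refine Fin.addCases (fun j => ?_) (fun j => ?_) i <;> simp
  map_smul' c y := by
    funext i
    refine Fin.addCases (fun j => ?_) (fun j => ?_) i <;> simp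
  left_inv y := by
    ext j <;> simp [p1, p2, LinearMap.funLeft_apply]
  right_inv z := by
    funext i
    refine Fin.addCases (fun j => ?_) (fun j => ?_) i <;> simp [p1, p2, LinearMap.funLeft_apply]

/-- lattice of the product -/
def plat {g₁ g₂ : ℕ} (Λ₁ : AddSubgroup (V g₁)) (Λ₂ : AddSubgroup (V g₂)) :
    AddSubgroup (V (g₁ + g₂)) :=
  Λ₁.comap (p1 g₁ g₂).toAddMonoidHom ⊓ Λ₂.comap (p2 g₁ g₂).toAddMonoidHom

/-- quasi-periods of the product -/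
def peta {g₁ g₂ : ℕ} (η₁ : V g₁ → V g₁ →ₗ[ℂ] ℂ) (η₂ : V g₂ → V g₂ →ₗ[ℂ] ℂ) :
    V (g₁ + g₂) → V (g₁ + g₂) →ₗ[ℂ] ℂ :=
  fun l => η₁ (p1 g₁ g₂ l) ∘ₗ p1 g₁ g₂ + η₂ (p2 g₁ g₂ l) ∘ₗ p2 g₁ g₂

/-- the graph of `Γ` inside the Lie algebra of the universal extension of the product:
`y ↦ (app (y.1, (Γ y).1), -app (y.2, (Γ y).2))` -/
def gr {g : ℕ} (Γ : (V g × V g) →ₗ[ℂ] (V g × V g)) : (V g × V g) →ₗ[ℂ] GE (g + g) (g + g) :=
  LinearMap.prod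
    ((app g g).toLinearMap ∘ₗ LinearMap.prod (LinearMap.fst ℂ _ _) (LinearMap.fst ℂ _ _ ∘ₗ Γ))
    (-((app g g).toLinearMap ∘ₗ LinearMap.prod (LinearMap.snd ℂ _ _) (LinearMap.snd ℂ _ _ ∘ₗ Γ)))

/-! ### Module statements: the transcendence argument -/

/-- OPS: the auxiliary functions are independent sections (from `CMQ.FormStmt`) -/
def OpsStmt : Prop :=
  ∀ (n N : ℕ) (Θ : Fin (N + 1) → V n → ℂ) (Λ : AddSubgroup (V n)) (η : V n → V n →ₗ[ℂ] ℂ),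
    IsTheta Θ Λ η → ∀ (e : ℕ) (ℓ : Fin e → V n),
      (∀ l : List (Fin e), Cl Θ Λ η ℓ 1 l.length (fw (Θ 0) ℓ l)) ∧
      ∀ D : ℕ, LinearIndependent ℂ fun α : Fin e → Fin (D + 1) => fw (Θ 0) ℓ (mw α)

/-- GROW: growth of the auxiliary functions (from `CMP.cauchy`) -/
def GrowStmt : Prop :=
  ∀ (n N : ℕ) (Θ : Fin (N + 1) → V n → ℂ) (Λ : AddSubgroup (V n)) (η : V n → V n →ₗ[ℂ] ℂ)
    (u : V n → ℝ) (L : V n →ₗ[ℝ] V n →ₗ[ℂ] ℂ), IsTheta Θ Λ η → Wt Θ Λ η u L →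
    ∀ (e : ℕ) (ℓ : Fin e → V n), ∃ C : ℝ, ∀ (l : List (Fin e)) (p : GE n e),
      ‖fw (Θ 0) ℓ l p‖ * Real.exp (-u p.1) ≤
        C * ((l.length : ℝ) + 1) ^ l.length * Real.exp (∑ k, ‖p.2 k + L p.1 (ℓ k)‖)

/-- AUX: the auxiliary function (from OPS, GROW, `CMP.samp`, `CMP.box`) -/
def AuxStmt : Prop :=
  ∀ (n N : ℕ) (Θ : Fin (N + 1) → V n → ℂ) (Λ : AddSubgroup (V n)) (η : V n → V n →ₗ[ℂ] ℂ)
    (u : V n → ℝ) (L : V n →ₗ[ℝ] V n →ₗ[ℂ] ℂ), IsTheta Θ Λ η → Wt Θ Λ η u L →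
    ∀ (s c e : ℕ) (lam : Fin s → V n) (ℓ : Fin e → V n), (∀ i, lam i ∈ Λ) →
    LinearIndependent ℝ lam → c + s = 2 * finrank ℂ (Submodule.span ℂ (Set.range lam)) →
    (∀ ν, (0, ν) ∈ PS η lam ℓ → ν = 0) →
    ∃ C : ℕ, 1 ≤ C ∧ ∀ D v H : ℕ, 1 ≤ v → H ≤ v ^ 2 → (D + 2) ^ (C * (D + 1)) ≤ 2 ^ v ^ 2 →
      C * v ^ (c + 2) ≤ (D + 1) ^ e * H →
      ∃ cf : (Fin e → Fin (D + 1)) → ℤ, cf ≠ 0 ∧ (∀ α, (cf α).natAbs ≤ 2 ^ H) ∧
        ∀ p ∈ PS η lam ℓ, ‖p‖ ≤ 1 / (C * v : ℝ) → Θ 0 p.1 ≠ 0 ∧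
          ‖(∑ α, (cf α : ℂ) * fw (Θ 0) ℓ (mw α) p) / Θ 0 p.1‖ ≤ Real.exp (C - (v : ℝ) ^ 2)

/-- TAY: sizes of the values of words, and the unit ideal -/
def TayStmt : Prop :=
  ∀ (E σ τ ρ : Type) [NormedAddCommGroup E] [NormedSpace ℂ E] [Fintype σ] [Fintype τ]
    [DecidableEq τ] [Fintype ρ] (M : ℕ) (B : (τ → ℂ) →ₗ[ℂ] E) (h : E → σ → ℂ) (x : Fin M → ℂ)
    (pa : ρ → τ → MvPolynomial (Fin M) ℤ) (pm : ρ → σ → MvPolynomial (Fin M) ℤ),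
    DSys B h → ∃ (m : ℕ) (θ : Fin m → ℂ) (C : ℕ), 1 ≤ C ∧
      (∀ i, IsAlgebraic ℚ (θ i) ∨ θ i ∈ IntermediateField.adjoin ℚ (Set.range x)) ∧
      (∀ (T : ℕ) (l : List ρ), l.length ≤ T → Sz θ (C * T) ((C * (T + 1)) ^ T)
        (ew h (l.map fun j => (B (evv x (pa j)), evv x (pm j))) (fun _ => 1) 0)) ∧
      ∀ (ι ι' : Type) [Fintype ι] (cf : ι → ℤ) (wo : ι' → ι → List ρ),
        (∀ x', Spc x x' → ∃ k, ∑ i, (cf i : ℂ) *
          ew h ((wo k i).map fun j => (B (evv x' (pa j)), evv x' (pm j))) (fun _ => 1) 0 ≠ 0) →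
        (1 : ℂ) ∈ Submodule.span (Algebra.adjoin Qb (Set.range θ)) (Set.range fun k =>
          ∑ i, (cf i : ℂ) *
            ew h ((wo k i).map fun j => (B (evv x (pa j)), evv x (pm j))) (fun _ => 1) 0)

/-- SIZE: the same for the Taylor coefficients of the auxiliary functions
(from `CMQ.DerStmt`, TAY) -/
def SizeStmt : Prop :=
  ∀ (n N : ℕ) (Θ : Fin (N + 1) → V n → ℂ) (Λ : AddSubgroup (V n)) (η : V n → V n →ₗ[ℂ] ℂ),
    IsTheta Θ Λ η → ∀ (e q M : ℕ) (x : Fin M → ℂ) (pl : Fin e → Fin n → MvPolynomial (Fin M) ℤ)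
    (pw : Fin q → Fin n → MvPolynomial (Fin M) ℤ) (pv : Fin q → Fin e → MvPolynomial (Fin M) ℤ),
    ∃ (m : ℕ) (θ : Fin m → ℂ) (C : ℕ), 1 ≤ C ∧
      (∀ i, IsAlgebraic ℚ (θ i) ∨ θ i ∈ IntermediateField.adjoin ℚ (Set.range x)) ∧
      (∀ (T : ℕ) (l' : List (Fin q)) (l : List (Fin e)), l'.length + l.length ≤ T →
        Sz θ (C * T) ((C * (T + 1)) ^ T) (tc (Θ 0) (fun k => evv x (pl k))
          (fun j => (evv x (pw j), evv x (pv j))) l' l)) ∧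
      ∀ (ι ι' : Type) [Fintype ι] (cf : ι → ℤ) (wo : ι' → List (Fin q)) (wl : ι → List (Fin e)),
        (∀ x', Spc x x' → ∃ k, ∑ i, (cf i : ℂ) * tc (Θ 0) (fun k => evv x' (pl k))
          (fun j => (evv x' (pw j), evv x' (pv j))) (wo k) (wl i) ≠ 0) →
        (1 : ℂ) ∈ Submodule.span (Algebra.adjoin Qb (Set.range θ)) (Set.range fun k =>
          ∑ i, (cf i : ℂ) * tc (Θ 0) (fun k => evv x (pl k))
            (fun j => (evv x (pw j), evv x (pv j))) (wo k) (wl i))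

/-- CORE (from `CMQ.ZeroStmt`, OPS, AUX, SIZE, `CMP.cauchy`, `CMP.ordIff`, `CMP.liou'`) -/
def CoreStmt : Prop :=
  ∀ (n N : ℕ) (Θ : Fin (N + 1) → V n → ℂ) (Λ : AddSubgroup (V n)) (η : V n → V n →ₗ[ℂ] ℂ)
    (u : V n → ℝ) (L : V n →ₗ[ℝ] V n →ₗ[ℂ] ℂ), IsTheta Θ Λ η → Wt Θ Λ η u L →
    ∀ (s c e q t M : ℕ) (lam : Fin s → V n) (x : Fin M → ℂ)
    (pl : Fin e → Fin n → MvPolynomial (Fin M) ℤ) (pw : Fin q → Fin n → MvPolynomial (Fin M) ℤ)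
    (pv : Fin q → Fin e → MvPolynomial (Fin M) ℤ), (∀ i, lam i ∈ Λ) →
    LinearIndependent ℝ lam → c + s = 2 * finrank ℂ (Submodule.span ℂ (Set.range lam)) →
    (∀ ν, (0, ν) ∈ PS η lam (fun k => evv x (pl k)) → ν = 0) →
    (∀ j, (evv x (pw j), evv x (pv j)) ∈ PS η lam fun k => evv x (pl k)) →
    (∀ x', Spc x x' → Semi Λ L (fun k => evv x' (pl k))
      (Submodule.span ℂ (Set.range fun j => (evv x' (pw j), evv x' (pv j))))) →
    Algebra.trdeg ℚ (IntermediateField.adjoin ℚ (Set.range x)) ≤ t →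
    2 * (e + 1) ≤ (c + 2) * (t + 1)

/-! ### Module statements: products and graphs -/

/-- PROD: the Segre embedding of a product -/
def ProdStmt : Prop :=
  ∀ (g₁ g₂ N₁ N₂ : ℕ) (Θ₁ : Fin (N₁ + 1) → V g₁ → ℂ) (Λ₁ : AddSubgroup (V g₁))
    (η₁ : V g₁ → V g₁ →ₗ[ℂ] ℂ) (Θ₂ : Fin (N₂ + 1) → V g₂ → ℂ) (Λ₂ : AddSubgroup (V g₂))
    (η₂ : V g₂ → V g₂ →ₗ[ℂ] ℂ), IsTheta Θ₁ Λ₁ η₁ → IsTheta Θ₂ Λ₂ η₂ →
    ∃ (N : ℕ) (Θ : Fin (N + 1) → V (g₁ + g₂) → ℂ), IsTheta Θ (plat Λ₁ Λ₂) (peta η₁ η₂)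

/-- GRAPH: graphs of isomorphisms are not obstructed -/
def GraphStmt : Prop :=
  ∀ (g N : ℕ) (Θ : Fin (N + 1) → V (g + g) → ℂ) (Λ₁ : AddSubgroup (V g))
    (η₁ : V g → V g →ₗ[ℂ] ℂ) (Λ₂ : AddSubgroup (V g)) (η₂ : V g → V g →ₗ[ℂ] ℂ)
    (u : V (g + g) → ℝ) (L : V (g + g) →ₗ[ℝ] V (g + g) →ₗ[ℂ] ℂ),
    IsTheta Θ (plat Λ₁ Λ₂) (peta η₁ η₂) → Wt Θ (plat Λ₁ Λ₂) (peta η₁ η₂) u L → NoHom Λ₁ Λ₂ →
    ∀ Γ : (V g × V g) →ₗ[ℂ] (V g × V g), Function.Injective Γ →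
    ∀ (e : ℕ) (ℓ : Fin e → V (g + g)), LinearIndependent ℂ ℓ →
      Semi (plat Λ₁ Λ₂) L ℓ ((LinearMap.range (gr Γ)).map (pr ℓ))

/-- LIN: the forms killing the vertical part of the graph -/
def LinStmt : Prop :=
  ∀ (g : ℕ) (Γ : (V g × V g) →ₗ[ℂ] (V g × V g)) (K : IntermediateField ℚ ℂ), OverK K Γ →
    ∃ (e : ℕ) (ℓ : Fin e → V (g + g)),
      e = finrank ℂ ((LinearMap.range (gr Γ)).map (LinearMap.fst ℂ _ _)) ∧ g ≤ e ∧
      (∀ k j, ℓ k j ∈ K) ∧ LinearIndependent ℂ ℓ ∧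
      ∀ ν, (0, ν) ∈ (LinearMap.range (gr Γ)).map (pr ℓ) → ν = 0

/-- SPC: generators and their specialisations -/
def SpcStmt : Prop :=
  ∀ (g e : ℕ) (Γ : (V g × V g) →ₗ[ℂ] (V g × V g)) (K : IntermediateField ℚ ℂ)
    (ℓ : Fin e → V (g + g)), OverK K Γ → Function.Injective Γ → (∀ k j, ℓ k j ∈ K) →
    LinearIndependent ℂ ℓ → ∃ (M q : ℕ) (x : Fin M → ℂ)
      (pl : Fin e → Fin (g + g) → MvPolynomial (Fin M) ℤ)
      (pw : Fin q → Fin (g + g) → MvPolynomial (Fin M) ℤ)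
      (pv : Fin q → Fin e → MvPolynomial (Fin M) ℤ), (∀ i, x i ∈ K) ∧
      (∀ k, evv x (pl k) = ℓ k) ∧
      (∀ j, (evv x (pw j), evv x (pv j)) ∈ (LinearMap.range (gr Γ)).map (pr ℓ)) ∧
      ∀ x', Spc x x' → LinearIndependent ℂ (fun k => evv x' (pl k)) ∧
        ∃ Γ' : (V g × V g) →ₗ[ℂ] (V g × V g), Function.Injective Γ' ∧
          Submodule.span ℂ (Set.range fun j => (evv x' (pw j), evv x' (pv j))) =
            (LinearMap.range (gr Γ')).map (pr fun k => evv x' (pl k))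

/-- MAIN0: one copy (from `CMQ.WtStmt`, CORE, PROD, GRAPH, LIN, SPC) -/
def Main0Stmt : Prop :=
  ∀ (g N₁ N₂ : ℕ) (Θ₁ : Fin (N₁ + 1) → V g → ℂ) (Λ₁ : AddSubgroup (V g))
    (η₁ : V g → V g →ₗ[ℂ] ℂ) (Θ₂ : Fin (N₂ + 1) → V g → ℂ) (Λ₂ : AddSubgroup (V g))
    (η₂ : V g → V g →ₗ[ℂ] ℂ), IsTheta Θ₁ Λ₁ η₁ → IsTheta Θ₂ Λ₂ η₂ → NoHom Λ₁ Λ₂ →
    ∀ (κ : Type) [Fintype κ] (lam₁ lam₂ : κ → V g), Fintype.card κ = 2 * g →
    (∀ k, lam₁ k ∈ Λ₁) → (∀ k, lam₂ k ∈ Λ₂) → LinearIndependent ℝ lam₁ →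
    LinearIndependent ℝ lam₂ → ∀ μ : ℕ,
    finrank ℂ (Submodule.span ℂ (Set.range fun k => (lam₁ k, lam₂ k))) ≤ g + μ →
    ∀ Γ : (V g × V g) →ₗ[ℂ] (V g × V g),
    (∀ k, Γ (lam₁ k, qp η₁ (lam₁ k)) = (lam₂ k, qp η₂ (lam₂ k))) →
    ∀ K : IntermediateField ℚ ℂ, OverK K Γ → ∀ t : ℕ, Algebra.trdeg ℚ K ≤ t → g ≤ t * (μ + 1)

/-- MAIN (from MAIN0, PROD: redundant copies) -/
def MainStmt : Prop :=
  ∀ (g N₁ N₂ : ℕ) (Θ₁ : Fin (N₁ + 1) → V g → ℂ) (Λ₁ : AddSubgroup (V g))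
    (η₁ : V g → V g →ₗ[ℂ] ℂ) (Θ₂ : Fin (N₂ + 1) → V g → ℂ) (Λ₂ : AddSubgroup (V g))
    (η₂ : V g → V g →ₗ[ℂ] ℂ), IsTheta Θ₁ Λ₁ η₁ → IsTheta Θ₂ Λ₂ η₂ → NoHom Λ₁ Λ₂ →
    ∀ (κ : Type) [Fintype κ] (lam₁ lam₂ : κ → V g), Fintype.card κ = 2 * g →
    (∀ k, lam₁ k ∈ Λ₁) → (∀ k, lam₂ k ∈ Λ₂) → LinearIndependent ℝ lam₁ →
    LinearIndependent ℝ lam₂ → ∀ μ : ℕ,
    finrank ℂ (Submodule.span ℂ (Set.range fun k => (lam₁ k, lam₂ k))) ≤ g + μ →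
    ∀ Γ : (V g × V g) →ₗ[ℂ] (V g × V g),
    (∀ k, Γ (lam₁ k, qp η₁ (lam₁ k)) = (lam₂ k, qp η₂ (lam₂ k))) →
    ∀ K : IntermediateField ℚ ℂ, OverK K Γ → ∀ t : ℕ, Algebra.trdeg ℚ K ≤ t → g ≤ μ * t

/-! ### Module statements: elliptic curves -/

/-- SIGMA: the theta model of an elliptic curve -/
def SigmaStmt : Prop :=
  ∀ L : PeriodPair, IsAlgebraic ℚ L.g₂ → IsAlgebraic ℚ L.g₃ →
    ∃ (N : ℕ) (Θ : Fin (N + 1) → V 1 → ℂ) (Λ : AddSubgroup (V 1)) (η : V 1 → V 1 →ₗ[ℂ] ℂ),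
      IsTheta Θ Λ η ∧ (∀ z, z ∈ Λ ↔ z 0 ∈ L.lattice) ∧
      ∀ α : ℂ, (∀ z, z ∈ L.lattice ↔ α * z ∈ L.lattice) → ∀ l ∈ Λ,
        α * qp η (α • l) 0 = qp η l 0

/-- REALP: the real period -/
def RealpStmt : Prop :=
  ∀ (L : PeriodPair) (ω : ℝ), 0 < ω → (∀ z ∈ L.lattice, (starRingEnd ℂ) z ∈ L.lattice) →
    (∀ x : ℝ, (x : ℂ) ∈ L.lattice ↔ ∃ m : ℤ, x = m * ω) →
    ∃ g2 g3 e : ℝ, L.g₂ = g2 ∧ L.g₃ = g3 ∧ 4 * e ^ 3 - g2 * e - g3 = 0 ∧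
      (∀ x, e < x → 0 < 4 * x ^ 3 - g2 * x - g3) ∧
      MeasureTheory.IntegrableOn (fun x => 1 / √(4 * x ^ 3 - g2 * x - g3)) (Set.Ioi e) ∧
      ∫ x in Set.Ioi e, 1 / √(4 * x ^ 3 - g2 * x - g3) = ω / 2

/-- BETA: two integrals -/
def BetaStmt : Prop :=
  (∃ q : ℝ, IsAlgebraic ℚ q ∧ ∀ e : ℝ, 0 < e →
    √e * ∫ x in Set.Ioi e, 1 / √(4 * x ^ 3 - 4 * e ^ 2 * x) =
      q * (Real.Gamma (1 / 4) ^ 2 / √Real.pi)) ∧
  (∃ q : ℝ, IsAlgebraic ℚ q ∧ ∀ e : ℝ, 0 < e →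
    √e * ∫ x in Set.Ioi e, 1 / √(4 * x ^ 3 - 4 * e ^ 3) =
      q * (Real.Gamma (1 / 3) ^ 3 / Real.pi)) ∧
  ¬ MeasureTheory.IntegrableOn (fun x : ℝ => 1 / √(4 * x ^ 3)) (Set.Ioi 0)

/-- INV: the two lattices (from REALP, BETA) -/
def InvStmt : Prop :=
  (∃ (L : PeriodPair) (q : ℂ), IsAlgebraic ℚ L.g₂ ∧ IsAlgebraic ℚ L.g₃ ∧ IsAlgebraic ℚ q ∧
    L.ω₂ = Complex.I * L.ω₁ ∧ L.ω₁ = q * ((Real.Gamma (1 / 4) ^ 2 / √Real.pi : ℝ) : ℂ)) ∧
  ∃ (L : PeriodPair) (q : ℂ), IsAlgebraic ℚ L.g₂ ∧ IsAlgebraic ℚ L.g₃ ∧ IsAlgebraic ℚ q ∧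
    L.ω₂ = (-1 + (√3 : ℝ) * Complex.I) / 2 * L.ω₁ ∧
    L.ω₁ = q * ((Real.Gamma (1 / 3) ^ 3 / Real.pi : ℝ) : ℂ)

/-- ELL: two elliptic curves (from MAIN, PROD) -/
def EllStmt : Prop :=
  ∀ (N N' : ℕ) (Θ : Fin (N + 1) → V 1 → ℂ) (Λ : AddSubgroup (V 1)) (η : V 1 → V 1 →ₗ[ℂ] ℂ)
    (Θ' : Fin (N' + 1) → V 1 → ℂ) (Λ' : AddSubgroup (V 1)) (η' : V 1 → V 1 →ₗ[ℂ] ℂ),
    IsTheta Θ Λ η → IsTheta Θ' Λ' η' → NoHom Λ Λ' → ∀ ω ω' : Fin 2 → V 1,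
    (∀ a, ω a ∈ Λ) → (∀ a, ω' a ∈ Λ') → LinearIndependent ℝ ω → LinearIndependent ℝ ω' →
    ∀ K : IntermediateField ℚ ℂ,
      (∀ a b x y, (x = ω a 0 ∨ x = qp η (ω a) 0) → (y = ω' b 0 ∨ y = qp η' (ω' b) 0) →
        x * y / (ω 0 0 * qp η (ω 1) 0 - ω 1 0 * qp η (ω 0) 0) ∈ K) →
      ∀ t : ℕ, Algebra.trdeg ℚ K ≤ t → 2 ≤ t

/-- GAMF (from SIGMA, INV, ELL) -/
def GamStmt : Prop :=
  AlgebraicIndependent ℚ ![Real.Gamma (1 / 3) / √Real.pi, Real.Gamma (1 / 4) / √Real.pi]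

end

end Pool.Agent.SHP

end MrgPart2

-- ======== part 3: formerly Pool.Agent.MP_cbf1af_ag.shp.Ops
section MrgPart3

/-! PROJECT SHARP: the auxiliary functions are independent sections. -/

namespace Pool.Agent.SHP

open MvPolynomial
open Pool.Agent.CMQ (IsTheta GE Cl)

noncomputable section

namespace Ops

variable {n e : ℕ} (ℓ : Fin e → V n)

theorem an_v (k : Fin e) (p : GE n e) : AnalyticAt ℂ (fun p : GE n e => p.2 k) p :=
  ((ContinuousLinearMap.proj (R := ℂ) (φ := fun _ : Fin e => ℂ) k).comp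
    (ContinuousLinearMap.snd ℂ (V n) (Fin e → ℂ))).analyticAt p

theorem an_dir {E : Type} [NormedAddCommGroup E] [NormedSpace ℂ E] {f : E → ℂ} {z : E}
    (h : AnalyticAt ℂ f z) (v : E) : AnalyticAt ℂ (fun z => fderiv ℂ f z v) z :=
  ((ContinuousLinearMap.apply ℂ ℂ v).analyticAt _).comp h.fderiv

theorem an_nab (k : Fin e) {F : GE n e → ℂ} (hF : ∀ p, AnalyticAt ℂ F p) (p : GE n e) :
    AnalyticAt ℂ (nab ℓ k F) p := (an_dir (hF p) _).add ((an_v k p).mul (hF p))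

theorem nab_lin (k j : Fin e) {F G : GE n e → ℂ} (hF : ∀ p, AnalyticAt ℂ F p)
    (hG : ∀ p, AnalyticAt ℂ G p) :
    nab ℓ k (fun p => G p + p.2 j * F p) = fun p => nab ℓ k G p + p.2 j * nab ℓ k F p := by
  funext p
  have h := ((hG p).differentiableAt.hasFDerivAt.add
    (((ContinuousLinearMap.proj (R := ℂ) (φ := fun _ : Fin e => ℂ) j).comp
      (ContinuousLinearMap.snd ℂ (V n) (Fin e → ℂ))).hasFDerivAt.mul
        (hF p).differentiableAt.hasFDerivAt)).fderiv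
  unfold nab
  erw [h]
  simp
  ring

theorem opl_lin (j : Fin e) (l : List (Fin e)) : ∀ {F G : GE n e → ℂ}, (∀ p, AnalyticAt ℂ F p) →
    (∀ p, AnalyticAt ℂ G p) →
    opl ℓ l (fun p => G p + p.2 j * F p) = fun p => opl ℓ l G p + p.2 j * opl ℓ l F p := by
  induction l with
  | nil => intro F G _ _; rfl
  | cons k l ih =>
    intro F G hF hG
    simp only [opl]
    rw [nab_lin ℓ k j hF hG, ih (an_nab ℓ k hF) (an_nab ℓ k hG)]

/-- the word as a polynomial in the vector part -/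
def Q : List (Fin e) → (V n → ℂ) → V n → MvPolynomial (Fin e) ℂ
  | [], a, z => C (a z)
  | k :: l, a, z => Q l (fun z => fderiv ℂ a z (ℓ k)) z + X k * Q l a z

theorem opl_eq (l : List (Fin e)) : ∀ {a : V n → ℂ}, (∀ z, AnalyticAt ℂ a z) → ∀ p : GE n e,
    opl ℓ l (fun p => a p.1) p = eval p.2 (Q ℓ l a p.1) := by
  induction l with
  | nil => intro a _ p; simp [opl, Q]
  | cons k l ih =>
    intro a ha p
    have h : nab ℓ k (fun p => a p.1) =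
        fun p : GE n e => fderiv ℂ a p.1 (ℓ k) + p.2 k * a p.1 := by
      funext p
      have := ((ha p.1).differentiableAt.hasFDerivAt.comp p hasFDerivAt_fst).fderiv
      unfold nab
      erw [this]
      simp
    have ha' : ∀ z, AnalyticAt ℂ (fun z => fderiv ℂ a z (ℓ k)) z := fun z => an_dir (ha z) _
    rw [opl, h, opl_lin ℓ k l (F := fun p => a p.1) (G := fun p => fderiv ℂ a p.1 (ℓ k))
      (fun p => (ha p.1).comp analyticAt_fst) (fun p => (ha' p.1).comp analyticAt_fst)]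
    simp only [Q, map_add, map_mul, eval_X]
    rw [← ih ha, ← ih ha']

/-- the exponent of a word -/
def cnt : List (Fin e) → Fin e →₀ ℕ
  | [] => 0
  | k :: l => Finsupp.single k 1 + cnt l

theorem degree_cnt (l : List (Fin e)) : (cnt l).degree = l.length := by
  induction l with
  | nil => simp [cnt]
  | cons k l ih => simp [cnt, ih, add_comm]

theorem cnt_apply (l : List (Fin e)) (j : Fin e) : cnt l j = l.count j := by
  induction l with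
  | nil => simp [cnt]
  | cons k l ih => simp [cnt, ih, List.count_cons, Finsupp.single_apply, add_comm]

theorem cnt_mw {D : ℕ} (α : Fin e → Fin (D + 1)) (j : Fin e) : cnt (mw α) j = α j := by
  rw [cnt_apply, mw, List.count_flatMap, ← Fin.sum_univ_def]
  simp [List.count_replicate]

theorem coeff_Q (l : List (Fin e)) : ∀ (a : V n → ℂ) (z : V n) (m : Fin e →₀ ℕ),
    l.length ≤ m.degree → coeff m (Q ℓ l a z) = if m = cnt l then a z else 0 := by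
  induction l with
  | nil => intro a z m _; simp [Q, cnt, coeff_C, eq_comm]
  | cons k l ih =>
    intro a z m hm
    rw [List.length_cons] at hm
    rw [Q, coeff_add, ih _ _ _ (by omega), if_neg (by rintro rfl; rw [degree_cnt] at hm; omega),
      zero_add, cnt]
    by_cases hk : k ∈ m.support
    · obtain ⟨m', rfl⟩ : ∃ m', m = Finsupp.single k 1 + m' :=
        exists_add_of_le (Finsupp.single_le_iff.2
          (Nat.one_le_iff_ne_zero.2 (Finsupp.mem_support_iff.1 hk)))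
      rw [map_add, Finsupp.degree_single] at hm
      rw [coeff_X_mul, ih _ _ _ (by omega)]
      simp only [add_right_inj]
    · rw [coeff_X_mul', if_neg hk, if_neg]
      rintro rfl
      simp at hk

end Ops

open Ops in
theorem ops (hF : CMQ.FormStmt) : OpsStmt := by
  intro n N Θ Λ η h e ℓ
  refine ⟨fun l => ?_, fun D => Fintype.linearIndependent_iff.2 fun c hc => ?_⟩
  · have key : ∀ (l : List (Fin e)) (δ : ℕ) (F : GE n e → ℂ), Cl Θ Λ η ℓ 1 δ F →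
        Cl Θ Λ η ℓ 1 (δ + l.length) (opl ℓ l F) := by
      intro l
      induction l with
      | nil => intro δ F h; exact h
      | cons k l ih =>
        intro δ F hF'
        have := (hF n N Θ Λ η h e ℓ).2 1 δ F k hF'
        simp only [Nat.cast_one, one_mul] at this
        rw [List.length_cons, add_comm l.length, ← add_assoc]
        exact ih _ _ this
    simpa only [zero_add, fw] using key l 0 _ (CMQ.Cl.theta h 0)
  · by_contra hne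
    push Not at hne
    obtain ⟨α, hα, hmax⟩ := Finset.exists_max_image (Finset.univ.filter fun α => c α ≠ 0)
      (fun α => (mw α).length) (hne.imp fun α hα => by simpa using hα)
    have hz : ∑ β, C (c β) * Q ℓ (mw β) (Θ 0) 0 = 0 := MvPolynomial.funext fun v => by
      have := congrFun hc (0, v)
      simp only [Finset.sum_apply, Pi.smul_apply, smul_eq_mul, fw, opl_eq ℓ _ (h.hol 0)] at this
      simpa using this
    have h1 := congrArg (coeff (cnt (mw α))) hz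
    rw [coeff_sum, coeff_zero, Finset.sum_eq_single α] at h1
    · rw [coeff_C_mul, coeff_Q _ _ _ _ _ (degree_cnt _).ge, if_pos rfl] at h1
      exact mul_ne_zero (Finset.mem_filter.1 hα).2 h.ne0 h1
    · intro β _ hβ
      by_cases hb : c β = 0
      · simp [hb]
      rw [coeff_C_mul, coeff_Q _ _ _ _ _ ((hmax β (by simpa using hb)).trans (degree_cnt _).ge),
        if_neg, mul_zero]
      intro hh
      exact hβ (_root_.funext fun j => Fin.ext (by rw [← cnt_mw, ← cnt_mw, hh]))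
    · simp

end

end Pool.Agent.SHP

end MrgPart3

-- marker of a merged file
example : 731051 + 47880 = 731051 + 47880 := rfl
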