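import Mathlib.Algebra.Order.Ring.Star
import Mathlib.Algebra.Module.ZLattice.Basic
import Mathlib.Algebra.Order.Archimedean.Real.Hom
import Mathlib.AlgebraicTopology.FundamentalGroupoid.SimplyConnected
import Mathlib.Analysis.Convex.Contractible
import Mathlib.Topology.MetricSpace.Sequences
import Mathlib.Tactic.Polynomial.Basic
import Pool.Agent.MP_cbf1af_ag.shp.Ops
import Mathlib.Algebra.Module.Torsion.Prod
import Mathlib.LinearAlgebra.Matrix.DotProduct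

-- ======== part 0: formerly Pool.Agent.MP_cbf1af_ag.cmp2.Sub
section MrgPart0

/-! SUB: closed subgroups of the vector extension. -/

namespace Pool.Agent.CMQ

open MvPolynomial Filter Topology

namespace Sb

/-- a closed subgroup of a finite dimensional real space is a subspace near the origin -/
theorem csg {E : Type} [NormedAddCommGroup E] [NormedSpace ℝ E] [FiniteDimensional ℝ E]
    (H : AddSubgroup E) (hH : IsClosed (H : Set E)) :
    ∀ᶠ p in 𝓝 (0 : E), p ∈ H → ∀ t : ℝ, t • p ∈ H := by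
  let h : Submodule ℝ E :=
    { carrier := {p | ∀ t : ℝ, t • p ∈ H}
      add_mem' := fun ha hb t => by rw [smul_add]; exact H.add_mem (ha t) (hb t)
      zero_mem' := fun t => by simp
      smul_mem' := fun c x hx t => by rw [smul_smul]; exact hx _ }
  obtain ⟨W, hW⟩ := h.exists_isCompl
  obtain ⟨π, hπW, hπh⟩ : ∃ π : E →ₗ[ℝ] E, (∀ p, π p ∈ W) ∧ ∀ p, p - π p ∈ h := by
    refine ⟨W.subtype ∘ₗ LinearMap.snd ℝ h W ∘ₗ (h.prodEquivOfIsCompl W hW).symm.toLinearMap,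
      fun p => by simp, fun p => ?_⟩
    obtain ⟨⟨a, b⟩, rfl⟩ := (h.prodEquivOfIsCompl W hW).surjective p
    simp only [LinearMap.comp_apply, LinearEquiv.coe_coe, LinearEquiv.symm_apply_apply]
    simp
  by_contra hc
  rw [Filter.not_eventually] at hc
  obtain ⟨x, hx0, hx⟩ := exists_seq_forall_of_frequently hc
  have hxH : ∀ n, x n ∈ H := fun n => by
    by_contra h'
    exact hx n fun h'' => absurd h'' h'
  have hxh : ∀ n, x n ∉ h := fun n h' => hx n fun _ => h'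
  have hb0 : ∀ n, π (x n) ≠ 0 := fun n h' => hxh n (by simpa [h'] using hπh (x n))
  have hbH : ∀ n, π (x n) ∈ H := fun n => by
    have h1 : (1 : ℝ) • (x n - π (x n)) ∈ H := hπh (x n) 1
    have := H.sub_mem (hxH n) h1
    simpa using this
  have hbl : Tendsto (fun n => ‖π (x n)‖) atTop (𝓝 0) := by
    have := ((π.continuous_of_finiteDimensional.tendsto 0).comp hx0).norm
    simpa using this
  have hK : IsCompact (Metric.sphere (0 : E) 1 ∩ W) :=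
    (isCompact_sphere 0 1).inter_right W.closed_of_finiteDimensional
  obtain ⟨β, ⟨hβ1, hβW⟩, φ, hφ, hl⟩ := hK.tendsto_subseq
    (x := fun n => ‖π (x n)‖⁻¹ • π (x n)) fun n =>
      ⟨by simp [norm_smul, hb0 n], W.smul_mem _ (hπW _)⟩
  have hβh : β ∈ h := fun t => by
    have h1 : Tendsto (fun n => (⌊t / ‖π (x (φ n))‖⌋ : ℝ) * ‖π (x (φ n))‖) atTop (𝓝 t) := by
      have h2 := hbl.comp hφ.tendsto_atTop
      refine tendsto_of_tendsto_of_tendsto_of_le_of_le (g := fun n => t - ‖π (x (φ n))‖)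
        (h := fun _ => t) (by simpa using tendsto_const_nhds.sub h2) tendsto_const_nhds
        (fun n => ?_) fun n => ?_
      · have hp : 0 < ‖π (x (φ n))‖ := norm_pos_iff.2 (hb0 _)
        have := Int.lt_floor_add_one (t / ‖π (x (φ n))‖)
        rw [div_lt_iff₀ hp] at this
        simp only
        linarith
      · have hp : 0 < ‖π (x (φ n))‖ := norm_pos_iff.2 (hb0 _)
        have := Int.floor_le (t / ‖π (x (φ n))‖)
        rw [le_div_iff₀ hp] at this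
        exact this
    refine hH.mem_of_tendsto (h1.smul hl) (Eventually.of_forall fun n => ?_)
    have hp : ‖π (x (φ n))‖ ≠ 0 := norm_ne_zero_iff.2 (hb0 _)
    simp only [Function.comp_apply, smul_smul, mul_inv_cancel_right₀ hp, Int.cast_smul_eq_zsmul]
    exact H.zsmul_mem (hbH _) _
  have : β = 0 := (Submodule.disjoint_def.1 hW.disjoint) β hβh hβW
  simp [this] at hβ1

/-- a polynomial with continuous coefficients and roots going to infinity -/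
theorem coeff_van {V : Type} [TopologicalSpace V] (A : Set V) (n : ℕ) (c : ℕ → V → ℂ)
    (hc : ∀ i, Continuous (c i))
    (h : ∀ z ∈ A, ∃ (y : ℕ → V) (t : ℕ → ℂ), (∀ ν, y ν ∈ A) ∧ Tendsto y atTop (𝓝 z) ∧
      Tendsto (fun ν => (t ν)⁻¹) atTop (𝓝 0) ∧ (∀ ν, t ν ≠ 0) ∧
      ∀ ν, ∑ j ∈ Finset.range n, c j (y ν) * t ν ^ j = 0) :
    ∀ i < n, ∀ z ∈ A, c i z = 0 := by
  suffices H : ∀ m i, n ≤ i + m → i < n → ∀ z ∈ A, c i z = 0 from
    fun i hi => H n i (by omega) hi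
  intro m
  induction m with
  | zero => intro i h1 h2; omega
  | succ m ih =>
    intro i h1 h2 z hz
    obtain ⟨y, t, hy, hl, ht, ht0, hs⟩ := h z hz
    have key : Tendsto (fun ν => ∑ j ∈ Finset.range n, c j (y ν) * t ν ^ j * (t ν)⁻¹ ^ i) atTop
        (𝓝 (∑ j ∈ Finset.range n, if j = i then c i z else 0)) := by
      refine tendsto_finsetSum _ fun j hj => ?_
      rcases lt_trichotomy j i with hji | rfl | hji
      · rw [if_neg hji.ne]
        obtain ⟨d, rfl⟩ := Nat.exists_eq_add_of_lt hji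
        have h3 := (((hc j).tendsto z).comp hl).mul (ht.pow (d + 1))
        simp only [ne_eq, Nat.add_eq_zero_iff, one_ne_zero, and_false, not_false_eq_true,
          zero_pow, mul_zero] at h3
        refine h3.congr fun ν => ?_
        have := ht0 ν
        simp only [Function.comp_apply, inv_pow]
        field_simp
        ring
      · rw [if_pos rfl]
        refine (((hc j).tendsto z).comp hl).congr fun ν => ?_
        have := ht0 ν
        simp only [Function.comp_apply, inv_pow]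
        field_simp
      · rw [if_neg hji.ne']
        refine tendsto_const_nhds.congr fun ν => ?_
        rw [ih j (by omega) (Finset.mem_range.1 hj) _ (hy ν)]
        simp
    have h0 : (fun ν => ∑ j ∈ Finset.range n, c j (y ν) * t ν ^ j * (t ν)⁻¹ ^ i) = fun _ => 0 := by
      funext ν
      rw [← Finset.sum_mul, hs, zero_mul]
    rw [h0, Finset.sum_ite_eq' _ i, if_pos (Finset.mem_range.2 h2)] at key
    exact (tendsto_nhds_unique tendsto_const_nhds key).symm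

theorem exists_coeff {V ι : Type} [TopologicalSpace V] (a b : ι → V → ℂ)
    (ha : ∀ j, Continuous (a j)) (hb : ∀ j, Continuous (b j)) (P : MvPolynomial ι ℂ) :
    ∃ (n : ℕ) (c : ℕ → V → ℂ), (∀ i, Continuous (c i)) ∧
      ∀ z t, eval (fun j => a j z + t * b j z) P = ∑ j ∈ Finset.range n, c j z * t ^ j := by
  obtain ⟨Q, hQ⟩ : ∃ Q : Polynomial C(V, ℂ), ∀ z t,
      eval (fun j => a j z + t * b j z) P = Q.eval (ContinuousMap.const V t) z := by
    induction P using MvPolynomial.induction_on with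
    | C r => exact ⟨Polynomial.C (ContinuousMap.const V r), fun z t => by simp⟩
    | add p q hp hq =>
      obtain ⟨Q, hQ⟩ := hp
      obtain ⟨Q', hQ'⟩ := hq
      exact ⟨Q + Q', fun z t => by simp [hQ, hQ']⟩
    | mul_X p i hp =>
      obtain ⟨Q, hQ⟩ := hp
      exact ⟨Q * (Polynomial.C ⟨a i, ha i⟩ + Polynomial.X * Polynomial.C ⟨b i, hb i⟩),
        fun z t => by rw [map_mul, hQ]; simp [mul_comm t]⟩
  refine ⟨Q.natDegree + 1, fun i => Q.coeff i, fun i => (Q.coeff i).continuous, fun z t => ?_⟩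
  rw [hQ, Polynomial.eval_eq_sum_range]
  simp

/-- recurrence on a torus -/
theorem recur {E κ : Type} [NormedAddCommGroup E] [NormedSpace ℝ E] [Fintype κ]
    (b : Module.Basis κ ℝ E) (w : E) : ∃ (j : ℕ → ℕ) (l : ℕ → E), Tendsto j atTop atTop ∧
      (∀ ν, l ν ∈ AddSubgroup.closure (Set.range b)) ∧
      Tendsto (fun ν => j ν • w - l ν) atTop (𝓝 0) := by
  have : FiniteDimensional ℝ E := Module.Finite.of_basis b
  obtain ⟨a, -, φ, hφ, hl⟩ := tendsto_subseq_of_bounded (ZSpan.fundamentalDomain_isBounded b)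
    (x := fun n : ℕ => ZSpan.fract b (n • w)) fun n => ZSpan.fract_mem_fundamentalDomain b _
  have hge : ∀ ν, φ ν + ν ≤ φ (ν + ν) := fun ν => by
    have := hφ.add_le_nat ν ν
    omega
  have hm : ∀ x : E, (ZSpan.floor b x : E) ∈ AddSubgroup.closure (Set.range b) := fun x => by
    rw [← Submodule.span_int_eq_addSubgroupClosure]
    exact (ZSpan.floor b x).2
  refine ⟨fun ν => φ (ν + ν) - φ ν,
    fun ν => ZSpan.floor b (φ (ν + ν) • w) - ZSpan.floor b (φ ν • w), ?_,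
    fun ν => AddSubgroup.sub_mem _ (hm _) (hm _), ?_⟩
  · exact tendsto_atTop_mono (fun ν => by have := hge ν; simp only [id]; omega) tendsto_id
  · have h2 : Tendsto (fun ν : ℕ => ν + ν) atTop atTop :=
      tendsto_atTop_mono (fun ν => by simp) tendsto_id
    have h3 := (hl.comp h2).sub hl
    rw [sub_self] at h3
    refine h3.congr fun ν => ?_
    have h4 : φ (ν + ν) • w = (φ (ν + ν) - φ ν) • w + φ ν • w := by
      rw [← add_nsmul, Nat.sub_add_cancel (by have := hge ν; omega)]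
    simp only [Function.comp_apply, ZSpan.fract_apply]
    rw [eq_sub_of_add_eq h4.symm]
    abel

section
variable {g N e : ℕ} {Θ : Fin (N + 1) → (Fin g → ℂ) → ℂ} {Λ : AddSubgroup (Fin g → ℂ)}
  {η : (Fin g → ℂ) → (Fin g → ℂ) →ₗ[ℂ] ℂ} {ℓ : Fin e → Fin g → ℂ}

theorem an_der (hT : IsTheta Θ Λ η) (i : Fin (N + 1)) (y z : Fin g → ℂ) :
    AnalyticAt ℂ (fun z => fderiv ℂ (Θ i) z y) z :=
  ((ContinuousLinearMap.apply ℂ ℂ y).analyticAt _).comp (hT.hol i z).fderiv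

theorem an_xt (hT : IsTheta Θ Λ η) (j : Fin (N + 1) ⊕ Fin e × Fin (N + 1)) (p : GE g e) :
    AnalyticAt ℂ (xt Θ ℓ j) p := by
  rcases j with i | ⟨k, i⟩
  · exact (hT.hol i _).comp analyticAt_fst
  · refine ((an_der hT i (ℓ k) _).comp analyticAt_fst).add
      (AnalyticAt.mul ?_ ((hT.hol i _).comp analyticAt_fst))
    exact ((ContinuousLinearMap.proj (R := ℂ) (φ := fun _ => ℂ) k).analyticAt _).comp
      analyticAt_snd

theorem xt_lat (hT : IsTheta Θ Λ η) {l : Fin g → ℂ} (hl : l ∈ Λ) :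
    ∃ a : ℂ, ∀ j, xt Θ ℓ j (l, fun k => -η l (ℓ k)) = a * xt Θ ℓ j 0 := by
  obtain ⟨c, hc⟩ := hT.quasi l hl
  have h0 : ∀ i, Θ i l = Complex.exp c * Θ i 0 := fun i => by simpa using hc i 0
  refine ⟨Complex.exp c, fun j => ?_⟩
  rcases j with i | ⟨k, i⟩
  · exact h0 i
  · have h1 : HasFDerivAt (fun z => Θ i (z + l)) (fderiv ℂ (Θ i) l) 0 := by
      have h2 : HasFDerivAt (Θ i) (fderiv ℂ (Θ i) l) (0 + l) := by
        rw [zero_add]; exact (hT.hol i l).differentiableAt.hasFDerivAt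
      exact (hasFDerivAt_comp_add_right l).2 h2
    have h3 := (((η l).toContinuousLinearMap.hasFDerivAt (x := 0)).add_const c).cexp.mul
      (hT.hol i 0).differentiableAt.hasFDerivAt
    have h4 : (fun z => Θ i (z + l)) =
        (fun z => Complex.exp ((η l).toContinuousLinearMap z + c)) * Θ i := funext fun z => hc i z
    rw [h4] at h1
    have h5 := congrArg (fun D => D (ℓ k)) (h1.unique h3)
    simp only [map_zero, zero_add, add_apply, smul_apply,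
      LinearMap.coe_toContinuousLinearMap', smul_eq_mul] at h5
    simp only [xt, h5, h0, Prod.fst_zero, Prod.snd_zero, Pi.zero_apply]
    ring

end

end Sb

open Sb in
theorem sub : SubStmt := by
  intro g N Θ Λ η u L hT hW e ℓ H hH
  obtain ⟨S, hS, hz⟩ := hH
  have han : ∀ (P : MvPolynomial _ ℂ) (p : GE g e),
      AnalyticAt ℂ (fun p => eval (fun j => xt Θ ℓ j p) P) p := fun P p =>
    CMP.analyticAt_eval (h := fun p j => xt Θ ℓ j p) (fun j => an_xt hT j p) P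
  have hcl : IsClosed (H : Set (GE g e)) := by
    have : (H : Set (GE g e)) = ⋂ P ∈ S, {p | eval (fun j => xt Θ ℓ j p) P = 0} := by
      ext p; simpa using hz p
    rw [this]
    exact isClosed_biInter fun P _ => isClosed_eq
      (continuous_iff_continuousAt.2 fun p => (han P p).continuousAt) continuous_const
  have hcx : ∀ p : GE g e, (∀ t : ℝ, t • p ∈ H) → ∀ τ : ℂ, τ • p ∈ H := by
    intro p hp τ
    refine (hz _).2 fun P hP => ?_
    have h1 : AnalyticOnNhd ℂ (fun τ : ℂ => eval (fun j => xt Θ ℓ j (τ • p)) P) Set.univ :=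
      fun τ _ => (han P _).comp (f := fun τ : ℂ => τ • p) (analyticAt_id.smul analyticAt_const)
    have h2 : ∃ᶠ τ in 𝓝[≠] (0 : ℂ), eval (fun j => xt Θ ℓ j (τ • p)) P = 0 := by
      have h3 : Tendsto (fun t : ℝ => (t : ℂ)) (𝓝[≠] 0) (𝓝[≠] 0) := by
        refine tendsto_nhdsWithin_iff.2 ⟨?_, ?_⟩
        · simpa using (Complex.continuous_ofReal.tendsto 0).mono_left nhdsWithin_le_nhds
        · filter_upwards [self_mem_nhdsWithin] with t ht
          simpa using ht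
      refine h3.frequently (Frequently.of_forall fun t => ?_)
      rw [Complex.coe_smul]
      exact (hz _).1 (hp t) P hP
    exact h1.eqOn_zero_of_preconnected_of_frequently_eq_zero isPreconnected_univ
      (Set.mem_univ 0) h2 (Set.mem_univ τ)
  let T : (Fin g → ℂ) →ₗ[ℝ] GE g e :=
    { toFun := fun w => (w, fun k => -L w (ℓ k))
      map_add' := fun w w' => by ext k <;> simp [add_comm]
      map_smul' := fun t w => by ext k <;> simp }
  have hTc : Continuous T := T.continuous_of_finiteDimensional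
  have hlat : ∀ l ∈ Λ, T l ∈ H := by
    intro l hl
    obtain ⟨a, ha⟩ := xt_lat (ℓ := ℓ) hT hl
    refine (hz _).2 fun P hP => ?_
    obtain ⟨n, hn⟩ := hS P hP
    have h1 : (fun j => xt Θ ℓ j (T l)) = fun j => a * xt Θ ℓ j 0 := by
      funext j
      rw [← ha j, ← hW.ext l hl]
      rfl
    rw [h1, CMP.eval_smul_homog hn, (hz 0).1 H.zero_mem P hP, mul_zero]
  have hrec : ∀ p ∈ H, T p.1 ∈ H := by
    intro p hp
    set q : GE g e := p - T p.1 with hq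
    have hq1 : q.1 = 0 := sub_self _
    suffices h : q ∈ H by
      have := H.sub_mem hp h
      rwa [hq, sub_sub_cancel] at this
    obtain ⟨b, hb⟩ := hT.lat
    obtain ⟨j, l, hj, hl, hjl⟩ := recur b p.1
    refine (hz _).2 fun P hP => ?_
    have hΘ : ∀ i, Continuous (Θ i) := fun i =>
      continuous_iff_continuousAt.2 fun z => (hT.hol i z).continuousAt
    obtain ⟨n, c, hc, hev⟩ := exists_coeff (fun i z => xt Θ ℓ i (T z))
      (Sum.elim (fun _ _ => 0) fun k z => q.2 k.1 * Θ k.2 z)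
      (fun i => (continuous_iff_continuousAt.2 fun z => (an_xt hT i z).continuousAt).comp hTc)
      (by rintro (i | k); exacts [continuous_const, continuous_const.mul (hΘ _)]) P
    have hev' : ∀ z (t : ℂ), eval (fun i => xt Θ ℓ i (T z + t • q)) P =
        ∑ j ∈ Finset.range n, c j z * t ^ j := by
      intro z t
      rw [← hev]
      congr 2
      funext i
      rcases i with i | k
      · simp [xt, hq1, T]
      · simp only [xt, hq1, T, Prod.fst_add, Prod.smul_fst, smul_zero, add_zero, Prod.snd_add,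
          Prod.smul_snd, Pi.add_apply, Pi.smul_apply, smul_eq_mul, Sum.elim_inr,
          LinearMap.coe_mk, AddHom.coe_mk]
        ring
    have hv := coeff_van {z | ∃ m : ℕ, T z + (m : ℂ) • q ∈ H} n c hc (by
      rintro z ⟨m, hm⟩
      have hy : ∀ ν, T (z + (j ν • p.1 - l ν)) + ((m + j ν : ℕ) : ℂ) • q ∈ H := fun ν => by
        have h1 := H.sub_mem (H.add_mem hm (H.nsmul_mem hp (j ν))) (hlat _ (hb ▸ hl ν))
        convert h1 using 1
        rw [map_add, map_sub, map_nsmul, Nat.cast_add, add_smul, Nat.cast_smul_eq_nsmul ℂ (j ν),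
          hq, smul_sub (j ν)]
        abel
      obtain ⟨ν₀, hν₀⟩ := eventually_atTop.1 (hj.eventually_ge_atTop 1)
      have hsh := tendsto_add_atTop_nat ν₀
      refine ⟨fun ν => z + (j (ν + ν₀) • p.1 - l (ν + ν₀)), fun ν => ((m + j (ν + ν₀) : ℕ) : ℂ),
        fun ν => ⟨_, hy _⟩, ?_, ?_, fun ν => ?_, fun ν => ?_⟩
      · simpa using tendsto_const_nhds.add (hjl.comp hsh)
      · exact (tendsto_inv_atTop_nhds_zero_nat (𝕜 := ℂ)).comp
          (tendsto_atTop_mono (fun ν => by simp) (hj.comp hsh))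
      · have := hν₀ (ν + ν₀) (by omega)
        exact Nat.cast_ne_zero.2 (by omega)
      · rw [← hev']
        exact (hz _).1 (hy _) P hP)
    have h1 := hev' 0 1
    rw [map_zero, zero_add, one_smul] at h1
    rw [h1]
    exact Finset.sum_eq_zero fun i hi => by
      rw [hv i (Finset.mem_range.1 hi) 0 ⟨0, by simp⟩, zero_mul]
  let 𝔥 : Submodule ℂ (GE g e) :=
    { carrier := {p | ∀ τ : ℂ, τ • p ∈ H}
      add_mem' := fun ha hb t => by rw [smul_add]; exact H.add_mem (ha t) (hb t)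
      zero_mem' := fun t => by simp
      smul_mem' := fun c x hx t => by rw [smul_smul]; exact hx _ }
  have h1 : ∀ p ∈ 𝔥, p ∈ H := fun p hp => by simpa using hp 1
  have h2 : ∀ᶠ p in 𝓝 0, p ∈ H → p ∈ 𝔥 :=
    (csg H hcl).mono fun p hp hp' => hcx p (hp hp')
  have h4 : ∀ w ∈ 𝔥.map (LinearMap.fst ℂ _ _), T w ∈ 𝔥 := by
    rintro _ ⟨p, hp, rfl⟩
    refine hcx _ fun t => ?_
    rw [← map_smul]
    exact hrec (t • p) (by rw [← Complex.coe_smul]; exact hp _)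
  refine ⟨𝔥, h1, h2, ?_, h4⟩
  have h5 : ∀ᶠ w in 𝓝 0, T w ∈ H → T w ∈ 𝔥 := (hTc.tendsto' 0 0 (map_zero T)).eventually h2
  obtain ⟨ε, hε, h6⟩ := Metric.eventually_nhds_iff.1 h5
  refine ⟨ε, hε, fun l hl x hx hlx => ?_⟩
  have h7 : T (l - x) ∈ 𝔥 := h6 (by simpa using hlx) (by
    rw [map_sub]; exact H.sub_mem (hlat l hl) (h1 _ (h4 x hx)))
  have h8 : l - x ∈ 𝔥.map (LinearMap.fst ℂ _ _) := ⟨_, h7, rfl⟩
  simpa using Submodule.add_mem _ h8 hx

end Pool.Agent.CMQ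

end MrgPart0

-- ======== part 1: formerly Pool.Agent.MP_cbf1af_ag.shp.Graph
section MrgPart1

/-! Complete reducibility, splitting of subtori of a product, and the obstruction test for the
graph of a linear isomorphism. -/

namespace Pool.Agent.CMQ

open Filter Topology Module Complex

noncomputable section

namespace Gr

variable {n N : ℕ} {Θ : Fin (N + 1) → (Fin n → ℂ) → ℂ} {Λ : AddSubgroup (Fin n → ℂ)}
  {η : (Fin n → ℂ) → (Fin n → ℂ) →ₗ[ℂ] ℂ} {u : (Fin n → ℂ) → ℝ}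
  {L : (Fin n → ℂ) →ₗ[ℝ] (Fin n → ℂ) →ₗ[ℂ] ℂ}

/-- twice the hermitian form -/
def hf (L : (Fin n → ℂ) →ₗ[ℝ] (Fin n → ℂ) →ₗ[ℂ] ℂ) : (Fin n → ℂ) →ₗ[ℝ] (Fin n → ℂ) →ₗ[ℂ] ℂ :=
  L + I • L ∘ₗ (LinearMap.lsmul ℂ (Fin n → ℂ) I).restrictScalars ℝ

theorem hf_apply (x y : Fin n → ℂ) : hf L x y = L x y + I * L (I • x) y := rfl

theorem hf_I (x y : Fin n → ℂ) : hf L (I • x) y = -I * hf L x y := by
  rw [hf_apply, hf_apply, smul_smul, I_mul_I, neg_smul, one_smul, map_neg, LinearMap.neg_apply]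
  linear_combination L (I • x) y * I_mul_I

theorem hf_im (hw : Wt Θ Λ η u L) (x y : Fin n → ℂ) : (hf L x y).im = (L x y - L y x).im := by
  have := hw.symm y (I • x)
  rw [map_smul] at this
  simp only [smul_eq_mul, mul_re, I_re, I_im] at this
  simp only [hf_apply, add_im, mul_im, I_re, I_im, sub_im]
  linarith

theorem hf_self (hw : Wt Θ Λ η u L) {y : Fin n → ℂ} (h : hf L y y = 0) : y = 0 := by
  by_contra hy
  have := hw.pos y hy
  rw [← hf_apply, h] at this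
  simp at this

theorem span_lat (h : IsTheta Θ Λ η) {𝔞 : Submodule ℂ (Fin n → ℂ)} (hd : Disc Λ 𝔞) {x : Fin n → ℂ}
    (hx : x ∈ 𝔞) : x ∈ Submodule.span ℝ {l | l ∈ Λ ∧ l ∈ 𝔞} := by
  obtain ⟨b, rfl⟩ := h.lat
  obtain ⟨ε, hε, hd⟩ := hd
  obtain ⟨j, l, hj, hl, ht⟩ := Sb.recur b x
  have h1 : Tendsto (fun ν => ((j ν : ℝ))⁻¹ • l ν) atTop (𝓝 x) := by
    have h2 := (tendsto_inv_atTop_zero.comp (tendsto_natCast_atTop_atTop (R := ℝ).comp hj)).smul ht
    have h3 := (tendsto_const_nhds (x := x)).sub h2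
    rw [smul_zero, sub_zero] at h3
    refine h3.congr' ?_
    filter_upwards [hj.eventually_ne_atTop 0] with ν hν
    have : (j ν : ℝ) ≠ 0 := Nat.cast_ne_zero.2 hν
    simp only [Function.comp_apply, smul_sub, ← Nat.cast_smul_eq_nsmul ℝ, smul_smul,
      inv_mul_cancel₀ this, one_smul, sub_sub_cancel]
  refine (Submodule.closed_of_finiteDimensional _).mem_of_tendsto h1 ?_
  filter_upwards [ht.norm.eventually (gt_mem_nhds (by simpa using hε))] with ν hν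
  exact Submodule.smul_mem _ _ (Submodule.subset_span
    ⟨hl ν, hd _ (hl ν) _ (𝔞.toAddSubgroup.nsmul_mem hx (j ν)) (by rwa [norm_sub_rev])⟩)

/-- complete reducibility -/
theorem poincare (h : IsTheta Θ Λ η) (hw : Wt Θ Λ η u L) {𝔞 : Submodule ℂ (Fin n → ℂ)}
    (hd : Disc Λ 𝔞) : ∃ (m : ℤ) (e : (Fin n → ℂ) →ₗ[ℂ] Fin n → ℂ), m ≠ 0 ∧ (∀ x, e x ∈ 𝔞) ∧
      (∀ x, ∀ a ∈ 𝔞, hf L a (x - e x) = 0) ∧ ∀ l ∈ Λ, (m : ℂ) • e l ∈ Λ := by
  classical
  obtain ⟨s, hs, hsp, hli⟩ := exists_linearIndependent ℝ {l | l ∈ Λ ∧ l ∈ 𝔞}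
  have := hli.finite
  have := Fintype.ofFinite s
  have perp : ∀ y, (∀ j : s, (hf L j y).im = 0) → ∀ a ∈ 𝔞, hf L a y = 0 := by
    intro y hy
    have h1 : ∀ a ∈ 𝔞, (hf L a y).im = 0 := fun a ha => by
      have h2 := span_lat h hd ha
      rw [← hsp] at h2
      clear ha
      induction h2 using Submodule.span_induction with
      | mem x hx => exact hy ⟨x, hx⟩
      | zero => simp
      | add x y _ _ hx hy => simp [hx, hy]
      | smul c x _ hx => simp [hx]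
    intro a ha
    have h2 := h1 _ (𝔞.smul_mem I ha)
    rw [hf_I] at h2
    exact Complex.ext (by simpa using h2) (h1 a ha)
  have hint : ∀ l ∈ Λ, ∀ j : s, ∃ k : ℤ, (hf L j l).im = k * (2 * Real.pi) := fun l hl j => by
    obtain ⟨k, hk⟩ := hw.riem j (hs j.2).1 l hl
    exact ⟨k, by rw [hf_im hw, hk]; simp⟩
  choose M hM using fun j i : s => hint i (hs i.2).1 j
  let A : Matrix s s ℝ := (Int.castRingHom ℝ).mapMatrix (Matrix.of M)
  have hA : ∀ (t : s → ℝ) (j : s), (hf L j (∑ i, t i • (i : Fin n → ℂ))).im =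
      A.mulVec t j * (2 * Real.pi) := fun t j => by
    simp only [map_sum, LinearMap.map_smul_of_tower, im_sum, smul_im, hM, smul_eq_mul, A,
      Matrix.mulVec, dotProduct, Finset.sum_mul]
    exact Finset.sum_congr rfl fun i _ => by simp; ring
  have hmem : ∀ t : s → ℝ, ∑ i, t i • (i : Fin n → ℂ) ∈ 𝔞 := fun t =>
    𝔞.sum_mem fun i _ => 𝔞.smul_of_tower_mem _ (hs i.2).2
  have hdet : A.det ≠ 0 := fun h0 => by
    obtain ⟨t, ht, ht'⟩ := Matrix.exists_mulVec_eq_zero_iff.2 h0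
    exact ht (funext (Fintype.linearIndependent_iff.1 hli t (hf_self hw
      (perp _ (fun j => by rw [hA, ht']; simp) _ (hmem t)))))
  have hpi : 2 * Real.pi ≠ 0 := by positivity
  let 𝔟 : Submodule ℂ (Fin n → ℂ) := ⨅ a : 𝔞, LinearMap.ker (hf L a)
  have hb : ∀ y, y ∈ 𝔟 ↔ ∀ a ∈ 𝔞, hf L a y = 0 := fun y => by simp [𝔟]
  have hsol : ∀ (x : Fin n → ℂ) (c : s → ℝ), (∀ j : s, (hf L j x).im = c j * (2 * Real.pi)) →
      x - ∑ i, (A.det⁻¹ • A.adjugate.mulVec c) i • (i : Fin n → ℂ) ∈ 𝔟 := fun x c hc =>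
    (hb _).2 (perp _ fun j => by
      rw [map_sub, sub_im, hA, hc, Matrix.mulVec_smul, Matrix.mulVec_mulVec, Matrix.mul_adjugate,
        Matrix.smul_mulVec, Matrix.one_mulVec, smul_smul, inv_mul_cancel₀ hdet, one_smul, sub_self])
  have hc : IsCompl 𝔞 𝔟 := by
    refine ⟨Submodule.disjoint_def.2 fun y h1 h2 => hf_self hw ((hb y).1 h2 y h1),
      codisjoint_iff.2 (eq_top_iff.2 fun x _ => Submodule.mem_sup.2 ⟨_, hmem _, _,
        hsol x (fun j => (hf L j x).im / (2 * Real.pi)) fun j => ?_, add_sub_cancel _ _⟩)⟩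
    rw [div_mul_cancel₀ _ hpi]
  have hAd : A.det = ((Matrix.of M).det : ℤ) := ((Int.castRingHom ℝ).map_det _).symm
  refine ⟨(Matrix.of M).det, 𝔞.projection 𝔟 hc, fun h0 => hdet (by rw [hAd, h0, Int.cast_zero]),
    Submodule.projection_apply_mem hc, fun x => (hb _).1 (Submodule.sub_projection_mem hc x),
    fun l hl => ?_⟩
  choose c hc' using hint l hl
  have h1 := (Submodule.projection_apply_eq_zero_iff hc).2 (hsol l (fun j => c j) hc')
  rw [map_sub, sub_eq_zero, Submodule.projection_apply_left hc ⟨_, hmem _⟩] at h1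
  rw [h1, Finset.smul_sum]
  refine Λ.sum_mem fun i _ => ?_
  have h2 : (((Matrix.of M).det : ℤ) : ℂ) • ((A.det⁻¹ • A.adjugate.mulVec fun j => c j) i •
      (i : Fin n → ℂ)) = (Matrix.of M).adjugate.mulVec c i • (i : Fin n → ℂ) := by
    rw [← ofReal_intCast, ← hAd, coe_smul, smul_smul, Pi.smul_apply, smul_eq_mul,
      mul_inv_cancel_left₀ hdet, ← Int.cast_smul_eq_zsmul ℝ, ← RingHom.map_adjugate]
    congr 1
    exact ((Int.castRingHom ℝ).map_mulVec _ c i).symm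
  rw [h2]
  exact Λ.zsmul_mem (hs i.2).1 _

variable {g₁ g₂ : ℕ}

/-- restriction to the first block -/
def p₁ (g₁ g₂ : ℕ) : (Fin (g₁ + g₂) → ℂ) →ₗ[ℂ] Fin g₁ → ℂ := LinearMap.funLeft ℂ ℂ (Fin.castAdd g₂)

/-- restriction to the second block -/
def p₂ (g₁ g₂ : ℕ) : (Fin (g₁ + g₂) → ℂ) →ₗ[ℂ] Fin g₂ → ℂ := LinearMap.funLeft ℂ ℂ (Fin.natAdd g₁)

/-- concatenation -/
def app (g₁ g₂ : ℕ) : ((Fin g₁ → ℂ) × (Fin g₂ → ℂ)) →ₗ[ℂ] Fin (g₁ + g₂) → ℂ where
  toFun p := Fin.append p.1 p.2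
  map_add' p q := funext fun i => Fin.addCases (fun j => by simp) (fun j => by simp) i
  map_smul' c p := funext fun i => Fin.addCases (fun j => by simp) (fun j => by simp) i

@[simp] theorem p₁_app (p : (Fin g₁ → ℂ) × (Fin g₂ → ℂ)) : p₁ g₁ g₂ (app g₁ g₂ p) = p.1 :=
  funext fun j => Fin.append_left _ _ j

@[simp] theorem p₂_app (p : (Fin g₁ → ℂ) × (Fin g₂ → ℂ)) : p₂ g₁ g₂ (app g₁ g₂ p) = p.2 :=
  funext fun j => Fin.append_right _ _ j

theorem app_p (z : Fin (g₁ + g₂) → ℂ) : app g₁ g₂ (p₁ g₁ g₂ z, p₂ g₁ g₂ z) = z :=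
  Fin.append_castAdd_natAdd

theorem app_add (x : Fin g₁ → ℂ) (y : Fin g₂ → ℂ) :
    app g₁ g₂ (x, 0) + app g₁ g₂ (0, y) = app g₁ g₂ (x, y) := by
  rw [← map_add, Prod.mk_add_mk, add_zero, zero_add]

theorem app_dot (p q : (Fin g₁ → ℂ) × (Fin g₂ → ℂ)) :
    app g₁ g₂ p ⬝ᵥ app g₁ g₂ q = p.1 ⬝ᵥ q.1 + p.2 ⬝ᵥ q.2 := by
  simp [dotProduct, Fin.sum_univ_add, app]

/-- the data of a product -/
structure IsProd (Λ₁ : AddSubgroup (Fin g₁ → ℂ)) (Λ₂ : AddSubgroup (Fin g₂ → ℂ))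
    (Λ : AddSubgroup (Fin (g₁ + g₂) → ℂ))
    (L : (Fin (g₁ + g₂) → ℂ) →ₗ[ℝ] (Fin (g₁ + g₂) → ℂ) →ₗ[ℂ] ℂ) : Prop where
  lat : ∀ z, z ∈ Λ ↔ p₁ g₁ g₂ z ∈ Λ₁ ∧ p₂ g₁ g₂ z ∈ Λ₂
  b₁ : ∀ x y, L (app g₁ g₂ (0, x)) (app g₁ g₂ (y, 0)) = 0
  b₂ : ∀ x y, L (app g₁ g₂ (x, 0)) (app g₁ g₂ (0, y)) = 0

variable {Θ : Fin (N + 1) → (Fin (g₁ + g₂) → ℂ) → ℂ} {Λ : AddSubgroup (Fin (g₁ + g₂) → ℂ)}
  {η : (Fin (g₁ + g₂) → ℂ) → (Fin (g₁ + g₂) → ℂ) →ₗ[ℂ] ℂ} {u : (Fin (g₁ + g₂) → ℂ) → ℝ}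
  {L : (Fin (g₁ + g₂) → ℂ) →ₗ[ℝ] (Fin (g₁ + g₂) → ℂ) →ₗ[ℂ] ℂ}
  {Λ₁ : AddSubgroup (Fin g₁ → ℂ)} {Λ₂ : AddSubgroup (Fin g₂ → ℂ)}

theorem isProd (h : IsTheta Θ Λ η) (hw : Wt Θ Λ η u L)
    {η₁ : (Fin g₁ → ℂ) → (Fin g₁ → ℂ) →ₗ[ℂ] ℂ} {η₂ : (Fin g₂ → ℂ) → (Fin g₂ → ℂ) →ₗ[ℂ] ℂ}
    (hΛ : ∀ z, z ∈ Λ ↔ p₁ g₁ g₂ z ∈ Λ₁ ∧ p₂ g₁ g₂ z ∈ Λ₂)
    (hη : ∀ l ∈ Λ, ∀ z, η l z =
      η₁ (p₁ g₁ g₂ l) (p₁ g₁ g₂ z) + η₂ (p₂ g₁ g₂ l) (p₂ g₁ g₂ z)) : IsProd Λ₁ Λ₂ Λ L := by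
  have h0 : ∀ y, η₁ 0 y = 0 := fun y => by
    have := hη 0 Λ.zero_mem (app g₁ g₂ (y, 0))
    rw [← hw.ext 0 Λ.zero_mem] at this
    simpa using this.symm
  have h1 : ∀ x y, L (app g₁ g₂ (0, x)) (app g₁ g₂ (y, 0)) = 0 := fun x y => by
    obtain ⟨b, hb⟩ := h.lat
    let φ : (Fin (g₁ + g₂) → ℂ) →ₗ[ℝ] ℂ :=
      ((LinearMap.applyₗ (app g₁ g₂ (y, 0))).restrictScalars ℝ) ∘ₗ L ∘ₗ
        (app g₁ g₂ ∘ₗ LinearMap.inr ℂ _ _ ∘ₗ p₂ g₁ g₂).restrictScalars ℝ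
    have h2 : φ = 0 := b.ext fun i => by
      have h3 : b i ∈ Λ := hb ▸ AddSubgroup.subset_closure ⟨i, rfl⟩
      have h4 : app g₁ g₂ (0, p₂ g₁ g₂ (b i)) ∈ Λ :=
        (hΛ _).2 ⟨by simp, by simpa using ((hΛ _).1 h3).2⟩
      show L (app g₁ g₂ (0, p₂ g₁ g₂ (b i))) (app g₁ g₂ (y, 0)) = 0
      rw [hw.ext _ h4, hη _ h4]
      simp [h0]
    simpa [φ] using LinearMap.congr_fun h2 (app g₁ g₂ (0, x))
  refine ⟨hΛ, h1, fun x y => ?_⟩
  have h2 : ∀ y, (L (app g₁ g₂ (x, 0)) (app g₁ g₂ (0, y))).re = 0 := fun y => by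
    rw [hw.symm, h1, zero_re]
  have h3 := h2 (I • y)
  rw [show ((0, I • y) : (Fin g₁ → ℂ) × (Fin g₂ → ℂ)) = I • (0, y) by simp, map_smul,
    map_smul] at h3
  exact Complex.ext (h2 y) (by simpa using h3)

theorem IsProd.h₁ (hp : IsProd Λ₁ Λ₂ Λ L) (x y) :
    hf L (app g₁ g₂ (0, x)) (app g₁ g₂ (y, 0)) = 0 := by
  rw [hf_apply, ← map_smul, Prod.smul_mk, smul_zero, hp.b₁, hp.b₁, mul_zero, add_zero]

theorem IsProd.h₂ (hp : IsProd Λ₁ Λ₂ Λ L) (x y) :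
    hf L (app g₁ g₂ (x, 0)) (app g₁ g₂ (0, y)) = 0 := by
  rw [hf_apply, ← map_smul, Prod.smul_mk, smul_zero, hp.b₂, hp.b₂, mul_zero, add_zero]

/-- subtori of a product split -/
theorem split (h : IsTheta Θ Λ η) (hw : Wt Θ Λ η u L) (hp : IsProd Λ₁ Λ₂ Λ L)
    (hN : ∀ φ : (Fin g₁ → ℂ) →ₗ[ℂ] Fin g₂ → ℂ, (∀ l ∈ Λ₁, φ l ∈ Λ₂) → φ = 0)
    {𝔞 : Submodule ℂ (Fin (g₁ + g₂) → ℂ)} (hd : Disc Λ 𝔞) {x y} (ha : app g₁ g₂ (x, y) ∈ 𝔞) :
    app g₁ g₂ (x, 0) ∈ 𝔞 ∧ app g₁ g₂ (0, y) ∈ 𝔞 := by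
  obtain ⟨m, e, hm, he, hperp, hl⟩ := poincare h hw hd
  have h1 := hN (p₂ g₁ g₂ ∘ₗ ((m : ℂ) • e) ∘ₗ app g₁ g₂ ∘ₗ LinearMap.inl ℂ _ _) fun l hl' =>
    ((hp.lat _).1 (hl (app g₁ g₂ (l, 0)) ((hp.lat _).2 ⟨by simpa using hl', by simp⟩))).2
  have h2 : p₂ g₁ g₂ (e (app g₁ g₂ (x, 0))) = 0 := by
    simpa [hm] using LinearMap.congr_fun h1 x
  set z := app g₁ g₂ (x, 0) - e (app g₁ g₂ (x, 0)) with hz
  have h3 : app g₁ g₂ (p₁ g₁ g₂ z, 0) = z := by
    rw [← app_p z, p₁_app]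
    simp [hz, h2]
  have h4 : hf L (app g₁ g₂ (x, 0)) z = 0 := by
    have := hperp (app g₁ g₂ (x, 0)) _ ha
    rwa [← hz, ← app_add, map_add, LinearMap.add_apply, ← h3, hp.h₁, add_zero, h3] at this
  have h5 : z = 0 := hf_self hw (by
    nth_rewrite 1 [hz]
    rw [map_sub (hf L), LinearMap.sub_apply, h4, hperp _ _ (he _), sub_zero])
  have h6 : app g₁ g₂ (x, 0) ∈ 𝔞 := sub_eq_zero.1 h5 ▸ he _
  exact ⟨h6, (𝔞.add_mem_iff_right h6).1 (app_add x y ▸ ha)⟩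

theorem count {A B E : Type} [AddCommGroup A] [Module ℝ A] [AddCommGroup B] [Module ℝ B]
    [AddCommGroup E] [Module ℝ E] [Module.Finite ℝ A] [Module.Finite ℝ B] [Module.Finite ℝ E]
    (Ξ : (A × B) →ₗ[ℝ] E) (Ω : (LinearMap.ker Ξ × LinearMap.ker Ξ) →ₗ[ℝ] B × B)
    (hΩ : Function.Injective Ω) : finrank ℝ A ≤ finrank ℝ E := by
  have d1 := LinearMap.finrank_le_finrank_of_injective hΩ
  have d2 := Ξ.finrank_range_add_finrank_ker
  have d3 := (LinearMap.range Ξ).finrank_le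
  rw [finrank_prod, finrank_prod] at d1
  rw [finrank_prod] at d2
  omega

end Gr

open Gr in
/-- the obstruction test for the graph of an isomorphism -/
theorem obs_graph {g N e : ℕ} {Θ : Fin (N + 1) → (Fin (g + g) → ℂ) → ℂ}
    {Λ : AddSubgroup (Fin (g + g) → ℂ)} {η : (Fin (g + g) → ℂ) → (Fin (g + g) → ℂ) →ₗ[ℂ] ℂ}
    {u : (Fin (g + g) → ℂ) → ℝ} {L : (Fin (g + g) → ℂ) →ₗ[ℝ] (Fin (g + g) → ℂ) →ₗ[ℂ] ℂ}
    (h : IsTheta Θ Λ η) (hw : Wt Θ Λ η u L) {Λ₁ Λ₂ : AddSubgroup (Fin g → ℂ)}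
    {η₁ η₂ : (Fin g → ℂ) → (Fin g → ℂ) →ₗ[ℂ] ℂ}
    (hΛ : ∀ z, z ∈ Λ ↔ (fun i => z (Fin.castAdd g i)) ∈ Λ₁ ∧ (fun i => z (Fin.natAdd g i)) ∈ Λ₂)
    (hη : ∀ l ∈ Λ, ∀ z, η l z =
      η₁ (fun i => l (Fin.castAdd g i)) (fun i => z (Fin.castAdd g i)) +
        η₂ (fun i => l (Fin.natAdd g i)) fun i => z (Fin.natAdd g i))
    (hN : ∀ φ : (Fin g → ℂ) →ₗ[ℂ] Fin g → ℂ, (∀ l ∈ Λ₁, φ l ∈ Λ₂) → φ = 0)
    (Γ : ((Fin g → ℂ) × (Fin g → ℂ)) →ₗ[ℂ] (Fin g → ℂ) × (Fin g → ℂ))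
    (hΓ : Function.Injective Γ) {ℓ : Fin e → Fin (g + g) → ℂ} (hℓ : LinearIndependent ℂ ℓ)
    {W : Submodule ℂ (GE (g + g) e)}
    (hW : ∀ p : (Fin g → ℂ) × (Fin g → ℂ),
      (Fin.append p.1 (Γ p).1, fun k => -(Fin.append p.2 (Γ p).2 ⬝ᵥ ℓ k)) ∈ W) :
    SHP.Semi Λ L ℓ W := by
  have hp : IsProd Λ₁ Λ₂ Λ L := isProd h hw hΛ hη
  intro 𝔥 hne hd hL
  set 𝔞 := 𝔥.map (LinearMap.fst ℂ _ _) with h𝔞
  let lam : ((Fin (g + g) → ℂ) →ₗ[ℂ] ℂ) →ₗ[ℂ] Fin e → ℂ :=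
    LinearMap.pi fun k => -LinearMap.applyₗ (ℓ k)
  have hlam : Function.Surjective lam := fun v => by
    obtain ⟨f, hf⟩ := LinearMap.exists_extend ((Basis.span hℓ).constr ℂ (-v))
    refine ⟨f, funext fun k => ?_⟩
    have := LinearMap.congr_fun hf (Basis.span hℓ k)
    simp only [LinearMap.comp_apply, Submodule.subtype_apply, Basis.constr_basis,
      Basis.coe_span_apply, Pi.neg_apply] at this
    simp [lam, this]
  let z : ((Fin g → ℂ) × (Fin g → ℂ)) →ₗ[ℂ] Fin (g + g) → ℂ :=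
    app g g ∘ₗ (LinearMap.fst ℂ _ _).prod (LinearMap.fst ℂ _ _ ∘ₗ Γ)
  let w : ((Fin g → ℂ) × (Fin g → ℂ)) →ₗ[ℂ] (Fin (g + g) → ℂ) →ₗ[ℂ] ℂ :=
    dotProductBilin ℂ ℂ ∘ₗ app g g ∘ₗ (LinearMap.snd ℂ _ _).prod (LinearMap.snd ℂ _ _ ∘ₗ Γ)
  let Φ := 𝔥.mkQ ∘ₗ z.prod (lam ∘ₗ w)
  let K := LinearMap.ker Φ
  let 𝔳 := 𝔥.comap (LinearMap.inr ℂ _ _)
  let Y := 𝔳.comap lam
  have hK : ∀ p ∈ K, (z p, lam (w p)) ∈ 𝔥 := fun p hp => (Submodule.Quotient.mk_eq_zero _).1 hp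
  have hKa : ∀ p ∈ K, z p ∈ 𝔞 := fun p hp => ⟨_, hK p hp, rfl⟩
  have hY₁ : ∀ p ∈ K, w p - L (z p) ∈ Y := fun p hp => by
    have := 𝔥.sub_mem (hK p hp) (hL _ (hKa p hp))
    rw [Prod.mk_sub_mk, sub_self] at this
    show (0, lam _) ∈ 𝔥
    rw [map_sub]
    exact this
  have hY₂ : ∀ x ∈ 𝔞, hf L x ∈ Y := fun x hx => by
    have := 𝔥.add_mem (hL x hx) (𝔥.smul_mem I (hL _ (𝔞.smul_mem I hx)))
    rw [Prod.smul_mk, Prod.mk_add_mk, smul_smul, I_mul_I, neg_smul, one_smul,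
      add_neg_cancel] at this
    show (0, lam _) ∈ 𝔥
    convert this using 2
    funext k
    simp [lam, hf_apply, add_comm]
  let Ξ : (K × 𝔞) →ₗ[ℝ] Y := LinearMap.codRestrict (Y.restrictScalars ℝ)
    ((w.restrictScalars ℝ - L ∘ₗ z.restrictScalars ℝ) ∘ₗ K.subtype.restrictScalars ℝ ∘ₗ
      LinearMap.fst ℝ _ _ - hf L ∘ₗ 𝔞.subtype.restrictScalars ℝ ∘ₗ LinearMap.snd ℝ _ _)
    fun c => Y.sub_mem (hY₁ _ c.1.2) (hY₂ _ c.2.2)
  have hΞ : ∀ c ∈ LinearMap.ker Ξ, ∀ y, w c.1 y = L (z c.1) y + hf L c.2 y := fun c hc y => by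
    have : w c.1 - L (z c.1) - hf L c.2 = 0 := congrArg Subtype.val hc
    have := LinearMap.congr_fun this y
    simp only [LinearMap.sub_apply, LinearMap.zero_apply] at this
    linear_combination this
  have hsp : ∀ x ∈ 𝔞, ∀ y ∈ 𝔞, app g g (p₁ g g x, p₂ g g y) ∈ 𝔞 := fun x hx y hy => by
    rw [← app_add]
    exact 𝔞.add_mem (split h hw hp hN hd (by rwa [app_p])).1
      (split h hw hp hN hd (by rwa [app_p])).2
  let mix : (𝔞 × 𝔞) →ₗ[ℂ] 𝔞 := LinearMap.codRestrict 𝔞 (app g g ∘ₗ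
    (p₁ g g ∘ₗ 𝔞.subtype).prodMap (p₂ g g ∘ₗ 𝔞.subtype)) fun c => hsp _ c.1.2 _ c.2.2
  let zK : K →ₗ[ℂ] 𝔞 := z.restrict hKa
  let a₁ : LinearMap.ker Ξ →ₗ[ℝ] 𝔞 :=
    zK.restrictScalars ℝ ∘ₗ LinearMap.fst ℝ _ _ ∘ₗ (LinearMap.ker Ξ).subtype
  let a₂ : LinearMap.ker Ξ →ₗ[ℝ] 𝔞 := LinearMap.snd ℝ _ _ ∘ₗ (LinearMap.ker Ξ).subtype
  let Ω : (LinearMap.ker Ξ × LinearMap.ker Ξ) →ₗ[ℝ] 𝔞 × 𝔞 :=
    (mix.restrictScalars ℝ ∘ₗ a₁.prodMap a₁).prod (mix.restrictScalars ℝ ∘ₗ a₂.prodMap a₂)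
  have fin : ∀ c : LinearMap.ker Ξ, (c.1.1 : (Fin g → ℂ) × (Fin g → ℂ)) = 0 → c = 0 :=
    fun c hc => by
      have := hΞ c.1 c.2 c.1.2
      rw [hc] at this
      exact Subtype.ext (Prod.ext (Subtype.ext hc) (Subtype.ext (hf_self hw (by simpa using this.symm))))
  have hΩ : Function.Injective Ω := (injective_iff_map_eq_zero _).2 fun c hc => by
    have h1 : app g g (p₁ g g (z c.1.1.1), p₂ g g (z c.2.1.1)) = 0 :=
      congrArg (fun x : 𝔞 × 𝔞 => (x.1 : Fin (g + g) → ℂ)) hc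
    have h2 : app g g (p₁ g g c.1.1.2, p₂ g g c.2.1.2) = 0 :=
      congrArg (fun x : 𝔞 × 𝔞 => (x.2 : Fin (g + g) → ℂ)) hc
    have h11 := congrArg (p₁ g g) h1
    have h12 := congrArg (p₂ g g) h1
    have h21 := congrArg (p₁ g g) h2
    have h22 := congrArg (p₂ g g) h2
    rw [p₁_app, map_zero] at h11 h21
    rw [p₂_app, map_zero] at h12 h22
    refine Prod.ext (fin _ (Prod.ext (by simpa [z] using h11) ?_))
      (fin _ (hΓ ((Prod.ext (by simpa [z] using h12) ?_).trans (map_zero _).symm)))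
    · refine dotProduct_eq_zero _ fun y => ?_
      have := hΞ _ c.1.2 (app g g (y, 0))
      rw [← app_p (z _), ← app_p (c.1.1.2 : Fin (g + g) → ℂ)] at this
      simp only at h11 h21
      rw [h11, h21, hp.b₁, hp.h₁] at this
      simpa [w, app_dot] using this
    · refine dotProduct_eq_zero _ fun y => ?_
      have := hΞ _ c.2.2 (app g g (0, y))
      rw [← app_p (z _), ← app_p (c.2.1.2 : Fin (g + g) → ℂ)] at this
      simp only at h12 h22
      rw [h12, h22, hp.b₂, hp.h₂] at this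
      simpa [w, app_dot] using this
  have hKY : finrank ℂ K ≤ finrank ℂ Y := by
    have := count Ξ Ω hΩ
    rw [finrank_real_of_complex K, finrank_real_of_complex Y] at this
    omega
  have hDl : finrank ℂ ((Fin (g + g) → ℂ) →ₗ[ℂ] ℂ) = g + g := by
    simp
  have d4 := lam.finrank_range_add_finrank_ker
  rw [LinearMap.range_eq_top.2 hlam, finrank_top, hDl, finrank_fin_fun] at d4
  have d5 := (lam.domRestrict Y).finrank_range_add_finrank_ker
  have d6 : finrank ℂ (LinearMap.range (lam.domRestrict Y)) ≤ finrank ℂ 𝔳 :=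
    Submodule.finrank_mono (by rintro _ ⟨y, rfl⟩; exact y.2)
  have d7 : finrank ℂ (LinearMap.ker (lam.domRestrict Y)) ≤ finrank ℂ (LinearMap.ker lam) := by
    rw [← Submodule.finrank_map_subtype_eq]
    exact Submodule.finrank_mono (by rintro _ ⟨y, hy, rfl⟩; exact hy)
  have d8 := Φ.finrank_range_add_finrank_ker
  rw [finrank_prod, finrank_fin_fun] at d8
  have d9 : finrank ℂ (LinearMap.range Φ) ≤ finrank ℂ (W.map 𝔥.mkQ) :=
    Submodule.finrank_mono (by rintro _ ⟨p, rfl⟩; exact ⟨_, hW p, rfl⟩)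
  have hpos : finrank ℂ (LinearMap.range Φ) ≠ 0 := fun h0 => by
    have hKt : K = ⊤ := Submodule.eq_top_of_finrank_eq (by
      rw [finrank_prod, finrank_fin_fun]; change _ + finrank ℂ K = _ at d8; omega)
    have hYt : Y = ⊤ := Submodule.eq_top_of_finrank_eq (by
      have := Y.finrank_le; change _ + finrank ℂ K = _ at d8; omega)
    refine hne (eq_top_iff.2 fun p _ => ?_)
    obtain ⟨q, hq⟩ := LinearMap.injective_iff_surjective.1 hΓ (p₂ g g p.1, 0)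
    have h1 := hsp _ (hKa (p₁ g g p.1, 0) (hKt ▸ trivial)) _ (hKa q (hKt ▸ trivial))
    have h2 : p.1 ∈ 𝔞 := by simpa [z, hq, app_p] using h1
    obtain ⟨f, hf⟩ := hlam (p.2 - lam (L p.1))
    have h3 : ((0, lam f) : GE (g + g) e) ∈ 𝔥 := (hYt ▸ trivial : f ∈ Y)
    have h4 : ((p.1, lam (L p.1)) : GE (g + g) e) ∈ 𝔥 := hL _ h2
    simpa [hf] using 𝔥.add_mem h3 h4
  change _ + finrank ℂ K = _ at d8
  change _ ∧ _ ≤ _ + finrank ℂ 𝔳
  omega

end

end Pool.Agent.CMQ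

namespace Pool.Agent.SHP

theorem graph : GraphStmt := by
  intro g N Θ Λ₁ η₁ Λ₂ η₂ u L h hw hN Γ hΓ e ℓ hℓ
  refine CMQ.obs_graph h hw (η₁ := η₁) (η₂ := η₂) (fun _ => Iff.rfl) (fun _ _ _ => rfl) hN Γ hΓ hℓ
    fun p => ⟨gr Γ p, ⟨p, rfl⟩, Prod.ext rfl (funext fun k => ?_)⟩
  show ℓ k ⬝ᵥ -Fin.append p.2 (Γ p).2 = _
  rw [dotProduct_neg, dotProduct_comm]

end Pool.Agent.SHP

end MrgPart1

-- marker of a merged file
example : 731051 + 167956 = 731051 + 167956 := rfl
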