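import Pool.Agent.MP_cbf1af_ag.cmp.Liou
import Pool.Agent.MP_cbf1af_ag.cmp.AuxF
import Pool.Agent.MP_cbf1af_ag.shp.Ops

/-! PROJECT SHARP, module AUX: the auxiliary function. -/

namespace Pool.Agent.SHP

open Filter Topology Module
open Pool.Agent.CMP (Quad)
open Pool.Agent.CMQ (IsTheta GE Cl Wt)

noncomputable section

namespace AuxX

variable {n e : ℕ}

lemma exists_beta (S : Submodule ℂ (GE n e)) (h : ∀ ν, (0, ν) ∈ S → ν = 0) :
    ∃ β : V n →ₗ[ℂ] (Fin e → ℂ), ∀ p ∈ S, β p.1 = p.2 := by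
  have hk : LinearMap.ker (LinearMap.fst ℂ (V n) (Fin e → ℂ) ∘ₗ S.subtype) = ⊥ := by
    rw [LinearMap.ker_eq_bot']
    rintro ⟨⟨z, ν⟩, hp⟩ h0
    have hz : z = 0 := h0
    subst hz
    have := h ν hp
    subst this
    rfl
  obtain ⟨f, hf⟩ := LinearMap.exists_leftInverse_of_injective _ hk
  refine ⟨LinearMap.snd ℂ _ _ ∘ₗ S.subtype ∘ₗ f, fun p hp => ?_⟩
  have := LinearMap.congr_fun hf ⟨p, hp⟩
  simp only [LinearMap.comp_apply, Submodule.subtype_apply, LinearMap.fst_apply,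
    LinearMap.id_apply] at this
  simp [this]

lemma quad_add {u : V n → ℝ} (hq : Quad u) (σ : V n →ₗ[ℝ] ℂ) :
    Quad fun z => u z + ‖σ z‖ ^ 2 := by
  obtain ⟨C, hC⟩ := hq
  set S : V n →L[ℝ] ℂ := LinearMap.toContinuousLinearMap σ with hS
  refine ⟨C + ‖S‖ ^ 2, fun p => ?_⟩
  obtain ⟨l, hl⟩ := hC p
  let r : V n →L[ℝ] ℝ := (2 : ℝ) • (innerSL ℝ (σ p)).comp S
  refine ⟨l + StrongDual.extendRCLike (𝕜 := ℂ) r, fun ζ => ?_⟩
  have h1 : (StrongDual.extendRCLike (𝕜 := ℂ) r ζ).re = 2 * inner ℝ (σ p) (σ ζ) := by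
    have := StrongDual.re_extendRCLike_apply (𝕜 := ℂ) r ζ
    rw [RCLike.re_to_complex] at this
    rw [this]
    simp [r, hS]
  have h2 : ‖σ (p + ζ)‖ ^ 2 = ‖σ p‖ ^ 2 + 2 * inner ℝ (σ p) (σ ζ) + ‖σ ζ‖ ^ 2 := by
    rw [map_add]; exact norm_add_sq_real _ _
  have h3 : ‖σ ζ‖ ^ 2 ≤ ‖S‖ ^ 2 * ‖ζ‖ ^ 2 := by
    rw [← mul_pow]
    exact pow_le_pow_left₀ (norm_nonneg _) (S.le_opNorm ζ) 2
  have h4 := abs_le.1 (hl ζ)
  have h5 : 0 ≤ ‖σ ζ‖ ^ 2 := by positivity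
  beta_reduce
  rw [add_apply, Complex.add_re, h1, h2, abs_le]
  constructor <;> nlinarith [h4.1, h4.2]

lemma quad_sum {u : V n → ℝ} (hq : Quad u) (σ : Fin e → V n →ₗ[ℝ] ℂ) (s : Finset (Fin e)) :
    Quad fun z => u z + ∑ k ∈ s, ‖σ k z‖ ^ 2 := by
  classical
  induction s using Finset.induction_on with
  | empty => simpa using hq
  | insert k s hk ih =>
    have := quad_add ih (σ k)
    simp only [Finset.sum_insert hk]
    convert this using 2
    ring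

lemma near_zero {ϑ : V n → ℂ} (hc : ContinuousAt ϑ 0) (h0 : ϑ 0 ≠ 0) {u : V n → ℝ}
    (hu : ContinuousAt u 0) :
    ∃ M : ℕ, 1 ≤ M ∧ ∀ z : V n, ‖z‖ ≤ 1 / (M : ℝ) →
      ϑ z ≠ 0 ∧ Real.exp (-(M : ℝ)) ≤ ‖ϑ z‖ * Real.exp (-u z) := by
  have hpos : 0 < ‖ϑ 0‖ * Real.exp (-u 0) := mul_pos (norm_pos_iff.2 h0) (Real.exp_pos _)
  have hcc : ContinuousAt (fun z => ‖ϑ z‖ * Real.exp (-u z)) 0 :=
    hc.norm.mul (Real.continuous_exp.continuousAt.comp hu.neg)
  have hev : ∀ᶠ z in 𝓝 (0 : V n), ‖ϑ 0‖ * Real.exp (-u 0) / 2 < ‖ϑ z‖ * Real.exp (-u z) :=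
    hcc.eventually (lt_mem_nhds (by linarith))
  obtain ⟨δ, hδ, hb⟩ := Metric.eventually_nhds_iff.1 hev
  obtain ⟨M1, hM1⟩ := exists_nat_one_div_lt hδ
  obtain ⟨M2, hM2⟩ := exists_nat_ge (-Real.log (‖ϑ 0‖ * Real.exp (-u 0) / 2))
  refine ⟨M1 + 1 + M2, by omega, fun z hz => ?_⟩
  have h1 : (0 : ℝ) ≤ M1 := Nat.cast_nonneg _
  have h2 : (0 : ℝ) ≤ M2 := Nat.cast_nonneg _
  have hz1 : ‖z‖ ≤ 1 / ((M1 : ℝ) + 1) := by
    refine hz.trans (one_div_le_one_div_of_le (by positivity) ?_)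
    push_cast; linarith
  have hb' := hb (y := z) (by simpa using hz1.trans_lt hM1)
  refine ⟨fun h => ?_, le_trans ?_ hb'.le⟩
  · rw [h, norm_zero, zero_mul] at hb'; linarith
  · rw [← Real.exp_log (half_pos hpos)]
    apply Real.exp_le_exp.2
    push_cast; linarith

lemma length_mw {D : ℕ} (α : Fin e → Fin (D + 1)) : (mw α).length ≤ e * D := by
  rw [mw, List.length_flatMap]
  refine (List.sum_le_card_nsmul _ D fun x hx => ?_).trans (by simp)
  obtain ⟨j, -, rfl⟩ := List.mem_map.1 hx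
  simpa using Nat.lt_succ_iff.1 (α j).2

lemma triv_nat (e B D : ℕ) : (D + 1) ^ e * (B * (e * D + 1) ^ (e * D)) ≤
    (D + 2) ^ ((e + B + (e + 1) * e) * (D + 1)) := by
  have h1 : (D + 1) ^ e ≤ (D + 2) ^ e := Nat.pow_le_pow_left (by omega) _
  have h2 : B ≤ (D + 2) ^ B := (Nat.lt_pow_self (by omega)).le
  have h3 : e * D + 1 ≤ (D + 2) ^ (e + 1) := by
    have : e + 1 ≤ (D + 2) ^ e := Nat.lt_pow_self (by omega)
    calc e * D + 1 ≤ (e + 1) * (D + 2) := by nlinarith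
      _ ≤ (D + 2) ^ e * (D + 2) := Nat.mul_le_mul_right _ this
      _ = _ := (pow_succ _ _).symm
  calc (D + 1) ^ e * (B * (e * D + 1) ^ (e * D))
      ≤ (D + 2) ^ e * ((D + 2) ^ B * ((D + 2) ^ (e + 1)) ^ (e * D)) := by gcongr
    _ = (D + 2) ^ (e + B + (e + 1) * e * D) := by
        rw [← pow_mul, ← pow_add, ← pow_add]; congr 1; ring
    _ ≤ _ := Nat.pow_le_pow_right (by omega)
        (by nlinarith [Nat.zero_le ((e + B) * D), Nat.zero_le ((e + 1) * e)])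

lemma two_pow_le {h v : ℕ} (hh : h ≤ v ^ 2) : ((2 ^ h : ℕ) : ℝ) ≤ Real.exp ((v : ℝ) ^ 2) := by
  have e2 : (2 : ℝ) ≤ Real.exp 1 := by
    have := Real.add_one_le_exp (1 : ℝ); linarith
  calc ((2 ^ h : ℕ) : ℝ) = 2 ^ h := by push_cast; ring
    _ ≤ Real.exp 1 ^ h := pow_le_pow_left₀ (by norm_num) e2 _
    _ = Real.exp h := by rw [← Real.exp_nat_mul, mul_one]
    _ ≤ Real.exp ((v : ℝ) ^ 2) := Real.exp_le_exp.2 (by exact_mod_cast hh)

end AuxX

open AuxX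

theorem aux (hO : OpsStmt) (hG : GrowStmt) : AuxStmt := by
  classical
  intro n N Θ Λ η u L hA hW s c e lam ℓ hl hi hc hν
  obtain ⟨β, hβ⟩ := exists_beta _ hν
  have hβl : ∀ i, β (lam i) = fun k => -η (lam i) (ℓ k) := fun i =>
    hβ (lam i, fun k => -η (lam i) (ℓ k)) (Submodule.subset_span ⟨i, rfl⟩)
  let σ : Fin e → V n →ₗ[ℝ] ℂ := fun k =>
    ((LinearMap.proj k : (Fin e → ℂ) →ₗ[ℂ] ℂ) ∘ₗ β).restrictScalars ℝ +
      ((LinearMap.applyₗ (ℓ k) : (V n →ₗ[ℂ] ℂ) →ₗ[ℂ] ℂ).restrictScalars ℝ) ∘ₗ L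
  have hσ : ∀ k z, σ k z = β z k + L z (ℓ k) := fun k z => rfl
  have hσl : ∀ k i, σ k (lam i) = 0 := fun k i => by
    rw [hσ, hβl, hW.ext _ (hl i)]; simp
  set u' : V n → ℝ := fun z => u z + ∑ k, ‖σ k z‖ ^ 2 with hu'
  have hq : Quad u' := quad_sum hW.quad σ Finset.univ
  have hu'c : Continuous u' := hW.cont.add (continuous_finsetSum _ fun k _ =>
    ((σ k).continuous_of_finiteDimensional.norm).pow 2)
  obtain ⟨C0, hC0, hs⟩ := CMP.samp n s c u' lam hq hi hc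
  obtain ⟨M, hM, hnear⟩ := near_zero (hA.continuous 0).continuousAt hA.ne0 hu'c.continuousAt
  obtain ⟨C1, hC1⟩ := hG n N Θ Λ η u L hA hW e ℓ
  obtain ⟨B, hB⟩ := exists_nat_ge (|C1| * Real.exp e)
  obtain ⟨hCl, -⟩ := hO n N Θ Λ η hA e ℓ
  refine ⟨18 * C0 * 2 ^ c + 2 * C0 + (C0 + M) + (e + B + (e + 1) * e), by omega,
    fun D v H hv hH hD hcount => ?_⟩
  set C := 18 * C0 * 2 ^ c + 2 * C0 + (C0 + M) + (e + B + (e + 1) * e) with hC
  obtain ⟨G, hGc, hs⟩ := hs 1 (2 * v) le_rfl (by omega)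
  let m : (Fin e → Fin (D + 1)) → V n → ℂ := fun α z => fw (Θ 0) ℓ (mw α) (z, β z)
  set B' : ℕ := B * (e * D + 1) ^ (e * D) with hB'
  have hm : ∀ α z, ‖m α z‖ * Real.exp (-(1 * u' z)) ≤ (B' : ℝ) := fun α z => by
    have h1 := hC1 (mw α) (z, β z)
    have h2 : (((mw α).length : ℝ) + 1) ^ (mw α).length ≤ ((e * D + 1 : ℕ) : ℝ) ^ (e * D) := by
      have := length_mw α
      have h3 : ((mw α).length + 1) ^ (mw α).length ≤ (e * D + 1) ^ (e * D) :=
        (Nat.pow_le_pow_left (by omega) _).trans (Nat.pow_le_pow_right (by omega) this)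
      exact_mod_cast h3
    have h3 : ∑ k, ‖σ k z‖ - ∑ k, ‖σ k z‖ ^ 2 ≤ (e : ℝ) := by
      rw [← Finset.sum_sub_distrib]
      refine (Finset.sum_le_card_nsmul _ _ 1 fun k _ => ?_).trans (by simp)
      nlinarith [sq_nonneg (‖σ k z‖ - 1), norm_nonneg (σ k z)]
    calc ‖m α z‖ * Real.exp (-(1 * u' z))
        = ‖m α z‖ * Real.exp (-u z) * Real.exp (-∑ k, ‖σ k z‖ ^ 2) := by
          rw [mul_assoc, ← Real.exp_add]; congr 2; simp only [hu']; ring
      _ ≤ |C1| * ((e * D + 1 : ℕ) : ℝ) ^ (e * D) * Real.exp (∑ k, ‖σ k z‖) *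
          Real.exp (-∑ k, ‖σ k z‖ ^ 2) := by
          refine mul_le_mul_of_nonneg_right (h1.trans ?_) (Real.exp_pos _).le
          refine mul_le_mul_of_nonneg_right ?_ (Real.exp_pos _).le
          exact mul_le_mul (le_abs_self _) h2 (by positivity) (abs_nonneg _)
      _ = |C1| * Real.exp (∑ k, ‖σ k z‖ - ∑ k, ‖σ k z‖ ^ 2) *
          ((e * D + 1 : ℕ) : ℝ) ^ (e * D) := by
          rw [sub_eq_add_neg, Real.exp_add]; ring
      _ ≤ |C1| * Real.exp e * ((e * D + 1 : ℕ) : ℝ) ^ (e * D) := by gcongr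
      _ ≤ B * ((e * D + 1 : ℕ) : ℝ) ^ (e * D) := by gcongr
      _ = B' := by rw [hB']; push_cast; ring
  have hcard : Fintype.card (Fin e → Fin (D + 1)) = (D + 1) ^ e := by simp
  obtain ⟨x, hx0, hxH, hxs⟩ := CMP.box (Fin e → Fin (D + 1)) G
    (fun p α => m α p * (Real.exp (-(1 * u' p)) : ℝ)) (B' : ℝ) (2 ^ H)
    (4 ^ ((2 + 2) * v ^ 2)) (Nat.one_le_pow _ _ (by norm_num)) (by positivity)
    (fun p α => by
      rw [norm_mul, Complex.norm_real, Real.norm_of_nonneg (Real.exp_pos _).le]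
      exact hm α p)
    (by
      rw [hcard, Fintype.card_coe]
      refine CMP.AuxX.card_lt (E := (D + 1) ^ e) hv (Nat.one_le_pow _ _ (by omega)) ?_ le_rfl
      refine le_trans ?_ hcount
      calc (2 * 2 + 5) * v ^ 2 * (2 * G.card)
          ≤ (2 * 2 + 5) * v ^ 2 * (2 * (C0 * 1 ^ s * (2 * v) ^ c)) := by gcongr
        _ = 18 * C0 * 2 ^ c * v ^ (c + 2) := by rw [mul_pow]; ring
        _ ≤ C * v ^ (c + 2) := by gcongr; omega)
  set F : V n → ℂ := fun z => ∑ α, (x α : ℂ) * m α z with hF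
  have htriv : (((D + 1) ^ e : ℕ) : ℝ) * ((2 ^ H : ℕ) : ℝ) * (B' : ℝ) ≤
      Real.exp (((2 : ℕ) : ℝ) * (v : ℝ) ^ 2) := by
    have h1 : (D + 1) ^ e * B' ≤ 2 ^ v ^ 2 := by
      refine (triv_nat e B D).trans (le_trans ?_ hD)
      exact Nat.pow_le_pow_right (by omega) (Nat.mul_le_mul_right _ (by omega))
    have h2 : (((D + 1) ^ e : ℕ) : ℝ) * (B' : ℝ) ≤ Real.exp ((v : ℝ) ^ 2) := by
      refine le_trans ?_ (two_pow_le (h := v ^ 2) le_rfl)
      exact_mod_cast h1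
    calc _ = (((D + 1) ^ e : ℕ) : ℝ) * (B' : ℝ) * ((2 ^ H : ℕ) : ℝ) := by ring
      _ ≤ Real.exp ((v : ℝ) ^ 2) * Real.exp ((v : ℝ) ^ 2) :=
          mul_le_mul h2 (two_pow_le hH) (by positivity) (Real.exp_pos _).le
      _ = _ := by rw [← Real.exp_add]; congr 1; push_cast; ring
  have hman : ∀ α z, AnalyticAt ℂ (m α) z := fun α z =>
    AnalyticAt.comp (f := fun z : V n => (z, β z)) ((hCl (mw α)).analyticAt _)
      (analyticAt_id.prod ((LinearMap.toContinuousLinearMap β).analyticAt z))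
  have key := (hs 1 (Real.exp (-(v : ℝ) ^ 2)) F zero_le_one (by simp) ?_
    (fun z => Finset.analyticAt_fun_sum _ fun α _ => analyticAt_const.mul (hman α z))
    (fun i z => ?_) (fun z => ?_) (fun p hp => ?_)).2
  · refine ⟨x, hx0, hxH, fun p hp hpn => ?_⟩
    have hz : p.1 ∈ Submodule.span ℂ (Set.range lam) := by
      have := Submodule.mem_map_of_mem (f := LinearMap.fst ℂ (V n) (Fin e → ℂ)) hp
      rw [PS, Submodule.map_span, ← Set.range_comp] at this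
      exact this
    have hzn : ‖p.1‖ ≤ 1 / (C * v : ℝ) := (norm_fst_le p).trans hpn
    have hv1 : (1 : ℝ) ≤ v := by exact_mod_cast hv
    have hz1 : ‖p.1‖ ≤ 1 / (M : ℝ) := by
      refine hzn.trans (one_div_le_one_div_of_le (by exact_mod_cast hM) ?_)
      have b1 : (M : ℝ) ≤ C := by exact_mod_cast (by omega : M ≤ C)
      have b2 : (0 : ℝ) ≤ M := Nat.cast_nonneg _
      nlinarith
    have hz2 : ‖p.1‖ ≤ 1 / ((C0 : ℝ) * (1 : ℕ) * (2 * v : ℕ)) := by
      refine hzn.trans (one_div_le_one_div_of_le ?_ ?_)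
      · have := Nat.mul_pos (Nat.mul_pos hC0 Nat.one_pos) (Nat.mul_pos Nat.two_pos hv)
        exact_mod_cast this
      · have b1 : C0 * 1 * (2 * v) ≤ C * v := by
          calc C0 * 1 * (2 * v) = 2 * C0 * v := by ring
            _ ≤ C * v := by gcongr; omega
        exact_mod_cast b1
    obtain ⟨hne, hlow⟩ := hnear p.1 hz1
    refine ⟨hne, ?_⟩
    have k1 := key p.1 hz hz2
    have e1 : F p.1 = ∑ α, (x α : ℂ) * fw (Θ 0) ℓ (mw α) p := by
      simp only [hF, m, hβ p hp]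
    rw [one_mul, e1] at k1
    set S := ∑ α, (x α : ℂ) * fw (Θ 0) ℓ (mw α) p
    have k2 : ‖S / Θ 0 p.1‖ * Real.exp (-(M : ℝ)) ≤ C0 * Real.exp (-(v : ℝ) ^ 2) := by
      refine le_trans (mul_le_mul_of_nonneg_left hlow (norm_nonneg _)) (le_trans (le_of_eq ?_) k1)
      rw [← mul_assoc, ← norm_mul, div_mul_cancel₀ _ hne]
    rw [Real.exp_neg, mul_inv_le_iff₀ (Real.exp_pos _)] at k2
    have k3 : (C0 : ℝ) ≤ Real.exp C0 := by
      have := Real.add_one_le_exp (C0 : ℝ); linarith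
    calc _ ≤ C0 * Real.exp (-(v : ℝ) ^ 2) * Real.exp M := k2
      _ ≤ Real.exp C0 * Real.exp (-(v : ℝ) ^ 2) * Real.exp M := by gcongr
      _ ≤ Real.exp (C - (v : ℝ) ^ 2) := by
          rw [← Real.exp_add, ← Real.exp_add]
          apply Real.exp_le_exp.2
          have b1 : ((C0 + M : ℕ) : ℝ) ≤ C := by exact_mod_cast (by omega : C0 + M ≤ C)
          push_cast at b1
          linarith
  · apply Real.exp_le_exp.2
    push_cast
    nlinarith [sq_nonneg (v : ℝ)]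
  · obtain ⟨b, hb⟩ := hA.quasi (lam i) (hl i)
    have e1 : F (z + lam i) = Complex.exp (η (lam i) z + b) * F z := by
      simp only [hF, Finset.mul_sum]
      refine Finset.sum_congr rfl fun α _ => ?_
      have := (hCl (mw α)).1.aut (lam i) (hl i) b hb (z, β z)
      have e2 : β (z + lam i) = fun k => β z k - η (lam i) (ℓ k) := by
        rw [map_add, hβl]; funext k; simp [sub_eq_add_neg]
      simp only [m, e2]
      rw [this]; ring
    have e3 : u' (z + lam i) = u' z + (η (lam i) z + b).re := by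
      simp only [hu', hW.per (lam i) (hl i) b hb z, map_add, hσl, add_zero]
      ring
    rw [e1, e3, norm_mul, Complex.norm_exp, mul_right_comm, ← Real.exp_add, mul_comm]
    congr 2
    ring
  · have b1 : ‖F z‖ * Real.exp (-(1 * u' z)) ≤
        (((D + 1) ^ e : ℕ) : ℝ) * ((2 ^ H : ℕ) : ℝ) * (B' : ℝ) := by
      calc ‖F z‖ * Real.exp (-(1 * u' z))
          ≤ (∑ α, ‖(x α : ℂ) * m α z‖) * Real.exp (-(1 * u' z)) :=
            mul_le_mul_of_nonneg_right (norm_sum_le _ _) (Real.exp_pos _).le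
        _ ≤ ∑ _α : Fin e → Fin (D + 1), ((2 ^ H : ℕ) : ℝ) * (B' : ℝ) := by
            rw [Finset.sum_mul]
            refine Finset.sum_le_sum fun α _ => ?_
            rw [norm_mul, mul_assoc]
            refine mul_le_mul ?_ (hm α z) (by positivity) (by positivity)
            rw [Complex.norm_intCast, ← Int.cast_abs, Int.abs_eq_natAbs, Int.cast_natCast]
            exact_mod_cast hxH α
        _ = _ := by rw [Finset.sum_const, Finset.card_univ, hcard, nsmul_eq_mul, mul_assoc]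
    refine (b1.trans htriv).trans (Real.exp_le_exp.2 ?_)
    push_cast
    nlinarith [sq_nonneg (v : ℝ)]
  · have b1 := hxs ⟨p, hp⟩
    have b2 : ∑ α, (x α : ℂ) * (m α p * (Real.exp (-(1 * u' p)) : ℝ)) =
        F p * (Real.exp (-(1 * u' p)) : ℝ) := by
      rw [hF, Finset.sum_mul]
      exact Finset.sum_congr rfl fun α _ => (mul_assoc _ _ _).symm
    simp only [] at b1
    rw [b2, norm_mul, Complex.norm_real, Real.norm_of_nonneg (Real.exp_pos _).le, hcard] at b1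
    refine b1.trans (le_trans (le_of_eq ?_) (CMP.AuxX.quot_le hv htriv))
    ring

end

end Pool.Agent.SHP
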