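import Pool.Agent.MP_cbf1af_ag.cmp.Liou
import Pool.Agent.MP_cbf1af_ag.shp.Ops

/-! PROJECT SHARP, row GROW: growth of the auxiliary functions. -/

namespace Pool.Agent.SHP

open Pool.Agent.CMP (wd)
open Pool.Agent.CMQ (IsTheta GE Wt)

namespace Grow

variable {n e : ℕ}

/-- a continuous function, periodic in the first variable, is bounded -/
theorem bdd_of_per {T : Type} [TopologicalSpace T] {K : Set T} (hK : IsCompact K)
    (b : Module.Basis (Fin (2 * n)) ℝ (V n)) {F : V n × T → ℝ} (hc : Continuous F)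
    (hp : ∀ l ∈ AddSubgroup.closure (Set.range b), ∀ z t, F (z + l, t) = F (z, t)) :
    ∃ C, ∀ z, ∀ t ∈ K, F (z, t) ≤ C := by
  obtain ⟨C, hC⟩ := ((isCompact_closedBall (0 : V n) (∑ i, ‖b i‖)).prod hK).bddAbove_image
    hc.continuousOn
  refine ⟨C, fun z t ht => ?_⟩
  have hm : (ZSpan.floor b z : V n) ∈ AddSubgroup.closure (Set.range b) := by
    rw [← Submodule.span_int_eq_addSubgroupClosure]
    exact (ZSpan.floor b z).2
  have h1 := hp _ hm (ZSpan.fract b z) t
  rw [ZSpan.fract_apply, sub_add_cancel, ← ZSpan.fract_apply] at h1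
  rw [h1]
  exact hC ⟨(ZSpan.fract b z, t), ⟨by simpa using ZSpan.norm_fract_le b z, ht⟩, rfl⟩

/-- linear combinations as a continuous linear map -/
noncomputable def lc {E : Type} [NormedAddCommGroup E] [NormedSpace ℂ E] (w : Fin e → E) :
    (Fin e → ℂ) →L[ℂ] E := LinearMap.toContinuousLinearMap (Fintype.linearCombination ℂ w)

theorem lc_apply {E : Type} [NormedAddCommGroup E] [NormedSpace ℂ E] (w : Fin e → E)
    (t : Fin e → ℂ) : lc w t = ∑ k, t k • w k := rfl

theorem lc_single {E : Type} [NormedAddCommGroup E] [NormedSpace ℂ E] (w : Fin e → E)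
    (k : Fin e) : lc w (Pi.single k 1) = w k := by
  simp [lc]

/-- the generating function of the words -/
noncomputable def gen (ℓ : Fin e → V n) (F : GE n e → ℂ) (p : GE n e) (t : Fin e → ℂ) : ℂ :=
  F (p.1 + lc ℓ t, p.2) * Complex.exp (lc p.2 t)

theorem opl_eq (ℓ : Fin e → V n) (p : GE n e) (l : List (Fin e)) :
    ∀ F : GE n e → ℂ, (∀ q, AnalyticAt ℂ F q) →
      opl ℓ l F p = wd (fun i => Pi.single i 1) l (gen ℓ F p) 0 := by
  induction l with
  | nil => intro F _; simp [opl, wd, gen]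
  | cons k l ih =>
    intro F hF
    rw [opl, wd, ih]
    · congr 1
      funext t
      have h1 : HasFDerivAt (fun t => ((p.1 + lc ℓ t, p.2) : GE n e)) ((lc ℓ).prod 0) t :=
        ((lc ℓ).hasFDerivAt.const_add p.1).prodMk (hasFDerivAt_const _ _)
      have h2 := ((hF _).differentiableAt.hasFDerivAt.comp t h1).mul (lc p.2).hasFDerivAt.cexp
      rw [show fderiv ℂ (gen ℓ F p) t = _ from h2.fderiv]
      simp [gen, nab, lc_single]
      ring
    · intro q
      refine (((ContinuousLinearMap.apply ℂ ℂ ((ℓ k, 0) : GE n e)).analyticAt _).comp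
        (hF q).fderiv).add (AnalyticAt.mul ?_ (hF q))
      exact ((ContinuousLinearMap.proj (R := ℂ) (φ := fun _ : Fin e => ℂ) k).analyticAt _).comp
        analyticAt_snd

end Grow

open Grow in
/-- Row GROW. -/
theorem grow : GrowStmt := by
  intro n N Θ Λ η u L hA hW e ℓ
  obtain ⟨b, hb⟩ := hA.lat
  obtain ⟨C, hC⟩ := hW.bdd
  have hL : ∀ z t, L z (lc ℓ t) = ∑ k, t k * L z (ℓ k) := fun z t => by
    simp [lc_apply]
  have hcL : ∀ y, Continuous fun z => L z y := fun y =>
    (LinearMap.applyₗ' ℝ y ∘ₗ L).continuous_of_finiteDimensional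
  obtain ⟨C', hC'⟩ := bdd_of_per (isCompact_closedBall (0 : Fin e → ℂ) 1) b
    (F := fun q => u (q.1 + lc ℓ q.2) - u q.1 - (L q.1 (lc ℓ q.2)).re) (by
      simp only [hL]
      refine ((hW.cont.comp (by fun_prop)).sub (hW.cont.comp continuous_fst)).sub
        (Complex.continuous_re.comp (continuous_finsetSum _ fun k _ => ?_))
      exact ((continuous_apply k).comp continuous_snd).mul ((hcL _).comp continuous_fst))
    (fun l hl z t => by
      rw [← hb] at hl
      obtain ⟨c, hc⟩ := hA.quasi l hl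
      simp only
      rw [add_right_comm, hW.per l hl c hc, hW.per l hl c hc, map_add L, hW.ext l hl]
      simp only [map_add, LinearMap.add_apply, Complex.add_re]
      ring)
  refine ⟨C * Real.exp C', fun l p => ?_⟩
  have hC0 : 0 ≤ C := le_trans (by positivity) (hC 0 0).1
  have key := CMP.cauchy e e (fun i => Pi.single i 1) (gen ℓ (fun q => Θ 0 q.1) p) 0 1
    (C * Real.exp (C' + u p.1 + ∑ k, ‖p.2 k + L p.1 (ℓ k)‖)) l one_pos fun x hx => by
      have e1 : (0 : Fin e → ℂ) + ∑ j, x j • (Pi.single j 1 : Fin e → ℂ) = x := by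
        funext j
        simp [Finset.sum_apply, Pi.single_apply]
      rw [e1]
      refine ⟨AnalyticAt.mul ((hA.hol 0 _).comp
        (analyticAt_const.add ((lc ℓ).analyticAt x))) ((lc p.2).analyticAt x).cexp, ?_⟩
      have h1 := (hC 0 (p.1 + lc ℓ x)).1
      have h2 := hC' p.1 x (mem_closedBall_zero_iff.2 hx)
      have h3 : (L p.1 (lc ℓ x)).re + (lc p.2 x).re ≤ ∑ k, ‖p.2 k + L p.1 (ℓ k)‖ := by
        rw [← Complex.add_re, hL, lc_apply, ← Finset.sum_add_distrib]
        refine (Complex.re_le_norm _).trans ((norm_sum_le _ _).trans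
          (Finset.sum_le_sum fun k _ => ?_))
        rw [smul_eq_mul, ← mul_add, norm_mul, add_comm]
        exact mul_le_of_le_one_left (norm_nonneg _) ((norm_le_pi_norm x k).trans hx)
      rw [Real.exp_neg, mul_inv_le_iff₀ (Real.exp_pos _)] at h1
      rw [gen, norm_mul, Complex.norm_exp]
      refine (mul_le_mul_of_nonneg_right h1 (Real.exp_pos _).le).trans ?_
      rw [mul_assoc, ← Real.exp_add]
      refine mul_le_mul_of_nonneg_left (Real.exp_le_exp.2 ?_) hC0
      simp only at h2
      linarith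
  rw [fw, opl_eq ℓ p l _ fun q => hA.analyticAt_fst 0 q, Real.exp_neg,
    mul_inv_le_iff₀ (Real.exp_pos _)]
  refine key.trans ?_
  rw [div_one, Real.exp_add, Real.exp_add]
  have h4 : (l.length : ℝ) ^ l.length ≤ ((l.length : ℝ) + 1) ^ l.length := by
    gcongr
    linarith
  calc _ ≤ C * (Real.exp C' * Real.exp (u p.1) * Real.exp (∑ k, ‖p.2 k + L p.1 (ℓ k)‖)) *
        ((l.length : ℝ) + 1) ^ l.length := by gcongr
    _ = _ := by ring

end Pool.Agent.SHP
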