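import Pool.Agent.MP_cbf1af_ag.cmp.Basic
import Pool.Agent.MP_cbf1af_ag.shp.Ops
import Pool.Agent.MP_cbf1af_ag.cmp2.Quot
import Pool.Agent.MP_cbf1af_ag.cmp.Liou
import Pool.Agent.MP_cbf1af_ag.cmp.Tay
import Pool.Agent.MP_cbf1af_ag.cmp2.Wt
import Pool.Agent.MP_cbf1af_ag.cmp2.Final
import Pool.Agent.MP_cbf1af_ag.shp.Grow
import Pool.Agent.MP_cbf1af_ag.shp.AuxF
import Pool.Agent.MP_cbf1af_ag.shp.Graph

-- ======== part 0: formerly Pool.Agent.MP_cbf1af_ag.shp.Tay
section MrgPart0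

/-! PROJECT SHARP, row TAY: sizes of the values of words, and the unit ideal. -/

namespace Pool.Agent.SHP

open MvPolynomial Filter Topology
open Pool.Agent.CMP (Qb Sz exists_sz_family)

noncomputable section

namespace Tay

theorem sz_foldl {ι B ρ : Type} [CommRing B] {θ : ι → B} (d : ρ → B → B) {c : ℕ}
    (hd : ∀ j n L x, Sz θ n L x → Sz θ (n + c) (L * ((n + 1) * c)) (d j x)) (l : List ρ) :
    ∀ {n L : ℕ} {x : B}, Sz θ n L x →
      Sz θ (n + c * l.length) (L * ((n + c * l.length + 1) * c) ^ l.length)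
        (l.foldl (fun p j => d j p) x) := by
  induction l with
  | nil => intro n L x h; simpa using h
  | cons j l ih =>
    intro n L x h
    have h1 := ih (hd j n L x h)
    refine h1.mono (by rw [List.length_cons]; ring_nf; omega) ?_
    rw [List.length_cons, pow_succ', mul_assoc]
    have e : n + c + c * l.length = n + c * (l.length + 1) := by ring
    rw [e]
    gcongr
    omega

section
variable {E σ : Type} [NormedAddCommGroup E] [NormedSpace ℂ E]

theorem ew_congr [Fintype σ] (h : E → σ → ℂ) (l : List (E × (σ → ℂ))) :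
    ∀ {f f' : E → ℂ}, f =ᶠ[𝓝 0] f' → ew h l f =ᶠ[𝓝 0] ew h l f' := by
  induction l with
  | nil => intro f f' e; exact e
  | cons j l ih =>
    intro f f' e
    refine ih ?_
    filter_upwards [e.fderiv (𝕜 := ℂ), e] with z hz hz'
    rw [hz, hz']

theorem chain {B : Type} [CommRing B] (τ : B →+* ℂ) (h : E → σ → ℂ)
    (v z : E) (a : σ → MvPolynomial σ B)
    (hd : ∀ i, DifferentiableAt ℂ (fun z => h z i) z)
    (ha : ∀ i, fderiv ℂ (fun z => h z i) z v = eval₂ τ (h z) (a i))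
    (p : MvPolynomial σ B) :
    ∃ f' : E →L[ℂ] ℂ, HasFDerivAt (fun z => eval₂ τ (h z) p) f' z ∧
      f' v = eval₂ τ (h z) (mkDerivation B a p) := by
  induction p using MvPolynomial.induction_on with
  | C b =>
    refine ⟨0, ?_, ?_⟩
    · simpa using hasFDerivAt_const (τ b) z
    · simp
  | add p q hp hq =>
    obtain ⟨f1, h1, e1⟩ := hp
    obtain ⟨f2, h2, e2⟩ := hq
    refine ⟨f1 + f2, ?_, ?_⟩
    · simp only [eval₂_add]
      exact h1.add h2
    · simp [eval₂_add, e1, e2]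
  | mul_X p i hp =>
    obtain ⟨f1, h1, e1⟩ := hp
    refine ⟨_, by simp only [eval₂_mul, eval₂_X]; exact h1.mul (hd i).hasFDerivAt, ?_⟩
    simp [eval₂_add, eval₂_mul, e1, ha]

theorem ew_eval [Fintype σ] {B ρ : Type} [CommRing B] (τ : B →+* ℂ) (h : E → σ → ℂ)
    (w : ρ → E × (σ → ℂ)) (a : ρ → σ → MvPolynomial σ B) (b : ρ → MvPolynomial σ B)
    (hh : ∀ᶠ z in 𝓝 (0 : E), (∀ i, DifferentiableAt ℂ (fun z => h z i) z) ∧
      ∀ j i, fderiv ℂ (fun z => h z i) z (w j).1 = eval₂ τ (h z) (a j i))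
    (hb : ∀ j y, (w j).2 ⬝ᵥ y = eval₂ τ y (b j)) (l : List ρ) : ∀ p : MvPolynomial σ B,
      ew h (l.map w) (fun z => eval₂ τ (h z) p) =ᶠ[𝓝 0]
        fun z => eval₂ τ (h z) (l.foldl (fun p j => mkDerivation B (a j) p + b j * p) p) := by
  induction l with
  | nil => intro p; exact EventuallyEq.rfl
  | cons j l ih =>
    intro p
    refine EventuallyEq.trans (ew_congr h (l.map w) ?_) (ih _)
    filter_upwards [hh] with z hz
    obtain ⟨f', h1, h2⟩ := chain τ h (w j).1 z (a j) hz.1 (hz.2 j) p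
    rw [h1.fderiv, h2, eval₂_add, eval₂_mul, hb]

end

theorem exists_hom {B : Type} [CommRing B] [Algebra Qb B] [Algebra.FiniteType Qb B]
    (I : Ideal B) (hI : I ≠ ⊤) : ∃ τ : B →ₐ[Qb] ℂ, ∀ y ∈ I, τ y = 0 := by
  obtain ⟨𝔪, h𝔪, hle⟩ := Ideal.exists_le_maximal _ hI
  let _ := Ideal.Quotient.field 𝔪
  have : Module.Finite Qb (B ⧸ 𝔪) := finite_of_finite_type_of_isJacobsonRing _ _
  refine ⟨(IsAlgClosed.lift : (B ⧸ 𝔪) →ₐ[Qb] ℂ).comp (Ideal.Quotient.mkₐ Qb 𝔪), fun y hy => ?_⟩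
  rw [AlgHom.comp_apply, Ideal.Quotient.mkₐ_eq_mk, Ideal.Quotient.eq_zero_iff_mem.2 (hle hy),
    map_zero]

theorem aeval_hom {B : Type} [CommRing B] [Algebra Qb B] {M : ℕ} (xB : Fin M → B)
    (τ : B →ₐ[Qb] ℂ) (P : MvPolynomial (Fin M) ℤ) :
    aeval (fun i => τ (xB i)) P = τ (aeval xB P) :=
  (congrArg (fun f : MvPolynomial (Fin M) ℤ →ₐ[ℤ] ℂ => f P)
    (comp_aeval xB (τ : B →+* ℂ).toIntAlgHom)).symm

/-- the values of the words, computed in a ring `B` of definition -/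
theorem core {E σ τ' ρ : Type} [NormedAddCommGroup E] [NormedSpace ℂ E] [Fintype σ] [Fintype τ']
    [DecidableEq τ'] [Fintype ρ] {M m : ℕ} (A : (τ' → ℂ) →ₗ[ℂ] E) (h : E → σ → ℂ)
    (pa : ρ → τ' → MvPolynomial (Fin M) ℤ) (pm : ρ → σ → MvPolynomial (Fin M) ℤ)
    (han : ∀ i, AnalyticAt ℂ (fun z => h z i) 0) (h0 : σ → Qb) (hh0 : ∀ i, h 0 i = h0 i)
    (G : σ → τ' → MvPolynomial σ Qb) (hG : ∀ i k, ∀ᶠ z in 𝓝 (0 : E),
      fderiv ℂ (fun z => h z i) z (A (Pi.single k 1)) = aeval (h z) (G i k))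
    {B : Type} [CommRing B] [Algebra Qb B] (θ : Fin m → B) (x : Fin M → B)
    (hθ1 : ∀ i k, ∀ y ∈ (G i k).coeffs, algebraMap Qb B y ∈ Set.range θ)
    (hθ2 : ∀ i, algebraMap Qb B (h0 i) ∈ Set.range θ) (hθ3 : ∀ i, x i ∈ Set.range θ) :
    ∃ (q : List ρ → B) (C : ℕ), 1 ≤ C ∧
      (∀ (T : ℕ) (l : List ρ), l.length ≤ T → Sz θ (C * T) ((C * (T + 1)) ^ T) (q l)) ∧
      ∀ (τ : B →ₐ[Qb] ℂ) (l : List ρ), ew h (l.map fun j =>
        (A (evv (fun i => τ (x i)) (pa j)), evv (fun i => τ (x i)) (pm j))) (fun _ => 1) 0 =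
          τ (q l) := by
  classical
  let g0 : σ → B := fun i => algebraMap Qb B (h0 i)
  let a : ρ → σ → MvPolynomial σ B := fun j i =>
    ∑ k, C (aeval x (pa j k)) * map (algebraMap Qb B) (G i k)
  let b : ρ → MvPolynomial σ B := fun j => ∑ i, C (aeval x (pm j i)) * X i
  let γ : Fin m ⊕ σ → MvPolynomial σ B := Sum.elim (fun i => C (θ i)) X
  have hC : ∀ y ∈ Set.range θ, (C y : MvPolynomial σ B) ∈ Subring.closure (Set.range γ) := by
    rintro y ⟨i, rfl⟩
    exact Subring.subset_closure ⟨Sum.inl i, rfl⟩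
  have hX : ∀ i, (X i : MvPolynomial σ B) ∈ Subring.closure (Set.range γ) := fun i =>
    Subring.subset_closure ⟨Sum.inr i, rfl⟩
  have hP : ∀ P : MvPolynomial (Fin M) ℤ, (C (aeval x P) : MvPolynomial σ B) ∈
      Subring.closure (Set.range γ) := by
    intro P
    induction P using MvPolynomial.induction_on with
    | C z => simp
    | add p p' hp hp' => rw [map_add, map_add]; exact add_mem hp hp'
    | mul_X p i hp => rw [map_mul, map_mul, aeval_X]; exact mul_mem hp (hC _ (hθ3 i))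
  have k1 : ∀ p : ρ × (Fin m ⊕ σ),
      mkDerivation B (a p.1) (γ p.2) ∈ Subring.closure (Set.range γ) := by
    rintro ⟨j, i | i⟩
    · simp [γ]
    · simp only [γ, Sum.elim_inr, mkDerivation_X, a]
      refine Subring.sum_mem _ fun k _ => Subring.mul_mem _ (hP _) ?_
      rw [(G i k).as_sum, map_sum]
      refine Subring.sum_mem _ fun μ hμ => ?_
      rw [map_monomial, monomial_eq]
      refine Subring.mul_mem _ (hC _ (hθ1 i k _ (coeff_mem_coeffs μ (mem_support_iff.1 hμ)))) ?_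
      exact Subring.prod_mem _ fun s _ => Subring.pow_mem _ (hX s) _
  have k2 : ∀ j, b j ∈ Subring.closure (Set.range γ) := fun j =>
    Subring.sum_mem _ fun i _ => Subring.mul_mem _ (hP _) (hX i)
  obtain ⟨n1, L1, -, h1⟩ := exists_sz_family _ k1
  obtain ⟨n2, L2, -, h2⟩ := exists_sz_family _ k2
  obtain ⟨c, hc1, hc2, hc3, hc4⟩ : ∃ c, n1 ≤ c ∧ L1 ≤ c ∧ n2 ≤ c ∧ L2 ≤ c :=
    ⟨n1 + L1 + n2 + L2, by omega, by omega, by omega, by omega⟩
  refine ⟨fun l => eval g0 (l.foldl (fun p j => mkDerivation B (a j) p + b j * p) 1),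
    (c + 1) ^ 2, Nat.one_le_pow _ _ (by omega), fun T l hl => ?_, fun τ l => ?_⟩
  · have h3 := sz_foldl (fun j p => mkDerivation B (a j) p + b j * p) (θ := γ) (c := c) (by
      intro j n L y hy
      have e1 := hy.deriv (mkDerivation B (a j)).toLinearMap.toAddMonoidHom
        (fun u v => (mkDerivation B (a j)).leibniz u v) fun i => (h1 (j, i)).mono hc1 hc2
      have e2 := (((h2 j).mono hc3 hc4).mul hy).mono (n' := n + c) (by omega) le_rfl
      exact (e1.add e2).mono le_rfl (le_of_eq (by ring))) l (CMP.Sz.one γ 0)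
    have h4 := h3.map (θ' := θ) (eval g0) (by
      rintro (i | i)
      · exact ⟨i, by simp [γ]⟩
      · obtain ⟨i', hi'⟩ := hθ2 i
        exact ⟨i', by simp only [γ, Sum.elim_inr, eval_X]; exact hi'.symm⟩)
    have h5 : c * l.length ≤ (c + 1) * T := Nat.mul_le_mul (by omega) hl
    have h6 : (c + 1) * T ≤ (c + 1) ^ 2 * T := Nat.mul_le_mul_right _ (by nlinarith)
    refine CMP.Sz.mono h4 (by omega) ?_
    have h7 : (0 + c * l.length + 1) * c ≤ (c + 1) ^ 2 * (T + 1) := by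
      have : 0 + c * l.length + 1 ≤ (c + 1) * (T + 1) := by nlinarith
      calc _ ≤ (c + 1) * (T + 1) * (c + 1) := Nat.mul_le_mul this (by omega)
        _ = _ := by ring
    rw [one_mul]
    exact (Nat.pow_le_pow_left h7 _).trans (Nat.pow_le_pow_right (by positivity) hl)
  · have h1 := ew_eval (τ : B →+* ℂ) h
      (fun j => (A (evv (fun i => τ (x i)) (pa j)), evv (fun i => τ (x i)) (pm j))) a b (by
      have e1 : ∀ᶠ z in 𝓝 (0 : E), ∀ i, DifferentiableAt ℂ (fun z => h z i) z :=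
        eventually_all.2 fun i => (han i).eventually_analyticAt.mono fun z hz =>
          hz.differentiableAt
      have e2 := eventually_all.2 fun i => eventually_all.2 fun k => hG i k
      filter_upwards [e1, e2] with z hz1 hz2
      refine ⟨hz1, fun j i => ?_⟩
      have e3 : evv (fun i => τ (x i)) (pa j) =
          ∑ k, τ (aeval x (pa j k)) • (Pi.single k 1 : τ' → ℂ) := by
        funext k
        simp [Finset.sum_apply, Pi.single_apply, evv, aeval_hom]
      rw [e3, map_sum, map_sum]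
      simp only [a, eval₂_sum, eval₂_mul, eval₂_C, map_smul, hz2, smul_eq_mul, eval₂_map]
      refine Finset.sum_congr rfl fun k _ => ?_
      rw [aeval_def (R := Qb), show (τ : B →+* ℂ).comp (algebraMap Qb B) = algebraMap Qb ℂ from
        τ.comp_algebraMap]
      rfl) (by
      intro j y
      simp only [b, eval₂_sum, eval₂_mul, eval₂_C, eval₂_X, dotProduct, evv, aeval_hom]
      rfl) l 1
    simp only [eval₂_one] at h1
    rw [h1.self_of_nhds]
    have h3 : h 0 = fun i => (τ : B →+* ℂ) (g0 i) := by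
      funext i
      exact (hh0 i).trans (τ.commutes (h0 i)).symm
    show eval₂ (τ : B →+* ℂ) (h 0) _ = (τ : B →+* ℂ) (eval g0 _)
    rw [h3, ← coe_eval₂Hom, ← eval₂_id, ← coe_eval₂Hom, map_eval₂Hom]
    rfl

end Tay

open Tay in
theorem tay : TayStmt := by
  classical
  intro E σ τ' ρ _ _ _ _ _ _ M A h x pa pm hs
  obtain ⟨han, halg, G, hG⟩ := hs
  let S : Finset ℂ :=
    ((Finset.univ.biUnion fun p : σ × τ' =>
        (G p.1 p.2).coeffs.image fun y : Qb => (y : ℂ)) ∪ Finset.univ.image (h 0)) ∪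
      Finset.univ.image x
  let θ : Fin S.card → ℂ := fun i => (S.equivFin.symm i : ℂ)
  have hθ : ∀ y ∈ S, y ∈ Set.range θ := fun y hy => ⟨S.equivFin ⟨y, hy⟩, by simp [θ]⟩
  have hθ1 : ∀ i k, ∀ y ∈ (G i k).coeffs, (y : ℂ) ∈ Set.range θ := fun i k y hy => hθ _ (by
    simp only [S, Finset.mem_union, Finset.mem_biUnion, Finset.mem_image]
    exact Or.inl (Or.inl ⟨(i, k), Finset.mem_univ _, y, hy, rfl⟩))
  have hθ2 : ∀ i, h 0 i ∈ Set.range θ := fun i => hθ _ (by
    simp only [S, Finset.mem_union, Finset.mem_image]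
    exact Or.inl (Or.inr ⟨i, Finset.mem_univ _, rfl⟩))
  have hθ3 : ∀ i, x i ∈ Set.range θ := fun i => hθ _ (by
    simp only [S, Finset.mem_union, Finset.mem_image]
    exact Or.inr ⟨i, Finset.mem_univ _, rfl⟩)
  have hθ5 : ∀ i, IsAlgebraic ℚ (θ i) ∨ θ i ∈ IntermediateField.adjoin ℚ (Set.range x) := by
    intro i
    have hi : θ i ∈ S := (S.equivFin.symm i).2
    simp only [S, Finset.mem_union, Finset.mem_biUnion, Finset.mem_image] at hi
    rcases hi with (⟨p, -, y, -, hy⟩ | ⟨i', -, hy⟩) | ⟨p, -, hy⟩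
    · exact Or.inl (hy ▸ (mem_algebraicClosure_iff.1 y.2))
    · exact Or.inl (hy ▸ halg i')
    · exact Or.inr (hy ▸ IntermediateField.subset_adjoin _ _ ⟨p, rfl⟩)
  clear_value θ
  generalize S.card = m at θ hθ1 hθ2 hθ3 hθ5
  clear hθ S
  let B := Algebra.adjoin Qb (Set.range θ)
  let θB : Fin m → B := fun i => ⟨θ i, Algebra.subset_adjoin ⟨i, rfl⟩⟩
  let xB : Fin M → B := fun i => ⟨x i, Algebra.subset_adjoin (hθ3 i)⟩
  have hB : ∀ y : B, (y : ℂ) ∈ Set.range θ → y ∈ Set.range θB := fun y ⟨i, hi⟩ =>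
    ⟨i, Subtype.ext hi⟩
  obtain ⟨q, c, hc, hq, hev⟩ := core A h pa pm han
    (fun i => ⟨h 0 i, mem_algebraicClosure_iff.2 (halg i)⟩) (fun _ => rfl) G hG θB xB
    (fun i k y hy => hB _ (hθ1 i k y hy)) (fun i => hB _ (hθ2 i)) fun i => hB _ (hθ3 i)
  refine ⟨m, θ, c, hc, hθ5, fun T l hl => ?_, fun ι ι' _ cf wo hne => ?_⟩
  · exact (hev B.val l).symm ▸ (hq T l hl).map (θ' := θ) (B.val : B →+* ℂ) fun i => ⟨i, rfl⟩
  · let r : ι' → B := fun k => ∑ i, (cf i : B) * q (wo k i)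
    have hr : ∀ (τ : B →ₐ[Qb] ℂ) k, ∑ i, (cf i : ℂ) * ew h ((wo k i).map fun j =>
        (A (evv (fun i => τ (xB i)) (pa j)), evv (fun i => τ (xB i)) (pm j))) (fun _ => 1) 0 =
          τ (r k) := by
      intro τ k
      simp only [hev, r, map_sum, map_mul, map_intCast]
    by_cases hI : Ideal.span (Set.range r) = ⊤
    · have h3 : (1 : B) ∈ Submodule.span B (Set.range r) := by
        rw [Ideal.submodule_span_eq, hI]; trivial
      have h4 := Submodule.mem_map_of_mem (f := Algebra.linearMap B ℂ) h3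
      rw [Submodule.map_span] at h4
      refine Submodule.span_mono ?_ h4
      rintro _ ⟨_, ⟨k, rfl⟩, rfl⟩
      exact ⟨k, hr B.val k⟩
    · exfalso
      have : Algebra.FiniteType Qb B :=
        Algebra.FiniteType.adjoin_of_finite (Set.finite_range θ)
      obtain ⟨τ, hτ⟩ := exists_hom _ hI
      have hs : Spc x fun i => τ (xB i) := fun P hP' => by
        have e : aeval xB P = 0 := Subtype.ext ((aeval_hom xB B.val P).symm.trans hP')
        rw [aeval_hom, e, map_zero]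
      refine (hne _ hs).elim fun k hk => hk ?_
      rw [hr τ k]
      exact hτ _ (Ideal.subset_span ⟨k, rfl⟩)

end

end Pool.Agent.SHP

end MrgPart0

-- ======== part 1: formerly Pool.Agent.MP_cbf1af_ag.shp.Size
section MrgPart1

/-! PROJECT SHARP, row SIZE: the Taylor coefficients of the auxiliary functions are values of
words of a differential system. -/

namespace Pool.Agent.SHP

open Filter Topology
open Pool.Agent.CMP (Qb DiffSys Sz wd fn wd_congr)
open Pool.Agent.CMQ (IsTheta GE)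

noncomputable section

namespace Size

section
variable {E σ : Type} [NormedAddCommGroup E] [NormedSpace ℂ E] [Fintype σ] {h : E → σ → ℂ}

theorem ew_append (l l' : List (E × (σ → ℂ))) (f : E → ℂ) :
    ew h (l ++ l') f = ew h l' (ew h l f) := by
  induction l generalizing f with
  | nil => rfl
  | cons a l ih => simp only [List.cons_append, ew, ih]

theorem step_an {p : E} (hh : ∀ i, AnalyticAt ℂ (fun z => h z i) p) (a : E × (σ → ℂ))
    {f : E → ℂ} (hf : AnalyticAt ℂ f p) :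
    AnalyticAt ℂ (fun x => fderiv ℂ f x a.1 + (a.2 ⬝ᵥ h x) * f x) p := by
  refine (((ContinuousLinearMap.apply ℂ ℂ a.1).analyticAt _).comp hf.fderiv).fun_add
    (AnalyticAt.fun_mul ?_ hf)
  exact Finset.analyticAt_fun_sum _ fun i _ => analyticAt_const.fun_mul (hh i)

theorem ew_an {p : E} (hh : ∀ i, AnalyticAt ℂ (fun z => h z i) p) (l : List (E × (σ → ℂ)))
    {f : E → ℂ} (hf : AnalyticAt ℂ f p) : AnalyticAt ℂ (ew h l f) p := by
  induction l generalizing f with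
  | nil => exact hf
  | cons a l ih => exact ih (step_an hh a hf)

theorem tendsto_lin {q : ℕ} (W : Fin q → E) :
    Tendsto (fun x : Fin q → ℂ => ∑ j, x j • W j) (𝓝 0) (𝓝 0) := by
  simpa using (CMQ.continuous_lin W).tendsto 0

/-- derivatives along the parametrised subspace -/
theorem wd_lin (hh : ∀ i, AnalyticAt ℂ (fun z => h z i) 0) {q : ℕ} (W : Fin q → E)
    (l : List (Fin q)) {f : E → ℂ} (hf : AnalyticAt ℂ f 0) :
    wd (fun i => Pi.single i 1) l (fun x : Fin q → ℂ => f (∑ j, x j • W j)) 0 =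
      ew h (l.map fun j => (W j, 0)) f 0 := by
  induction l generalizing f with
  | nil => simp [wd, ew]
  | cons k l ih =>
    simp only [wd, List.map_cons, ew]
    rw [← ih (step_an hh (W k, 0) hf)]
    refine (wd_congr _ l ?_).self_of_nhds
    filter_upwards [(tendsto_lin W).eventually hf.eventually_analyticAt] with x hx
    let L : (Fin q → ℂ) →L[ℂ] E :=
      ∑ j, (ContinuousLinearMap.proj j : (Fin q → ℂ) →L[ℂ] ℂ).smulRight (W j)
    have hL : ∀ x, L x = ∑ j, x j • W j := fun x => by simp [L]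
    have h4 : HasFDerivAt (fun x : Fin q → ℂ => ∑ j, x j • W j) L x := by
      simpa only [← hL] using L.hasFDerivAt
    have h5 := (hx.differentiableAt.hasFDerivAt.comp x h4).fderiv
    have h6 : L (Pi.single k 1) = W k := by
      rw [hL, Finset.sum_eq_single k] <;> simp +contextual
    rw [show (fun x : Fin q → ℂ => f (∑ j, x j • W j)) =
      f ∘ fun x : Fin q → ℂ => ∑ j, x j • W j from rfl, h5]
    simp [h6]

end

section
variable {n e : ℕ} {σ : Type} [Fintype σ] {h : GE n e → σ → ℂ}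

theorem opl_congr (ℓ : Fin e → V n) (l : List (Fin e)) {F F' : GE n e → ℂ} {p : GE n e}
    (H : F =ᶠ[𝓝 p] F') : opl ℓ l F =ᶠ[𝓝 p] opl ℓ l F' := by
  induction l generalizing F F' with
  | nil => exact H
  | cons k l ih =>
    refine ih ?_
    filter_upwards [H, H.fderiv (𝕜 := ℂ)] with z h1 h2
    simp only [nab, h1, h2]

/-- conjugation of the operators by the theta function -/
theorem opl_mul (hh : ∀ i, AnalyticAt ℂ (fun z => h z i) 0) {ϑ : V n → ℂ}
    (hϑ : AnalyticAt ℂ ϑ 0) (ℓ : Fin e → V n) (m : Fin e → σ → ℂ)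
    (hm : ∀ k, ∀ᶠ p in 𝓝 (0 : GE n e),
      fderiv ℂ ϑ p.1 (ℓ k) + p.2 k * ϑ p.1 = ϑ p.1 * (m k ⬝ᵥ h p))
    (l : List (Fin e)) {f : GE n e → ℂ} (hf : AnalyticAt ℂ f 0) :
    opl ℓ l (fun p => ϑ p.1 * f p) =ᶠ[𝓝 0]
      fun p => ϑ p.1 * ew h (l.map fun k => ((ℓ k, 0), m k)) f p := by
  induction l generalizing f with
  | nil => exact EventuallyEq.rfl
  | cons k l ih =>
    simp only [opl, List.map_cons, ew]
    refine (opl_congr ℓ l ?_).trans (ih (step_an hh ((ℓ k, 0), m k) hf))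
    have h1 : ∀ᶠ p in 𝓝 (0 : GE n e), AnalyticAt ℂ ϑ p.1 :=
      (continuous_fst.tendsto (0 : GE n e)).eventually hϑ.eventually_analyticAt
    filter_upwards [hm k, h1, hf.eventually_analyticAt] with p h2 h3 h4
    have h5 : HasFDerivAt (fun p : GE n e => ϑ p.1)
        ((fderiv ℂ ϑ p.1).comp (ContinuousLinearMap.fst ℂ _ _)) p :=
      h3.differentiableAt.hasFDerivAt.comp p hasFDerivAt_fst
    have h6 := (h5.fun_mul h4.differentiableAt.hasFDerivAt).fderiv
    simp only [nab, h6, add_apply, smul_apply,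
      ContinuousLinearMap.comp_apply, ContinuousLinearMap.coe_fst', smul_eq_mul]
    linear_combination f p * h2

theorem tc_eq (hh : ∀ i, AnalyticAt ℂ (fun z => h z i) 0) {ϑ : V n → ℂ}
    (hϑ : AnalyticAt ℂ ϑ 0) (h0 : ϑ 0 ≠ 0) (ℓ : Fin e → V n) (m : Fin e → σ → ℂ)
    (hm : ∀ k, ∀ᶠ p in 𝓝 (0 : GE n e),
      fderiv ℂ ϑ p.1 (ℓ k) + p.2 k * ϑ p.1 = ϑ p.1 * (m k ⬝ᵥ h p))
    {q : ℕ} (W : Fin q → GE n e) (l' : List (Fin q)) (l : List (Fin e)) :
    tc ϑ ℓ W l' l = ew h ((l.map fun k => ((ℓ k, 0), m k)) ++ l'.map fun j => (W j, 0))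
      (fun _ => 1) 0 := by
  rw [ew_append, ← wd_lin hh W l' (ew_an hh _ analyticAt_const), tc]
  refine (wd_congr _ l' ?_).self_of_nhds
  have h1 := opl_mul hh hϑ ℓ m hm l (f := fun _ => 1) analyticAt_const
  have h2 : ∀ᶠ p in 𝓝 (0 : GE n e), ϑ p.1 ≠ 0 :=
    (continuous_fst.tendsto (0 : GE n e)).eventually (hϑ.continuousAt.eventually_ne h0)
  filter_upwards [(tendsto_lin W).eventually h1, (tendsto_lin W).eventually h2] with x h3 h4
  simp only [mul_one] at h3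
  rw [fw, h3, mul_div_cancel_left₀ _ h4]

end

/-- the coordinates of the system on the extension -/
def hx {n e N : ℕ} (h₀ : V n → Fin N → ℂ) (p : GE n e) : Fin N ⊕ Fin e → ℂ :=
  Sum.elim (h₀ p.1) p.2

/-- the basis of the Lie algebra of the extension -/
def bx (n e : ℕ) : (Fin n ⊕ Fin e → ℂ) →ₗ[ℂ] GE n e :=
  (LinearEquiv.sumArrowLequivProdArrow (Fin n) (Fin e) ℂ ℂ).toLinearMap

theorem bx_apply {n e : ℕ} (y : Fin n ⊕ Fin e → ℂ) :
    bx n e y = (fun i => y (Sum.inl i), fun k => y (Sum.inr k)) := rfl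

theorem dsys {n e N : ℕ} {h₀ : V n → Fin N → ℂ} (H : DiffSys h₀) :
    DSys (bx n e) (hx (e := e) h₀) := by
  obtain ⟨h1, h2, G, hG⟩ := H
  have ht := continuous_fst.tendsto (0 : GE n e)
  refine ⟨?_, ?_, Sum.elim (fun i => Sum.elim (fun k => MvPolynomial.rename Sum.inl (G i k)) 0)
    fun i => Sum.elim 0 fun k => if i = k then 1 else 0, ?_⟩
  · rintro (i | k)
    · exact AnalyticAt.comp (g := fun z => h₀ z i) (f := Prod.fst) (h1 i) analyticAt_fst
    · exact ((ContinuousLinearMap.proj k : (Fin e → ℂ) →L[ℂ] ℂ).analyticAt _).comp analyticAt_snd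
  · rintro (i | k)
    · exact h2 i
    · exact isAlgebraic_zero
  · rintro (i | i) k
    · filter_upwards [ht.eventually (h1 i).eventually_analyticAt,
        ht.eventually (eventually_all.2 (hG i))] with p h3 h4
      have h5 : HasFDerivAt (fun z : GE n e => hx h₀ z (Sum.inl i))
          ((fderiv ℂ (fun z => h₀ z i) p.1).comp (ContinuousLinearMap.fst ℂ _ _)) p :=
        h3.differentiableAt.hasFDerivAt.comp p hasFDerivAt_fst
      rw [h5.fderiv, ContinuousLinearMap.comp_apply, ContinuousLinearMap.coe_fst', bx_apply]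
      rcases k with k | k
      · have : (fun j => (Pi.single (Sum.inl k) 1 : Fin n ⊕ Fin e → ℂ) (Sum.inl j)) =
            Pi.single k 1 := by
          funext j; simp [Pi.single_apply]
        simp only [this, h4 k, Sum.elim_inl, MvPolynomial.aeval_rename]
        rfl
      · have : (fun j => (Pi.single (Sum.inr k) 1 : Fin n ⊕ Fin e → ℂ) (Sum.inl j)) = 0 := by
          funext j; simp
        simp only [this, map_zero, Sum.elim_inl, Sum.elim_inr, Pi.zero_apply]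
    · refine Eventually.of_forall fun p => ?_
      have h5 : HasFDerivAt (fun z : GE n e => hx h₀ z (Sum.inr i))
          ((ContinuousLinearMap.proj i : (Fin e → ℂ) →L[ℂ] ℂ).comp
            (ContinuousLinearMap.snd ℂ _ _)) p :=
        ((ContinuousLinearMap.proj i : (Fin e → ℂ) →L[ℂ] ℂ).comp
          (ContinuousLinearMap.snd ℂ (Fin n → ℂ) _)).hasFDerivAt
      rw [h5.fderiv, bx_apply]
      rcases k with k | k
      · simp
      · by_cases hik : i = k <;> simp [hik]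

end Size

open Size in
theorem size (hD : CMQ.DerStmt) (hT : TayStmt) : SizeStmt := by
  intro n N Θ Λ η hΘ e q M x pl pw pv
  set h₀ : V n → Fin (N + 1 + n) → ℂ := fun z => Fin.append (fn Θ z)
    fun j : Fin n => fderiv ℂ (Θ 0) z (Pi.single j 1) / Θ 0 z with hh₀
  have hS : DSys (bx n e) (hx (e := e) h₀) := dsys (hD n N Θ Λ η hΘ)
  let pa : Fin q ⊕ Fin e → Fin n ⊕ Fin e → MvPolynomial (Fin M) ℤ :=
    Sum.elim (fun j => Sum.elim (pw j) (pv j)) fun k => Sum.elim (pl k) 0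
  let pm : Fin q ⊕ Fin e → Fin (N + 1 + n) ⊕ Fin e → MvPolynomial (Fin M) ℤ :=
    Sum.elim 0 fun k => Sum.elim (Fin.append 0 (pl k)) (Pi.single k 1)
  have key : ∀ (y : Fin M → ℂ) (l' : List (Fin q)) (l : List (Fin e)),
      tc (Θ 0) (fun k => evv y (pl k)) (fun j => (evv y (pw j), evv y (pv j))) l' l =
        ew (hx h₀) ((l.map Sum.inr ++ l'.map Sum.inl).map
          fun j => (bx n e (evv y (pa j)), evv y (pm j))) (fun _ => 1) 0 := by
    intro y l' l
    rw [tc_eq hS.1 (hΘ.hol 0 0) hΘ.ne0 _ (fun k => evv y (pm (Sum.inr k)))]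
    · rw [List.map_append, List.map_map, List.map_map]
      rfl
    · intro k
      have h2 : ∀ᶠ p in 𝓝 (0 : GE n e), Θ 0 p.1 ≠ 0 :=
        (continuous_fst.tendsto (0 : GE n e)).eventually
          ((hΘ.hol 0 0).continuousAt.eventually_ne hΘ.ne0)
      filter_upwards [h2] with p hp
      have h3 : evv y (pl k) = ∑ j, evv y (pl k) j • (Pi.single j 1 : Fin n → ℂ) := by
        funext i; simp [Pi.single_apply]
      have h4 : ∑ j, evv y (pm (Sum.inr k)) (Sum.inr j) * p.2 j = p.2 k := by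
        rw [Finset.sum_eq_single k] <;> simp +contextual [evv, pm]
      rw [dotProduct, Fintype.sum_sum_type, Fin.sum_univ_add, h3, map_sum]
      simp only [hx, Sum.elim_inl, Sum.elim_inr, h4]
      simp only [evv, pm, hh₀, Sum.elim_inl, Sum.elim_inr, Fin.append_left, Fin.append_right,
        Pi.zero_apply, map_zero, zero_mul, Finset.sum_const_zero, zero_add, map_smul, smul_eq_mul,
        mul_add, Finset.mul_sum]
      congr 1
      · refine Finset.sum_congr rfl fun j _ => ?_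
        field_simp
      · ring
  obtain ⟨m, θ, C, hC, hθ, h1, h2⟩ :=
    hT (GE n e) _ _ (Fin q ⊕ Fin e) M (bx n e) (hx h₀) x pa pm hS
  refine ⟨m, θ, C, hC, hθ, fun T l' l hl => ?_, fun ι ι' _ cf wo wl H => ?_⟩
  · rw [key]
    exact h1 T _ (by simp; omega)
  · simp only [key] at H ⊢
    exact h2 ι ι' cf (fun k i => (wl i).map Sum.inr ++ (wo k).map Sum.inl) H

end

end Pool.Agent.SHP

end MrgPart1

-- ======== part 2: formerly Pool.Agent.MP_cbf1af_ag.shp.Core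
section MrgPart2

/-! PROJECT SHARP: the transcendence argument. -/

namespace Pool.Agent.SHP

open Filter Topology Module
open Pool.Agent.CMP (Qb Sz wd)
open Pool.Agent.CMQ (IsTheta GE Cl Wt Disc OrdL)

namespace Cre

theorem words (q T : ℕ) : ∃ (n : ℕ) (wo : Fin n → List (Fin q)),
    n ≤ 2 ^ ((q + 1) * T) ∧ (∀ i, (wo i).length ≤ T) ∧
      ∀ l : List (Fin q), l.length ≤ T → ∃ i, wo i = l := by
  rcases Nat.eq_zero_or_pos q with rfl | hq
  · refine ⟨1, fun _ => [], Nat.one_le_two_pow, fun _ => Nat.zero_le _, fun l _ => ⟨0, ?_⟩⟩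
    cases l with
    | nil => rfl
    | cons a _ => exact a.elim0
  · exact CMP.exists_words q T hq

theorem arZ {T a δ f C e : ℕ} (hδ : 1 ≤ δ) (ha : 1 ≤ a) (he : e ≤ a + f)
    (h : T ^ a * δ ^ f ≤ C * δ ^ e) : T ≤ C * δ := by
  by_contra hc
  push Not at hc
  have h1 : T ^ a * δ ^ f ≤ C * δ ^ a * δ ^ f := by
    rw [mul_assoc, ← pow_add]
    exact h.trans (Nat.mul_le_mul_left _ (Nat.pow_le_pow_right hδ he))
  have h2 := Nat.le_of_mul_le_mul_right h1 (by positivity)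
  have h3 : (C * δ) ^ a < T ^ a := Nat.pow_lt_pow_left hc (by omega)
  have h4 : C ≤ C ^ a := Nat.le_self_pow (by omega) C
  rw [mul_pow] at h3
  exact absurd (h2.trans (Nat.mul_le_mul_right _ h4)) (by omega)

variable {n N e q : ℕ} {Θ : Fin (N + 1) → V n → ℂ} {Λ : AddSubgroup (V n)}
  {η : V n → V n →ₗ[ℂ] ℂ} {u : V n → ℝ} {L : V n →ₗ[ℝ] V n →ₗ[ℂ] ℂ}

theorem sum_single (x : Fin q → ℂ) :
    (0 : Fin q → ℂ) + ∑ j, x j • (Pi.single j 1 : Fin q → ℂ) = x := by
  funext i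
  simp [Finset.sum_apply, Pi.single_apply]

theorem an_lin (W : Fin q → GE n e) (x : Fin q → ℂ) :
    AnalyticAt ℂ (fun x : Fin q → ℂ => ∑ j, x j • W j) x :=
  Finset.analyticAt_fun_sum _ fun j _ =>
    ((ContinuousLinearMap.proj (R := ℂ) (φ := fun _ : Fin q => ℂ) j).analyticAt x).smul
      analyticAt_const

theorem an_quot (h : IsTheta Θ Λ η) {F : GE n e → ℂ} (hF : ∀ p, AnalyticAt ℂ F p)
    (W : Fin q → GE n e) {x : Fin q → ℂ} (hx : Θ 0 (∑ j, x j • W j).1 ≠ 0) :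
    AnalyticAt ℂ (fun x : Fin q → ℂ => F (∑ j, x j • W j) / Θ 0 (∑ j, x j • W j).1) x :=
  ((hF _).fun_comp (an_lin W x)).div (((h.analyticAt_fst 0 _).fun_comp (an_lin W x))) hx

theorem wd_eq (hO : OpsStmt) (h : IsTheta Θ Λ η) (ℓ : Fin e → V n) (W : Fin q → GE n e) {D : ℕ}
    (cf : (Fin e → Fin (D + 1)) → ℤ) (l : List (Fin q)) :
    wd (fun i => Pi.single i 1) l (fun x : Fin q → ℂ =>
      (∑ α, (cf α : ℂ) * fw (Θ 0) ℓ (mw α) (∑ j, x j • W j)) / Θ 0 (∑ j, x j • W j).1) 0 =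
      ∑ α, (cf α : ℂ) * tc (Θ 0) ℓ W l (mw α) := by
  simp only [tc, Finset.sum_div, mul_div_assoc]
  exact CMP.wd_sum _ l _ _ fun α _ =>
    an_quot h ((hO n N Θ Λ η h e ℓ).1 _).analyticAt W (by simpa using h.ne0)

theorem cl_aux (hO : OpsStmt) (h : IsTheta Θ Λ η) (ℓ : Fin e → V n) {D : ℕ}
    (cf : (Fin e → Fin (D + 1)) → ℤ) :
    Cl Θ Λ η ℓ 1 (e * D + 1) fun p => ∑ α, (cf α : ℂ) * fw (Θ 0) ℓ (mw α) p :=
  Cl.sum _ fun α _ => (((hO n N Θ Λ η h e ℓ).1 _).mono
    ((length_mw_le α).trans (Nat.le_succ _))).smul _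

/-- the multiplicity estimate for the auxiliary functions -/
theorem mult (hZ : CMQ.ZeroStmt) (hO : OpsStmt) (h : IsTheta Θ Λ η) (hW : Wt Θ Λ η u L) (e : ℕ) :
    ∃ KZ CZ : ℕ, ∀ (q : ℕ) (ℓ : Fin e → V n) (W : Fin q → GE n e) (D T : ℕ)
      (cf : (Fin e → Fin (D + 1)) → ℤ), cf ≠ 0 →
      Semi Λ L ℓ (Submodule.span ℂ (Set.range W)) → CZ * (e * D + 1) < T →
      ∃ l : List (Fin q), l.length ≤ KZ * T ∧ ∑ α, (cf α : ℂ) * tc (Θ 0) ℓ W l (mw α) ≠ 0 := by
  obtain ⟨KZ, CZ, hz⟩ := hZ n N Θ Λ η u L h hW e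
  refine ⟨KZ, CZ, fun q ℓ W D T cf hcf hS hT => ?_⟩
  by_contra hc
  push Not at hc
  have hcl := cl_aux hO h ℓ cf
  have hne : (fun p => ∑ α, (cf α : ℂ) * fw (Θ 0) ℓ (mw α) p) ≠ 0 := by
    intro h0
    refine hcf (funext fun α => ?_)
    have := Fintype.linearIndependent_iff.1 ((hO n N Θ Λ η h e ℓ).2 D) (fun α => (cf α : ℂ))
      (by
        funext p
        simpa [Finset.sum_apply] using congrFun h0 p) α
    exact_mod_cast this
  have h00 : Θ 0 (∑ j, (0 : Fin q → ℂ) j • W j).1 ≠ 0 := by simpa using h.ne0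
  have ho := (CMP.ordIff q q (fun i => Pi.single i 1) _ 0 (KZ * T + 1)
    (an_quot h hcl.analyticAt W h00)).2 fun l hl => by
      rw [wd_eq hO h]
      exact hc l (by omega)
  simp only [CMP.Ord, sum_single] at ho
  have hcont : ContinuousAt (fun x : Fin q → ℂ => Θ 0 (∑ j, x j • W j).1) 0 :=
    ((h.analyticAt_fst 0 _).fun_comp (an_lin W 0)).continuousAt
  have ho' : OrdL W (KZ * T + 1) (fun p => ∑ α, (cf α : ℂ) * fw (Θ 0) ℓ (mw α) p) 0 := by
    have := (hcont.tendsto.isBigO_one ℝ).mul ho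
    simp only [one_mul] at this
    refine this.congr' ?_ EventuallyEq.rfl
    filter_upwards [hcont.eventually_ne h00] with x hx
    rw [zero_add, mul_div_cancel₀ _ hx]
  obtain ⟨𝔥, h1, h2, h3, h4⟩ := hz q ℓ W 1 (e * D + 1) T _ hcl hne le_rfl (by omega) (by omega) ho'
  obtain ⟨h5, h6⟩ := hS 𝔥 h1 h2 h3
  simp only [one_pow, mul_one] at h4
  exact absurd (arZ (by omega) h5 h6 h4) (by omega)

/-- the lower bound for one Taylor coefficient -/
theorem lower (hZ : CMQ.ZeroStmt) (hO : OpsStmt) (hS : SizeStmt) (h : IsTheta Θ Λ η)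
    (hW : Wt Θ Λ η u L) {M t : ℕ} (x : Fin M → ℂ) (pl : Fin e → Fin n → MvPolynomial (Fin M) ℤ)
    (pw : Fin q → Fin n → MvPolynomial (Fin M) ℤ) (pv : Fin q → Fin e → MvPolynomial (Fin M) ℤ)
    (hsemi : ∀ x', Spc x x' → Semi Λ L (fun k => evv x' (pl k))
      (Submodule.span ℂ (Set.range fun j => (evv x' (pw j), evv x' (pv j)))))
    (ht : Algebra.trdeg ℚ (IntermediateField.adjoin ℚ (Set.range x)) ≤ t) :
    ∃ KZ CZ CT CL : ℕ, 1 ≤ CT ∧ ∀ (D H T0 T S : ℕ) (cf : (Fin e → Fin (D + 1)) → ℤ), cf ≠ 0 →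
      (∀ α, (cf α).natAbs ≤ 2 ^ H) → CZ * (e * D + 1) < T0 → KZ * T0 + e * D ≤ T → 1 ≤ T →
      (q + 1) * T ≤ S → (D + 1) ^ e * (2 ^ H * (CT * (T + 1)) ^ T) ≤ 2 ^ S →
      ∃ l : List (Fin q), l.length ≤ T ∧
        Real.exp (-(CL * ((CT * T : ℕ) : ℝ) ^ t * (S + (CT * T : ℕ)))) ≤
          ‖∑ α, (cf α : ℂ) * tc (Θ 0) (fun k => evv x (pl k))
            (fun j => (evv x (pw j), evv x (pv j))) l (mw α)‖ := by
  obtain ⟨KZ, CZ, hz⟩ := mult hZ hO h hW e
  obtain ⟨m, θ, CT, hCT, hθ, hsz, hunit⟩ := hS n N Θ Λ η h e q M x pl pw pv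
  obtain ⟨CL, hCL⟩ := CMP.liou' m t θ ((CMP.trdeg_adjoin_le θ _ hθ).trans ht)
  refine ⟨KZ, CZ, CT, CL, hCT, fun D H T0 T S cf hcf hb hT0 hT hT1 hS1 hS2 => ?_⟩
  obtain ⟨n', wo, hn', hwo, hsur⟩ := words q (KZ * T0)
  have h1 := hunit _ _ cf wo mw fun x' hx' => by
    obtain ⟨l, hl, hl'⟩ := hz q _ _ D T0 cf hcf (hsemi x' hx') hT0
    obtain ⟨i, rfl⟩ := hsur l hl
    exact ⟨i, hl'⟩
  obtain ⟨i, hi⟩ := hCL n' (CT * T) S _ (Nat.mul_pos hCT hT1)
    (hn'.trans (Nat.pow_le_pow_right two_pos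
      ((Nat.mul_le_mul_left _ (by omega)).trans hS1)))
    (fun i => by
      refine (Sz.sum Finset.univ _ fun α _ => ((hsz T (wo i) (mw α)
        (by linarith [hwo i, length_mw_le α])).intCast_mul (cf α)).mono le_rfl
          (Nat.mul_le_mul_right _ (hb α))).mono le_rfl (le_trans (le_of_eq ?_) hS2)
      simp) h1
  exact ⟨wo i, by linarith [hwo i, Nat.zero_le (e * D)], hi⟩

/-- the upper bound for the Taylor coefficients -/
theorem upper (hO : OpsStmt) (hA : AuxStmt) (h : IsTheta Θ Λ η) (hW : Wt Θ Λ η u L) {s c : ℕ}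
    {lam : Fin s → V n} {ℓ : Fin e → V n} (W : Fin q → GE n e) (hl : ∀ i, lam i ∈ Λ)
    (hR : LinearIndependent ℝ lam)
    (hcs : c + s = 2 * finrank ℂ (Submodule.span ℂ (Set.range lam)))
    (hν : ∀ ν, (0, ν) ∈ PS η lam ℓ → ν = 0) (hmem : ∀ j, W j ∈ PS η lam ℓ) :
    ∃ CA CW : ℕ, 1 ≤ CA ∧ ∀ D v H : ℕ, 1 ≤ v → H ≤ v ^ 2 →
      (D + 2) ^ (CA * (D + 1)) ≤ 2 ^ v ^ 2 → CA * v ^ (c + 2) ≤ (D + 1) ^ e * H →
      ∃ cf : (Fin e → Fin (D + 1)) → ℤ, cf ≠ 0 ∧ (∀ α, (cf α).natAbs ≤ 2 ^ H) ∧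
        ∀ (T E : ℕ) (l : List (Fin q)), l.length ≤ T → CW * (T * v) ≤ 2 ^ E →
          ‖∑ α, (cf α : ℂ) * tc (Θ 0) ℓ W l (mw α)‖ ≤
            Real.exp (CA - (v : ℝ) ^ 2 + (E * T : ℕ)) := by
  obtain ⟨CA, hCA, haux⟩ := hA n N Θ Λ η u L h hW s c e lam ℓ hl hR hcs hν
  obtain ⟨Cw, hCw⟩ := exists_nat_ge (∑ j, ‖W j‖)
  refine ⟨CA, CA * (Cw + 1), hCA, fun D v H hv hH h1 h2 => ?_⟩
  obtain ⟨cf, hcf, hb, hsm⟩ := haux D v H hv hH h1 h2
  refine ⟨cf, hcf, hb, fun T E l hlT hE => ?_⟩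
  have hp1 : (0 : ℝ) < CA * v := by positivity
  have hp2 : (0 : ℝ) < Cw + 1 := by positivity
  have key := CMP.cauchy q q (fun i => Pi.single i 1) (fun x : Fin q → ℂ =>
      (∑ α, (cf α : ℂ) * fw (Θ 0) ℓ (mw α) (∑ j, x j • W j)) / Θ 0 (∑ j, x j • W j).1) 0
    (1 / (CA * v : ℝ) / (Cw + 1)) (Real.exp (CA - (v : ℝ) ^ 2)) l
    (by positivity) fun x hx => by
      rw [sum_single]
      have hmem' : ∑ j, x j • W j ∈ PS η lam ℓ :=
        Submodule.sum_mem _ fun j _ => Submodule.smul_mem _ _ (hmem j)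
      have hnorm : ‖∑ j, x j • W j‖ ≤ 1 / (CA * v : ℝ) := by
        have h1 : ‖∑ j, x j • W j‖ ≤ ‖x‖ * ∑ j, ‖W j‖ := by
          rw [Finset.mul_sum]
          refine (norm_sum_le _ _).trans (Finset.sum_le_sum fun j _ => ?_)
          rw [norm_smul]
          exact mul_le_mul_of_nonneg_right (norm_le_pi_norm x j) (norm_nonneg _)
        rw [le_div_iff₀ hp2] at hx
        refine h1.trans (le_trans ?_ hx)
        exact mul_le_mul_of_nonneg_left (by linarith) (norm_nonneg _)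
      obtain ⟨h1, h2⟩ := hsm _ hmem' hnorm
      exact ⟨an_quot h (cl_aux hO h ℓ cf).analyticAt W h1, h2⟩
  rw [wd_eq hO h] at key
  refine key.trans ?_
  rw [Real.exp_add]
  refine mul_le_mul_of_nonneg_left ?_ (Real.exp_pos _).le
  have h1 : (l.length : ℝ) / (1 / (CA * v : ℝ) / (Cw + 1)) ≤ ((2 ^ E : ℕ) : ℝ) := by
    have h2 : (l.length : ℝ) / (1 / (CA * v : ℝ) / (Cw + 1)) =
        ((CA * (Cw + 1) * (l.length * v) : ℕ) : ℝ) := by
      push_cast
      field_simp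
    rw [h2]
    exact_mod_cast (Nat.mul_le_mul_left _ (Nat.mul_le_mul_right _ hlT)).trans hE
  refine le_trans ?_ (CMP.two_pow_le_exp (E * T))
  calc _ ≤ ((2 ^ E : ℕ) : ℝ) ^ l.length := pow_le_pow_left₀ (by positivity) h1 _
    _ ≤ ((2 ^ E : ℕ) : ℝ) ^ T :=
      pow_le_pow_right₀ (by exact_mod_cast Nat.one_le_two_pow) hlT
    _ = _ := by push_cast; rw [← pow_mul]

theorem ar1 {CA ν c e t : ℕ} (hν : CA ≤ ν) (hν1 : 1 ≤ ν) (hcon : (c + 2) * (t + 1) < 2 * (e + 1)) :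
    CA * (ν ^ ((c + 3) * (t + 1) + 1)) ^ (c + 2) ≤
      (ν ^ (2 * (c + 3)) + 1) ^ e * ν ^ (2 * (c + 3)) := by
  refine le_trans ?_ (Nat.mul_le_mul_right _ (Nat.pow_le_pow_left (Nat.le_succ _) e))
  rw [← pow_mul, ← pow_mul, ← pow_add]
  refine (Nat.mul_le_mul_right _ hν).trans ?_
  rw [← pow_succ']
  refine Nat.pow_le_pow_right hν1 ?_
  have h1 : (c + 3) * ((c + 2) * (t + 1) + 1) ≤ (c + 3) * (2 * (e + 1)) :=
    Nat.mul_le_mul_left _ hcon
  linarith

theorem ar2 {CA ν κ H w : ℕ} (hν1 : 1 ≤ ν) (hH : H = ν ^ κ) (hν : 2 * CA * (3 + κ) ≤ ν)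
    (hw : H * ν ^ 2 ≤ w) : (H + 2) ^ (CA * (H + 1)) ≤ 2 ^ w := by
  have hH1 : 1 ≤ H := hH ▸ Nat.one_le_pow _ _ hν1
  have h1 : H + 2 ≤ 2 ^ ((3 + κ) * ν) := by
    refine le_trans ?_ (CMP.mul_pow_le_two_pow 3 κ ν hν1)
    rw [← hH]
    omega
  refine (Nat.pow_le_pow_left h1 _).trans ?_
  rw [← pow_mul]
  refine Nat.pow_le_pow_right two_pos (le_trans ?_ hw)
  calc (3 + κ) * ν * (CA * (H + 1)) ≤ (3 + κ) * ν * (CA * (2 * H)) :=
        Nat.mul_le_mul_left _ (Nat.mul_le_mul_left _ (by omega))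
    _ = 2 * CA * (3 + κ) * (ν * H) := by ring
    _ ≤ ν * (ν * H) := Nat.mul_le_mul_right _ hν
    _ = _ := by ring

theorem ar3 {CT e H K ν κ X : ℕ} (hν1 : 1 ≤ ν) (hH : H = ν ^ κ) :
    (H + 1) ^ e * (2 ^ H * (CT * (K * H + 1)) ^ (K * H)) ≤
      2 ^ ((e + 1 + (CT * (K + 1) + κ) * K + X) * (ν * H)) := by
  have hH1 : 1 ≤ H := hH ▸ Nat.one_le_pow _ _ hν1
  have hνH : H ≤ ν * H := Nat.le_mul_of_pos_left H hν1
  have h1 : (H + 1) ^ e ≤ 2 ^ (e * (ν * H)) := by
    rw [mul_comm e, pow_mul]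
    exact Nat.pow_le_pow_left (Nat.lt_two_pow_self.trans_le (Nat.pow_le_pow_right two_pos hνH)) e
  have h2 : 2 ^ H ≤ 2 ^ (ν * H) := Nat.pow_le_pow_right two_pos hνH
  have h3 : CT * (K * H + 1) ≤ 2 ^ ((CT * (K + 1) + κ) * ν) := by
    refine le_trans ?_ (CMP.mul_pow_le_two_pow (CT * (K + 1)) κ ν hν1)
    rw [← hH, mul_assoc]
    exact Nat.mul_le_mul_left _ (by linarith)
  have h4 := Nat.pow_le_pow_left h3 (K * H)
  rw [← pow_mul] at h4
  refine (Nat.mul_le_mul h1 (Nat.mul_le_mul h2 h4)).trans ?_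
  rw [← pow_add, ← pow_add]
  refine Nat.pow_le_pow_right two_pos ?_
  linarith [Nat.zero_le (X * (ν * H))]

theorem ar4 {CL CA CT H K K4 K7 X ν w t : ℕ} (hH1 : 1 ≤ H) (hw : w = H ^ (t + 1) * ν ^ 2)
    (hν : ν = CL * (CT * K) ^ t * (K4 + CT * K) + CA + K7 * K + X + 1)
    (hfin : w ≤ CL * (CT * (K * H)) ^ t * (K4 * (ν * H) + CT * (K * H)) + CA +
      K7 * ν * (K * H)) : False := by
  have hν1 : 1 ≤ ν := by omega
  have hνH : H ≤ ν * H := Nat.le_mul_of_pos_left H hν1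
  have hHt : H ≤ H ^ (t + 1) := Nat.le_self_pow (by omega) H
  have h1 : CL * (CT * (K * H)) ^ t * (K4 * (ν * H) + CT * (K * H)) ≤
      CL * (CT * K) ^ t * (K4 + CT * K) * (ν * H ^ (t + 1)) := by
    have h2 : K4 * (ν * H) + CT * (K * H) ≤ (K4 + CT * K) * (ν * H) := by
      linarith [Nat.mul_le_mul_left (CT * K) hνH]
    refine (Nat.mul_le_mul_left _ h2).trans (le_of_eq ?_)
    rw [← mul_assoc CT, mul_pow (CT * K)]
    ring
  have h6 : 0 < ν * H ^ (t + 1) := by positivity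
  have h3 : CA ≤ CA * (ν * H ^ (t + 1)) := Nat.le_mul_of_pos_right _ h6
  have h4 : K7 * ν * (K * H) ≤ K7 * K * (ν * H ^ (t + 1)) := by
    calc _ = K7 * K * (ν * H) := by ring
      _ ≤ _ := Nat.mul_le_mul_left _ (Nat.mul_le_mul_left _ hHt)
  have h5 : w = ν * (ν * H ^ (t + 1)) := by rw [hw]; ring
  generalize ν * H ^ (t + 1) = Y at h1 h3 h4 h5 h6
  have h7 : ν * Y = CL * (CT * K) ^ t * (K4 + CT * K) * Y + CA * Y + K7 * K * Y + X * Y + Y := by
    conv_lhs => rw [hν]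
    ring
  linarith [Nat.zero_le (X * Y)]

end Cre

open Cre in
theorem core (hZ : CMQ.ZeroStmt) (hO : OpsStmt) (hA : AuxStmt) (hS : SizeStmt) : CoreStmt := by
  intro n N Θ Λ η u L h hW s c e q t M lam x pl pw pv hl hR hcs hvert hmem hsemi ht
  by_contra hcon
  push Not at hcon
  obtain ⟨KZ, CZ, CT, CL, hCT, hlow⟩ := lower hZ hO hS h hW x pl pw pv hsemi ht
  obtain ⟨CA, CW, hCA, hup⟩ := upper hO hA h hW (fun j => (evv x (pw j), evv x (pv j))) hl hR hcs
    hvert hmem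
  obtain ⟨κ, hκ⟩ : ∃ κ, κ = 2 * (c + 3) := ⟨_, rfl⟩
  obtain ⟨K0, hK0⟩ : ∃ K0, K0 = CZ * (e + 1) + 1 := ⟨_, rfl⟩
  obtain ⟨K, hK⟩ : ∃ K, K = KZ * K0 + e + 1 := ⟨_, rfl⟩
  obtain ⟨K4, hK4⟩ : ∃ K4, K4 = e + 1 + (CT * (K + 1) + κ) * K + (q + 1) * K := ⟨_, rfl⟩
  obtain ⟨K7, hK7⟩ : ∃ K7, K7 = CW * K + (κ + ((c + 3) * (t + 1) + 1)) := ⟨_, rfl⟩
  obtain ⟨ν, hν⟩ : ∃ ν, ν = CL * (CT * K) ^ t * (K4 + CT * K) + CA + K7 * K +
    2 * CA * (3 + κ) + 1 := ⟨_, rfl⟩
  have hν1 : 1 ≤ ν := hν ▸ Nat.le_add_left _ _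
  have hνA : CA ≤ ν := by omega
  have hνB : 2 * CA * (3 + κ) ≤ ν := by omega
  obtain ⟨H, hH⟩ : ∃ H, H = ν ^ κ := ⟨_, rfl⟩
  obtain ⟨v, hv⟩ : ∃ v, v = ν ^ ((c + 3) * (t + 1) + 1) := ⟨_, rfl⟩
  have hH1 : 1 ≤ H := hH ▸ Nat.one_le_pow _ _ hν1
  have hv2 : v ^ 2 = H ^ (t + 1) * ν ^ 2 := by
    rw [hv, hH, hκ, ← pow_mul, ← pow_mul, ← pow_add]
    congr 1
    ring
  have hHt : H ≤ H ^ (t + 1) := Nat.le_self_pow (by omega) H
  obtain ⟨cf, hcf, hb, hsm⟩ := hup H v H (hv ▸ Nat.one_le_pow _ _ hν1)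
    (hv2 ▸ hHt.trans (Nat.le_mul_of_pos_right _ (by positivity)))
    (ar2 hν1 hH hνB (hv2 ▸ Nat.mul_le_mul_right _ hHt))
    (by rw [hv, hH, hκ]; exact ar1 hνA hν1 hcon)
  obtain ⟨l, hlT, hlo⟩ := hlow H H (K0 * H) (K * H) (K4 * (ν * H)) cf hcf hb
    (by rw [hK0]; nlinarith [Nat.mul_le_mul_left CZ hH1])
    (by rw [hK]; nlinarith) (Nat.mul_pos (by omega) hH1)
    (by
      calc (q + 1) * (K * H) = (q + 1) * K * H := by ring
        _ ≤ K4 * (ν * H) :=
          Nat.mul_le_mul (hK4 ▸ Nat.le_add_left _ _) (Nat.le_mul_of_pos_left H hν1))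
    (hK4 ▸ ar3 hν1 hH)
  have hup' := hsm (K * H) (K7 * ν) l hlT (by
    rw [hK7]
    refine le_trans (le_of_eq ?_) (CMP.mul_pow_le_two_pow _ _ ν hν1)
    rw [pow_add, ← hH, ← hv]
    ring)
  have hfin := Real.exp_le_exp.1 (hlo.trans hup')
  refine ar4 hH1 hv2 hν ?_
  have : ((v ^ 2 : ℕ) : ℝ) ≤ ((CL * (CT * (K * H)) ^ t * (K4 * (ν * H) + CT * (K * H)) + CA +
      K7 * ν * (K * H) : ℕ) : ℝ) := by
    push_cast at hfin ⊢
    linarith only [hfin]
  exact_mod_cast this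

end Pool.Agent.SHP

end MrgPart2

-- ======== part 3: formerly Pool.Agent.MP_cbf1af_ag.shp.Lin
section MrgPart3

/-! PROJECT SHARP, row LIN: the forms killing the vertical part of the graph. -/

namespace Pool.Agent.SHP

open Module

noncomputable section

namespace Lin

variable {g : ℕ}

theorem app_l (y : V g × V g) (j : Fin g) : app g g y (Fin.castAdd g j) = y.1 j := by
  simp [app]

theorem app_r (y : V g × V g) (j : Fin g) : app g g y (Fin.natAdd g j) = y.2 j :=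
  Fin.append_right y.1 y.2 j

theorem dot_app (a b : V g × V g) : app g g a ⬝ᵥ app g g b = a.1 ⬝ᵥ b.1 + a.2 ⬝ᵥ b.2 := by
  simp only [dotProduct, Fin.sum_univ_add, app_l, app_r]

theorem expand (φ : V g →ₗ[ℂ] V g) (y : V g) (j : Fin g) :
    (fun i => φ (Pi.single i 1) j) ⬝ᵥ y = φ y j := by
  have h : y = ∑ i, y i • (Pi.single i 1 : V g) := by
    funext k
    simp [Finset.sum_apply, Pi.single_apply]
  conv_rhs => rw [h]
  simp [map_sum, Finset.sum_apply, dotProduct, mul_comm]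

variable (Γ : (V g × V g) →ₗ[ℂ] (V g × V g))

/-- the upper right block -/
def b12 : V g →ₗ[ℂ] V g := LinearMap.fst ℂ _ _ ∘ₗ Γ ∘ₗ LinearMap.inr ℂ _ _

/-- the lower right block -/
def b22 : V g →ₗ[ℂ] V g := LinearMap.snd ℂ _ _ ∘ₗ Γ ∘ₗ LinearMap.inr ℂ _ _

/-- the rows -/
def rows : Matrix (Fin g ⊕ Fin g) (Fin (g + g)) ℂ :=
  Matrix.of (Sum.elim
    (fun j => app g g (fun i => -b22 Γ (Pi.single i 1) j, Pi.single j 1))
    (fun j => app g g (fun i => b12 Γ (Pi.single i 1) j, 0)))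

theorem rows_l (j : Fin g) (b : V g × V g) :
    (rows Γ).mulVec (app g g b) (Sum.inl j) = b.2 j - b22 Γ b.1 j := by
  have h : (rows Γ).mulVec (app g g b) (Sum.inl j) =
      app g g (fun i => -b22 Γ (Pi.single i 1) j, Pi.single j 1) ⬝ᵥ app g g b := rfl
  rw [h, dot_app, ← expand (b22 Γ) b.1 j]
  simp only [single_dotProduct, one_mul]
  simp only [dotProduct, neg_mul, Finset.sum_neg_distrib]
  ring

theorem rows_r (j : Fin g) (b : V g × V g) :
    (rows Γ).mulVec (app g g b) (Sum.inr j) = b12 Γ b.1 j := by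
  have h : (rows Γ).mulVec (app g g b) (Sum.inr j) =
      app g g (fun i => b12 Γ (Pi.single i 1) j, 0) ⬝ᵥ app g g b := rfl
  rw [h, dot_app, ← expand (b12 Γ) b.1 j]
  simp

/-- horizontal component of the graph -/
def hor : (V g × V g) →ₗ[ℂ] V (g + g) := LinearMap.fst ℂ _ _ ∘ₗ gr Γ

theorem hor_apply (y : V g × V g) : hor Γ y = app g g (y.1, (Γ y).1) := rfl

theorem gr_snd (y : V g × V g) : (gr Γ y).2 = -app g g (y.2, (Γ y).2) := rfl

theorem hor_zero {y : V g × V g} (h : hor Γ y = 0) : y = (0, y.2) ∧ b12 Γ y.2 = 0 := by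
  rw [hor_apply, LinearEquiv.map_eq_zero_iff, Prod.mk_eq_zero] at h
  have h1 : y = (0, y.2) := Prod.ext h.1 rfl
  refine ⟨h1, ?_⟩
  have h2 := h.2
  rw [h1] at h2
  exact h2

theorem ker_hor : LinearMap.ker (hor Γ) = (LinearMap.ker (b12 Γ)).map (LinearMap.inr ℂ _ _) := by
  ext y
  constructor
  · intro h
    obtain ⟨h1, h2⟩ := hor_zero Γ h
    exact ⟨y.2, h2, h1.symm⟩
  · rintro ⟨z, hz, rfl⟩
    rw [LinearMap.mem_ker, hor_apply, LinearEquiv.map_eq_zero_iff, Prod.mk_eq_zero]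
    exact ⟨rfl, hz⟩

/-- parametrisation of the common kernel of the rows -/
def par : V g →ₗ[ℂ] V (g + g) :=
  (app g g).toLinearMap ∘ₗ LinearMap.prod LinearMap.id (b22 Γ)

theorem par_apply (z : V g) : par Γ z = app g g (z, b22 Γ z) := rfl

theorem par_inj : Function.Injective (par Γ) := by
  intro a b h
  rw [par_apply, par_apply] at h
  exact congrArg Prod.fst ((app g g).injective h)

theorem ker_rows :
    LinearMap.ker (rows Γ).mulVecLin = (LinearMap.ker (b12 Γ)).map (par Γ) := by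
  ext w
  obtain ⟨b, rfl⟩ := (app g g).surjective w
  constructor
  · intro h
    have h' : (rows Γ).mulVec (app g g b) = 0 := h
    refine ⟨b.1, ?_, ?_⟩
    · show b12 Γ b.1 = 0
      funext j
      rw [← rows_r, h']
      rfl
    · rw [par_apply]
      congr 1
      refine Prod.ext rfl ?_
      funext j
      have := rows_l Γ j b
      rw [h'] at this
      exact (sub_eq_zero.mp this.symm).symm
  · rintro ⟨z, hz, h⟩
    rw [← h]
    show (rows Γ).mulVec (app g g (z, b22 Γ z)) = 0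
    have hz' : b12 Γ z = 0 := hz
    funext k
    rcases k with j | j
    · rw [rows_l]; simp
    · rw [rows_r, hz']; rfl

theorem rank_rows : (rows Γ).rank + finrank ℂ (LinearMap.ker (b12 Γ)) = g + g := by
  have h := LinearMap.finrank_range_add_finrank_ker (rows Γ).mulVecLin
  rw [ker_rows, ← (Submodule.equivMapOfInjective _ (par_inj Γ) _).finrank_eq] at h
  simpa [Matrix.rank] using h

theorem rank_hor :
    finrank ℂ (LinearMap.range (hor Γ)) + finrank ℂ (LinearMap.ker (b12 Γ)) = g + g := by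
  have h := LinearMap.finrank_range_add_finrank_ker (hor Γ)
  rw [ker_hor, ← (Submodule.equivMapOfInjective _ LinearMap.inr_injective _).finrank_eq] at h
  simpa using h

theorem rows_mem (K : IntermediateField ℚ ℂ) (hK : OverK K Γ) (k : Fin g ⊕ Fin g)
    (j : Fin (g + g)) : rows Γ k j ∈ K := by
  have hs : ∀ i j : Fin g, (Pi.single i 1 : V g) j ∈ K := by
    intro i j
    rw [Pi.single_apply]
    split_ifs
    · exact one_mem K
    · exact zero_mem K
  have hb := fun i : Fin g => hK (0, Pi.single i 1) (fun _ => zero_mem K) (hs i)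
  rcases k with k | k
  · show app g g (fun i => -b22 Γ (Pi.single i 1) k, Pi.single k 1) j ∈ K
    refine Fin.addCases (fun i => ?_) (fun i => ?_) j
    · rw [app_l]; exact neg_mem ((hb i).2 k)
    · rw [app_r]; exact hs k i
  · show app g g (fun i => b12 Γ (Pi.single i 1) k, 0) j ∈ K
    refine Fin.addCases (fun i => ?_) (fun i => ?_) j
    · rw [app_l]; exact (hb i).1 k
    · rw [app_r]; exact zero_mem K

end Lin

open Lin in
theorem lin : LinStmt := by
  intro g Γ K hK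
  obtain ⟨κ, a, ha, hsp, hli⟩ := exists_linearIndependent' ℂ (rows Γ).row
  have : Finite κ := Finite.of_injective a ha
  have : Fintype κ := Fintype.ofFinite κ
  have hcard : Fintype.card κ = (rows Γ).rank := by
    rw [Matrix.rank_eq_finrank_span_row, ← hsp, finrank_span_eq_card hli]
  have h1 := rank_rows Γ
  have h2 := rank_hor Γ
  have h3 : finrank ℂ (LinearMap.ker (b12 Γ)) ≤ g := by
    simpa using Submodule.finrank_le (LinearMap.ker (b12 Γ))
  refine ⟨Fintype.card κ, fun k => rows Γ (a ((Fintype.equivFin κ).symm k)), ?_, by omega,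
    fun k j => rows_mem Γ K hK _ j, hli.comp _ (Fintype.equivFin κ).symm.injective, ?_⟩
  · rw [← LinearMap.range_comp]
    change _ = finrank ℂ (LinearMap.range (hor Γ))
    omega
  · rintro ν ⟨_, ⟨y, rfl⟩, h⟩
    obtain ⟨hy, hb⟩ := hor_zero Γ (y := y) (congrArg Prod.fst h)
    have hν := congrArg Prod.snd h
    have hk : app g g (y.2, (Γ y).2) ∈ LinearMap.ker (rows Γ).mulVecLin := by
      rw [ker_rows]
      refine ⟨y.2, hb, ?_⟩
      rw [par_apply]
      congr 2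
      conv_rhs => rw [hy]
      rfl
    have hk' : (rows Γ).mulVec (app g g (y.2, (Γ y).2)) = 0 := hk
    funext k
    have h4 : ν k = rows Γ (a ((Fintype.equivFin κ).symm k)) ⬝ᵥ (gr Γ y).2 :=
      (congrFun hν k).symm
    rw [h4, gr_snd, dotProduct_neg]
    exact neg_eq_zero.mpr (congrFun hk' _)

end

end Pool.Agent.SHP

end MrgPart3

-- ======== part 4: formerly Pool.Agent.MP_cbf1af_ag.shp.Spc
section MrgPart4

/-! PROJECT SHARP, row SPC: generators and their specialisations. -/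

namespace Pool.Agent.SHP

open MvPolynomial

noncomputable section

namespace SpcM

/-- the linear map with rows `w` -/
def mk {g : ℕ} (w : Fin (g + g) → V (g + g)) : (V g × V g) →ₗ[ℂ] (V g × V g) :=
  (app g g).symm.toLinearMap ∘ₗ Fintype.linearCombination ℂ w ∘ₗ (app g g).toLinearMap

lemma mk_single {g : ℕ} (w : Fin (g + g) → V (g + g)) (j : Fin (g + g)) :
    mk w ((app g g).symm (Pi.single j 1)) = (app g g).symm (w j) := by
  simp [mk, Fintype.linearCombination_apply_single]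

lemma indep {r n : ℕ} {w : Fin r → Fin n → ℂ} {M : Fin n → Fin r → ℂ}
    (h : ∀ j j', ∑ k, w j k * M k j' = if j = j' then 1 else 0) : LinearIndependent ℂ w := by
  refine Fintype.linearIndependent_iff.2 fun c hc j' => ?_
  have h1 : ∑ k, (∑ j, c j • w j) k * M k j' = c j' := by
    simp only [Finset.sum_apply, Pi.smul_apply, smul_eq_mul, Finset.sum_mul, mul_assoc]
    rw [Finset.sum_comm]
    simp [← Finset.mul_sum, h]
  rw [← h1, hc]
  simp

lemma spc_inv {r n m : ℕ} {x x' : Fin m → ℂ} (hs : Spc x x') (a : Fin r → Fin n → Fin m)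
    (b : Fin n → Fin r → Fin m)
    (h : ∀ j j', ∑ k, x (a j k) * x (b k j') = if j = j' then 1 else 0) :
    LinearIndependent ℂ fun j k => x' (a j k) := by
  refine indep (M := fun k j => x' (b k j)) fun j j' => ?_
  have := hs (∑ k, X (a j k) * X (b k j') - if j = j' then 1 else 0)
    (by simp [h, apply_ite (aeval x)])
  simpa [apply_ite (aeval x'), sub_eq_zero] using this

/-- first component of the generators -/
def pa {g : ℕ} {R : Type} [CommRing R] (w : Fin (g + g) → Fin (g + g) → R) (j : Fin (g + g)) :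
    Fin (g + g) → R :=
  Fin.append (fun a => if Fin.castAdd g a = j then 1 else 0) fun a => w j (Fin.castAdd g a)

/-- second component of the generators -/
def pb {g : ℕ} {R : Type} [CommRing R] (w : Fin (g + g) → Fin (g + g) → R) (j : Fin (g + g)) :
    Fin (g + g) → R :=
  Fin.append (fun a => if Fin.natAdd g a = j then 1 else 0) fun a => w j (Fin.natAdd g a)

lemma gen {g e m : ℕ} (x : Fin m → ℂ) (a : Fin (g + g) → Fin (g + g) → Fin m)
    (c : Fin e → Fin (g + g) → Fin m) (j : Fin (g + g)) :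
    (evv x (pa (fun j k => X (a j k)) j),
      evv x fun k => ∑ i, X (c k i) * -pb (fun j k => X (a j k)) j i) =
    pr (fun k => evv x fun i => X (c k i))
      (gr (mk fun j k => x (a j k)) ((app g g).symm (Pi.single j 1))) := by
  have h1 : gr (mk fun j k => x (a j k)) ((app g g).symm (Pi.single j 1)) =
      (pa (fun j k => x (a j k)) j, -pb (fun j k => x (a j k)) j) := by
    simp only [gr, LinearMap.prod_apply, LinearMap.comp_apply, LinearMap.neg_apply, Function.prod,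
      mk_single]
    refine Prod.ext ?_ (congrArg Neg.neg ?_) <;> funext i <;>
      refine Fin.addCases (fun i => ?_) (fun i => ?_) i <;>
      simp [app, pa, pb, p1, p2, LinearMap.funLeft_apply, Pi.single_apply, -Fin.natAdd_eq_addNat]
  have h2 : ∀ i, aeval x (pb (fun j k => (X (a j k) : MvPolynomial (Fin m) ℤ)) j i) =
      pb (fun j k => x (a j k)) j i := fun i => by
    refine Fin.addCases (fun i => ?_) (fun i => ?_) i <;>
      simp [pb, apply_ite (aeval x), -Fin.natAdd_eq_addNat]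
  rw [h1]
  refine Prod.ext ?_ ?_
  · funext i
    refine Fin.addCases (fun i => ?_) (fun i => ?_) i <;>
      simp [evv, pr, pa, apply_ite (aeval x), -Fin.natAdd_eq_addNat]
  · funext k
    simp [evv, pr, h2, Matrix.mulVec, dotProduct]

end SpcM

open SpcM

theorem spc : SpcStmt := by
  intro g e Γ K ℓ hK hΓ hℓ hi
  let w : Fin (g + g) → V (g + g) := fun j => app g g (Γ ((app g g).symm (Pi.single j 1)))
  have hw : LinearIndependent ℂ w := by
    have := (Pi.basisFun ℂ (Fin (g + g))).linearIndependent.map'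
      ((app g g).toLinearMap ∘ₗ Γ ∘ₗ (app g g).symm.toLinearMap)
      (LinearMap.ker_eq_bot.2 ((app g g).injective.comp (hΓ.comp (app g g).symm.injective)))
    have e : w = ((app g g).toLinearMap ∘ₗ Γ ∘ₗ (app g g).symm.toLinearMap) ∘
        Pi.basisFun ℂ (Fin (g + g)) := by
      funext j
      simp [w]
    rw [e]
    exact this
  have wK : ∀ j k, w j k ∈ K := by
    intro j k
    have h1 : ∀ i, (Pi.single j 1 : V (g + g)) i ∈ K := fun i => by
      rw [Pi.single_apply]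
      split_ifs
      exacts [one_mem _, zero_mem _]
    have h2 := hK ((app g g).symm (Pi.single j 1)) (fun i => h1 _) fun i => h1 _
    refine Fin.addCases (fun i => ?_) (fun i => ?_) k
    · simpa [w, app] using h2.1 i
    · simpa [w, app, -Fin.natAdd_eq_addNat] using h2.2 i
  have hm : mk w = Γ := by
    refine ((Pi.basisFun ℂ (Fin (g + g))).map (app g g).symm).ext fun j => ?_
    simp [mk_single, w]
  obtain ⟨M, MK, hM⟩ := CMP.Tay.left_inv w hw K wK
  obtain ⟨N, NK, hN⟩ := CMP.Tay.left_inv ℓ hi K hℓ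
  let σ := ((Fin (g + g) × Fin (g + g)) ⊕ (Fin (g + g) × Fin (g + g))) ⊕
    ((Fin e × Fin (g + g)) ⊕ (Fin (g + g) × Fin e))
  let x₀ : σ → ℂ := Sum.elim (Sum.elim (fun p => w p.1 p.2) fun p => M p.1 p.2)
    (Sum.elim (fun p => ℓ p.1 p.2) fun p => N p.1 p.2)
  let φ := Fintype.equivFin σ
  let a : Fin (g + g) → Fin (g + g) → Fin (Fintype.card σ) := fun j k => φ (.inl (.inl (j, k)))
  let c : Fin e → Fin (g + g) → Fin (Fintype.card σ) := fun j k => φ (.inr (.inl (j, k)))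
  have hx : ∀ s, (x₀ ∘ φ.symm) (φ s) = x₀ s := fun s => by simp
  have ha : (fun j k => (x₀ ∘ φ.symm) (a j k)) = w := by
    funext j k
    exact hx _
  have hc : (fun k => evv (x₀ ∘ φ.symm) fun i => X (c k i)) = ℓ := by
    funext j k
    exact (aeval_X _ _).trans (hx _)
  refine ⟨Fintype.card σ, g + g, x₀ ∘ φ.symm, fun k i => X (c k i), pa fun j k => X (a j k),
    fun j k => ∑ i, X (c k i) * -pb (fun j k => X (a j k)) j i, fun i => ?_,
    fun k => congrFun hc k, fun j => ?_, fun x' hs => ⟨?_, mk fun j k => x' (a j k), ?_, ?_⟩⟩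
  · rw [Function.comp_apply]
    rcases φ.symm i with (p | p) | (p | p)
    exacts [wK _ _, MK _ _, hℓ _ _, NK _ _]
  · rw [gen, ha, hc, hm]
    exact Submodule.mem_map_of_mem (LinearMap.mem_range_self _ _)
  · have := spc_inv hs c (fun k j => φ (.inr (.inr (k, j)))) fun j j' => by
      simp only [c, hx]
      exact hN j j'
    convert this using 1
    funext j k
    exact aeval_X _ _
  · have := spc_inv hs a (fun k j => φ (.inl (.inr (k, j)))) fun j j' => by
      simp only [a, hx]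
      exact hM j j'
    exact (app g g).symm.injective.comp
      ((linearIndependent_iff_injective_fintypeLinearCombination.1 this).comp (app g g).injective)
  · rw [LinearMap.range_eq_map, ← ((Pi.basisFun ℂ (Fin (g + g))).map (app g g).symm).span_eq,
      Submodule.map_span, Submodule.map_span, ← Set.range_comp, ← Set.range_comp]
    congr 2
    funext j
    rw [gen]
    simp

end

end Pool.Agent.SHP

end MrgPart4

-- ======== part 5: formerly Pool.Agent.MP_cbf1af_ag.shp.Main0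
section MrgPart5

/-! PROJECT SHARP: one copy. -/

namespace Pool.Agent.SHP

open Module

theorem main0 (hW : CMQ.WtStmt) (hC : CoreStmt) (hP : ProdStmt) (hG : GraphStmt) (hL : LinStmt)
    (hS : SpcStmt) : Main0Stmt := by
  intro g N₁ N₂ Θ₁ Λ₁ η₁ Θ₂ Λ₂ η₂ h₁ h₂ hom κ _ lam₁ lam₂ hc m₁ m₂ i₁ i₂ μ hμ Γ hΓ K hK t ht
  obtain ⟨N, Θ, h⟩ := hP g g N₁ N₂ Θ₁ Λ₁ η₁ Θ₂ Λ₂ η₂ h₁ h₂
  obtain ⟨u, L, hw⟩ := hW _ _ _ _ _ h
  have hd : Fintype.card κ = finrank ℂ (V g × V g) := by simp [hc, two_mul]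
  have s₁ : Submodule.span ℂ (Set.range fun k => ((lam₁ k, qp η₁ (lam₁ k)) : V g × V g)) = ⊤ :=
    (per_indep h₁ m₁ i₁).span_eq_top_of_card_eq_finrank' hd
  have s₂ : Submodule.span ℂ (Set.range fun k => ((lam₂ k, qp η₂ (lam₂ k)) : V g × V g)) = ⊤ :=
    (per_indep h₂ m₂ i₂).span_eq_top_of_card_eq_finrank' hd
  have hinj : Function.Injective Γ := by
    rw [LinearMap.injective_iff_surjective, ← LinearMap.range_eq_top, eq_top_iff, ← s₂,
      Submodule.span_le]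
    rintro _ ⟨k, rfl⟩
    exact ⟨_, hΓ k⟩
  obtain ⟨e, ℓ, he, hge, hℓK, hℓ, hvert⟩ := hL g Γ K hK
  obtain ⟨M, q, x, pl, pw, pv, hx, hpl, hmem, hspc⟩ := hS g e Γ K ℓ hK hinj hℓK hℓ
  let ε : Fin (2 * g) ≃ κ := (Fintype.equivFinOfCardEq hc).symm
  let lam : Fin (2 * g) → V (g + g) := fun k => app g g (lam₁ (ε k), lam₂ (ε k))
  have hr : LinearMap.range (gr Γ) = Submodule.span ℂ
      (Set.range fun k => ((lam k, -qp (peta η₁ η₂) (lam k)) : CMQ.GE (g + g) (g + g))) := by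
    rw [LinearMap.range_eq_map, ← s₁, Submodule.map_span, ← Set.range_comp,
      ← ε.surjective.range_comp]
    congr 2
    funext k
    simp [gr_apply, hΓ, lam, qp_peta]
  have hPS : PS (peta η₁ η₂) lam (fun k => evv x (pl k)) = (LinearMap.range (gr Γ)).map (pr ℓ) := by
    rw [hr, Submodule.map_span, ← Set.range_comp, PS]
    congr 2
    funext k
    simp [pr_apply, hpl, dot_qp]
  have hfr : finrank ℂ (Submodule.span ℂ (Set.range lam)) = e := by
    rw [he, hr, Submodule.map_span, ← Set.range_comp]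
    rfl
  have hle : e ≤ g + μ := by
    refine le_trans (le_of_eq ?_) hμ
    rw [← hfr, ← LinearEquiv.finrank_map_eq (app g g), Submodule.map_span, ← Set.range_comp,
      ← ε.surjective.range_comp]
    rfl
  have key := hC (g + g) N Θ _ _ u L h hw (2 * g) (2 * (e - g)) e q t M lam x pl pw pv
    (fun k => app_mem_plat.2 ⟨m₁ _, m₂ _⟩)
    (LinearIndependent.of_comp ((p1 g g).restrictScalars ℝ) (by
      convert i₁.comp ε ε.injective using 1
      funext k
      simp [lam]))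
    (by rw [hfr]; omega) (by rw [hPS]; exact hvert) (by rw [hPS]; exact hmem)
    (fun x' hx' => by
      obtain ⟨h1, Γ', h2, h3⟩ := hspc x' hx'
      rw [h3]
      exact hG g N Θ Λ₁ η₁ Λ₂ η₂ u L h hw hom Γ' h2 e _ h1)
    ((CMP.trdeg_adjoin_le x K fun i => Or.inr (hx i)).trans ht)
  obtain ⟨m, rfl⟩ := Nat.exists_eq_add_of_le hge
  rw [Nat.add_sub_cancel_left] at key
  have : m ≤ μ := by omega
  nlinarith [Nat.mul_le_mul_left t this]

end Pool.Agent.SHP

end MrgPart5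

-- ======== part 6: formerly Pool.Agent.MP_cbf1af_ag.shp.Main
section MrgPart6

/-! MAIN: redundant copies. -/

namespace Pool.Agent.SHP

open Module
open Pool.Agent.CMQ (IsTheta)

namespace Mn

variable {g g' h : ℕ}

/-- first inclusion -/
noncomputable def i1 (g g' : ℕ) : V g →ₗ[ℂ] V (g + g') :=
  (app g g').toLinearMap ∘ₗ LinearMap.inl ℂ _ _

/-- second inclusion -/
noncomputable def i2 (g g' : ℕ) : V g' →ₗ[ℂ] V (g + g') :=
  (app g g').toLinearMap ∘ₗ LinearMap.inr ℂ _ _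

theorem p1_i1 (x : V g) : p1 g g' (i1 g g' x) = x :=
  congrArg Prod.fst ((app g g').symm_apply_apply (x, 0))

theorem p2_i1 (x : V g) : p2 g g' (i1 g g' x) = 0 :=
  congrArg Prod.snd ((app g g').symm_apply_apply (x, 0))

theorem p1_i2 (x : V g') : p1 g g' (i2 g g' x) = 0 :=
  congrArg Prod.fst ((app g g').symm_apply_apply (0, x))

theorem p2_i2 (x : V g') : p2 g g' (i2 g g' x) = x :=
  congrArg Prod.snd ((app g g').symm_apply_apply (0, x))

theorem split (z : V (g + g')) : z = i1 g g' (p1 g g' z) + i2 g g' (p2 g g' z) := by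
  conv_lhs => rw [← (app g g').apply_symm_apply z]
  simp only [i1, i2, LinearMap.comp_apply, LinearEquiv.coe_coe, ← map_add]
  simp only [LinearMap.inl_apply, LinearMap.inr_apply, Prod.mk_add_mk, add_zero, zero_add]
  rfl

theorem i1_mem {A : AddSubgroup (V g)} {B : AddSubgroup (V g')} {x : V g} (hx : x ∈ A) :
    i1 g g' x ∈ plat A B :=
  ⟨show p1 g g' (i1 g g' x) ∈ A by rwa [p1_i1],
    show p2 g g' (i1 g g' x) ∈ B by rw [p2_i1]; exact zero_mem _⟩

theorem i2_mem {A : AddSubgroup (V g)} {B : AddSubgroup (V g')} {x : V g'} (hx : x ∈ B) :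
    i2 g g' x ∈ plat A B :=
  ⟨show p1 g g' (i2 g g' x) ∈ A by rw [p1_i2]; exact zero_mem _,
    show p2 g g' (i2 g g' x) ∈ B by rwa [p2_i2]⟩

theorem nh_left {A : AddSubgroup (V g)} {B : AddSubgroup (V g')} {L : AddSubgroup (V h)}
    (hA : NoHom A L) (hB : NoHom B L) : NoHom (plat A B) L := by
  intro φ hφ
  have h1 := hA (φ ∘ₗ i1 g g') fun l hl => hφ _ (i1_mem hl)
  have h2 := hB (φ ∘ₗ i2 g g') fun l hl => hφ _ (i2_mem hl)
  refine LinearMap.ext fun z => ?_
  rw [split z, map_add]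
  exact (congrArg₂ (· + ·) (LinearMap.congr_fun h1 _) (LinearMap.congr_fun h2 _)).trans (by simp)

theorem nh_right {A : AddSubgroup (V g)} {B : AddSubgroup (V g')} {L : AddSubgroup (V h)}
    (hA : NoHom L A) (hB : NoHom L B) : NoHom L (plat A B) := by
  intro φ hφ
  have h1 := hA (p1 g g' ∘ₗ φ) fun l hl => (hφ l hl).1
  have h2 := hB (p2 g g' ∘ₗ φ) fun l hl => (hφ l hl).2
  refine LinearMap.ext fun z => ?_
  rw [split (φ z), show p1 g g' (φ z) = 0 from LinearMap.congr_fun h1 z,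
    show p2 g g' (φ z) = 0 from LinearMap.congr_fun h2 z]
  simp

theorem eta_zero {N : ℕ} {Θ : Fin (N + 1) → V g → ℂ} {Λ : AddSubgroup (V g)}
    {η : V g → V g →ₗ[ℂ] ℂ} (hT : IsTheta Θ Λ η) : η 0 = 0 := by
  obtain ⟨u, L, hw⟩ := CMQ.wt _ _ _ _ _ hT
  rw [← hw.ext 0 (zero_mem _), map_zero]

theorem i1_left (x : V g) (j : Fin g) : i1 g g' x (Fin.castAdd g' j) = x j :=
  congrFun (p1_i1 x) j

theorem i1_right (x : V g) (j : Fin g') : i1 g g' x (Fin.natAdd g j) = 0 :=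
  congrFun (p2_i1 x) j

theorem i2_left (x : V g') (j : Fin g) : i2 g g' x (Fin.castAdd g' j) = 0 :=
  congrFun (p1_i2 x) j

theorem i2_right (x : V g') (j : Fin g') : i2 g g' x (Fin.natAdd g j) = x j :=
  congrFun (p2_i2 x) j

theorem ne_add (i : Fin g) (j : Fin g') : Fin.castAdd g' i ≠ Fin.natAdd g j := fun e => by
  have := congrArg Fin.val e
  simp only [Fin.val_castAdd, Fin.val_natAdd] at this
  omega

theorem single_left (j : Fin g) :
    (Pi.single (Fin.castAdd g' j) 1 : V (g + g')) = i1 g g' (Pi.single j 1) := by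
  funext i
  refine Fin.addCases (fun k => ?_) (fun k => ?_) i
  · rw [i1_left]; simp [Pi.single_apply]
  · rw [i1_right, Pi.single_eq_of_ne (ne_add j k).symm]

theorem single_right (j : Fin g') :
    (Pi.single (Fin.natAdd g j) 1 : V (g + g')) = i2 g g' (Pi.single j 1) := by
  funext i
  refine Fin.addCases (fun k => ?_) (fun k => ?_) i
  · rw [i2_left, Pi.single_eq_of_ne (ne_add k j)]
  · rw [i2_right]; simp [Pi.single_apply]

theorem qp_i1 (η : V g → V g →ₗ[ℂ] ℂ) {η' : V g' → V g' →ₗ[ℂ] ℂ} (h0 : η' 0 = 0) (l : V g) :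
    qp (peta η η') (i1 g g' l) = i1 g g' (qp η l) := by
  funext i
  refine Fin.addCases (fun k => ?_) (fun k => ?_) i
  · simp [qp, peta, single_left, i1_left, p1_i1, p2_i1]
  · simp [qp, peta, single_right, i1_right, p1_i2, p2_i1, h0]

theorem qp_i2 {η : V g → V g →ₗ[ℂ] ℂ} (η' : V g' → V g' →ₗ[ℂ] ℂ) (h0 : η 0 = 0) (l : V g') :
    qp (peta η η') (i2 g g' l) = i2 g g' (qp η' l) := by
  funext i
  refine Fin.addCases (fun k => ?_) (fun k => ?_) i
  · simp [qp, peta, single_left, i2_left, p2_i1, p1_i2, h0]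
  · simp [qp, peta, single_right, i2_right, p1_i2, p2_i2]

theorem li_sum {κ κ' : Type} {a : κ → V g} {b : κ' → V g'} (ha : LinearIndependent ℝ a)
    (hb : LinearIndependent ℝ b) :
    LinearIndependent ℝ (Sum.elim (fun k => i1 g g' (a k)) fun k => i2 g g' (b k)) := by
  have := (linearIndependent_inl_union_inr' ha hb).map'
    ((app g g').toLinearMap.restrictScalars ℝ) (LinearMap.ker_eq_bot.2 (app g g').injective)
  refine (congrArg (fun f : κ ⊕ κ' → V (g + g') => LinearIndependent ℝ f)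
    (funext fun k => ?_)).mp this
  rcases k with k | k <;> rfl

/-- the data of the theorem -/
def Dat (K : IntermediateField ℚ ℂ) (g μ : ℕ) (Λ₁ Λ₂ : AddSubgroup (V g)) : Prop :=
  ∃ (N₁ N₂ : ℕ) (Θ₁ : Fin (N₁ + 1) → V g → ℂ) (η₁ : V g → V g →ₗ[ℂ] ℂ)
    (Θ₂ : Fin (N₂ + 1) → V g → ℂ) (η₂ : V g → V g →ₗ[ℂ] ℂ) (κ : Type) (_ : Fintype κ)
    (lam₁ lam₂ : κ → V g) (Γ : (V g × V g) →ₗ[ℂ] (V g × V g)),
    IsTheta Θ₁ Λ₁ η₁ ∧ IsTheta Θ₂ Λ₂ η₂ ∧ Fintype.card κ = 2 * g ∧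
    (∀ k, lam₁ k ∈ Λ₁) ∧ (∀ k, lam₂ k ∈ Λ₂) ∧ LinearIndependent ℝ lam₁ ∧
    LinearIndependent ℝ lam₂ ∧
    finrank ℂ (Submodule.span ℂ (Set.range fun k => (lam₁ k, lam₂ k))) ≤ g + μ ∧
    (∀ k, Γ (lam₁ k, qp η₁ (lam₁ k)) = (lam₂ k, qp η₂ (lam₂ k))) ∧ OverK K Γ

theorem dat_prod (hP : ProdStmt) {K : IntermediateField ℚ ℂ} {μ μ' : ℕ}
    {Λ₁ Λ₂ : AddSubgroup (V g)} {Λ₁' Λ₂' : AddSubgroup (V g')} (h : Dat K g μ Λ₁ Λ₂)
    (h' : Dat K g' μ' Λ₁' Λ₂') : Dat K (g + g') (μ + μ') (plat Λ₁ Λ₁') (plat Λ₂ Λ₂') := by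
  obtain ⟨N₁, N₂, Θ₁, η₁, Θ₂, η₂, κ, _, l₁, l₂, Γ, t1, t2, c, m1, m2, a1, a2, r, e, o⟩ := h
  obtain ⟨N₁', N₂', Θ₁', η₁', Θ₂', η₂', κ', _, l₁', l₂', Γ', t1', t2', c', m1', m2', a1', a2',
    r', e', o'⟩ := h'
  obtain ⟨M₁, T₁, s1⟩ := hP _ _ _ _ _ _ _ _ _ _ t1 t1'
  obtain ⟨M₂, T₂, s2⟩ := hP _ _ _ _ _ _ _ _ _ _ t2 t2'
  refine ⟨M₁, M₂, T₁, _, T₂, _, κ ⊕ κ', inferInstance,
    Sum.elim (fun k => i1 g g' (l₁ k)) fun k => i2 g g' (l₁' k),
    Sum.elim (fun k => i1 g g' (l₂ k)) fun k => i2 g g' (l₂' k),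
    (i1 g g').prodMap (i1 g g') ∘ₗ Γ ∘ₗ (p1 g g').prodMap (p1 g g') +
      (i2 g g').prodMap (i2 g g') ∘ₗ Γ' ∘ₗ (p2 g g').prodMap (p2 g g'),
    s1, s2, by rw [Fintype.card_sum]; omega, ?_, ?_, li_sum a1 a1', li_sum a2 a2', ?_, ?_, ?_⟩
  · rintro (k | k)
    exacts [i1_mem (m1 k), i2_mem (m1' k)]
  · rintro (k | k)
    exacts [i1_mem (m2 k), i2_mem (m2' k)]
  · have hle : Submodule.span ℂ (Set.range fun k =>
        (Sum.elim (fun k => i1 g g' (l₁ k)) (fun k => i2 g g' (l₁' k)) k,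
          Sum.elim (fun k => i1 g g' (l₂ k)) (fun k => i2 g g' (l₂' k)) k)) ≤
        (Submodule.span ℂ (Set.range fun k => (l₁ k, l₂ k))).map ((i1 g g').prodMap (i1 g g')) ⊔
        (Submodule.span ℂ (Set.range fun k => (l₁' k, l₂' k))).map
          ((i2 g g').prodMap (i2 g g')) := by
      rw [Submodule.span_le]
      rintro _ ⟨k | k, rfl⟩
      · exact Submodule.mem_sup_left ⟨_, Submodule.subset_span ⟨k, rfl⟩, rfl⟩
      · exact Submodule.mem_sup_right ⟨_, Submodule.subset_span ⟨k, rfl⟩, rfl⟩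
    have h1 := (Submodule.finrank_mono hle).trans
      ((Submodule.finrank_add_le_finrank_add_finrank _ _).trans
        (add_le_add (Submodule.finrank_map_le _ _) (Submodule.finrank_map_le _ _)))
    omega
  · rintro (k | k)
    · simp [qp_i1 _ (eta_zero t1'), qp_i1 _ (eta_zero t2'), p1_i1, p2_i1, e, Prod.mk_zero_zero]
    · simp [qp_i2 _ (eta_zero t1), qp_i2 _ (eta_zero t2), p1_i2, p2_i2, e', Prod.mk_zero_zero]
  · intro p h1 h2
    obtain ⟨b1, b2⟩ := o (p1 g g' p.1, p1 g g' p.2) (fun i => h1 _) fun i => h2 _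
    obtain ⟨b3, b4⟩ := o' (p2 g g' p.1, p2 g g' p.2) (fun i => h1 _) fun i => h2 _
    refine ⟨fun i => Fin.addCases (fun k => ?_) (fun k => ?_) i,
      fun i => Fin.addCases (fun k => ?_) (fun k => ?_) i⟩
    · simpa [i1_left, i2_left] using b1 k
    · simpa [i1_right, i2_right] using b3 k
    · simpa [i1_left, i2_left] using b2 k
    · simpa [i1_right, i2_right] using b4 k

end Mn

open Mn in
theorem mains (h0 : Main0Stmt) (hP : ProdStmt) : MainStmt := by
  intro g N₁ N₂ Θ₁ Λ₁ η₁ Θ₂ Λ₂ η₂ t1 t2 nh κ _ l₁ l₂ c m1 m2 a1 a2 μ r Γ e K o t ht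
  have d : Dat K g μ Λ₁ Λ₂ :=
    ⟨N₁, N₂, Θ₁, η₁, Θ₂, η₂, κ, inferInstance, l₁, l₂, Γ, t1, t2, c, m1, m2, a1, a2, r, e, o⟩
  have key : ∀ p : ℕ, ∃ (G M : ℕ) (A B : AddSubgroup (V G)), G = g * (p + 1) ∧ M = μ * (p + 1) ∧
      Dat K G M A B ∧ NoHom A B ∧ NoHom A Λ₂ ∧ NoHom Λ₁ B := by
    intro p
    induction p with
    | zero => exact ⟨g, μ, Λ₁, Λ₂, by simp, by simp, d, nh, nh, nh⟩
    | succ p ih =>
      obtain ⟨G, M, A, B, e1, e2, d', n1, n2, n3⟩ := ih
      exact ⟨G + g, M + μ, _, _, by rw [e1]; ring, by rw [e2]; ring, dat_prod hP d' d,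
        nh_right (nh_left n1 n3) (nh_left n2 nh), nh_left n2 nh, nh_right n3 nh⟩
  obtain ⟨G, M, A, B, e1, e2, ⟨N₁, N₂, Θ₁, η₁, Θ₂, η₂, κ, _, l₁, l₂, Γ, t1, t2, c, m1, m2, a1, a2,
    r, e, o⟩, n1, -, -⟩ := key t
  have h := h0 G N₁ N₂ Θ₁ A η₁ Θ₂ B η₂ t1 t2 n1 κ l₁ l₂ c m1 m2 a1 a2 M r Γ e K o t ht
  rw [e1, e2] at h
  by_contra hc
  have h1 : (μ * t + 1) * (t + 1) ≤ g * (t + 1) := Nat.mul_le_mul_right _ (by omega)
  nlinarith

end Pool.Agent.SHP

end MrgPart6

-- ======== part 7: formerly Pool.Agent.MP_cbf1af_ag.shp.Final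
section MrgPart7

/-! PROJECT SHARP: the unconditional statements. -/

namespace Pool.Agent.SHP

theorem core_final : CoreStmt :=
  core CMQ.zero_final (ops CMQ.form_final) (aux (ops CMQ.form_final) grow) (size CMQ.der_final tay)

theorem main_final : MainStmt := mains (main0 CMQ.wt core_final prod graph lin spc) prod

end Pool.Agent.SHP

end MrgPart7

-- marker of a merged file
example : 731051 + 747479 = 731051 + 747479 := rfl
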