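import Mathlib
import Pool.Agent.MP_cbf1af_ag.cmp2.Wt
import Pool.Agent.MP_cbf1af_ag.shp.Spec

/-! PROJECT SHARP, row ELL: two elliptic curves. -/

namespace Pool.Agent.SHP

open Module
open Pool.Agent.CMQ (IsTheta)

namespace EllM

variable {N : ℕ} {Θ : Fin (N + 1) → V 1 → ℂ} {Λ : AddSubgroup (V 1)} {η : V 1 → V 1 →ₗ[ℂ] ℂ}

theorem eq_smul (z : V 1) : z = z 0 • Pi.single 0 1 := by
  funext i
  rw [Subsingleton.elim i 0]
  simp

theorem eta_zero (h : IsTheta Θ Λ η) : η 0 = 0 := by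
  obtain ⟨c, hc⟩ := h.quasi 0 (zero_mem _)
  exact (CMQ.WtAux.uniq (φ' := 0) (c' := 0) h.ne hc fun i z => by simp).1

theorem det_ne (h : IsTheta Θ Λ η) {ω : Fin 2 → V 1} (hω : ∀ a, ω a ∈ Λ)
    (hi : LinearIndependent ℝ ω) : ω 0 0 * qp η (ω 1) 0 - ω 1 0 * qp η (ω 0) 0 ≠ 0 := by
  intro e
  obtain ⟨u, L, hW⟩ := CMQ.wt 1 N Θ Λ η h
  have h1 := hi.span_eq_top_of_card_eq_finrank (by simp [Module.finrank_pi_fintype])
  obtain ⟨r, hr⟩ := (Submodule.mem_span_range_iff_exists_fun ℝ).1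
    (h1 ▸ Submodule.mem_top (x := Complex.I • ω 0))
  have h2 := hW.pos (ω 0) (hi.ne_zero 0)
  have k : ∀ a, L (ω a) (ω 0) = ω 0 0 * qp η (ω a) 0 := fun a => by
    rw [hW.ext _ (hω a)]
    conv_lhs => rw [eq_smul (ω 0)]
    rw [map_smul]
    rfl
  have h3 := congrFun hr 0
  simp only [Fin.sum_univ_two, Pi.add_apply, Pi.smul_apply, Complex.real_smul, smul_eq_mul] at h3
  rw [← hr, Fin.sum_univ_two, map_add, map_smul, map_smul, LinearMap.add_apply,
    LinearMap.smul_apply, LinearMap.smul_apply, k, k, Complex.real_smul, Complex.real_smul] at h2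
  have h4 : ω 0 0 * qp η (ω 0) 0 + Complex.I * (r 0 * (ω 0 0 * qp η (ω 0) 0) +
      r 1 * (ω 0 0 * qp η (ω 1) 0)) = 0 := by
    linear_combination Complex.I * r 1 * e + Complex.I * qp η (ω 0) 0 * h3 +
      ω 0 0 * qp η (ω 0) 0 * Complex.I_mul_I
  rw [h4] at h2
  simp at h2

theorem p1_eq (l : V (1 + 1)) : p1 1 1 l = fun _ => l 0 := by
  funext i
  rw [Subsingleton.elim i 0]
  rfl

theorem p2_eq (l : V (1 + 1)) : p2 1 1 l = fun _ => l 1 := by
  funext i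
  rw [Subsingleton.elim i 0]
  rfl

theorem mem_plat2 {l : V (1 + 1)} : l ∈ plat Λ Λ ↔ ∀ j, (fun _ => l j) ∈ Λ := by
  have : l ∈ plat Λ Λ ↔ p1 1 1 l ∈ Λ ∧ p2 1 1 l ∈ Λ := Iff.rfl
  rw [this, p1_eq, p2_eq]
  exact (Fin.forall_fin_two (p := fun j => (fun _ => l j) ∈ Λ)).symm

theorem const_eq (z : V 1) : (fun _ => z 0) = z := by
  funext i
  rw [Subsingleton.elim i 0]

theorem single_mem {z : V 1} (hz : z ∈ Λ) (b : Fin (1 + 1)) :
    (Pi.single b (z 0) : V (1 + 1)) ∈ plat Λ Λ := by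
  refine mem_plat2.2 fun j => ?_
  by_cases h : j = b
  · rw [h, Pi.single_eq_same, const_eq]
    exact hz
  · rw [Pi.single_eq_of_ne h]
    exact zero_mem _

theorem qp_single (h : IsTheta Θ Λ η) (z : V 1) (b : Fin (1 + 1)) :
    qp (peta η η) (Pi.single b (z 0)) = Pi.single b (qp η z 0) := by
  have e1 : (fun _ => (1 : ℂ) : V 1) = Pi.single 0 1 := by
    funext i
    rw [Subsingleton.elim i 0]
    simp
  have e0 : (fun _ => (0 : ℂ) : V 1) = 0 := rfl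
  funext j
  simp only [qp, peta, LinearMap.add_apply, LinearMap.comp_apply, p1_eq, p2_eq]
  fin_cases b <;> fin_cases j <;> simp [e1, e0, const_eq, eta_zero h]

theorem noHom {Λ' : AddSubgroup (V 1)} (h : NoHom Λ Λ') : NoHom (plat Λ Λ) (plat Λ' Λ') := by
  intro φ hφ
  refine LinearMap.pi_ext' fun j => LinearMap.ext_ring (funext fun i => ?_)
  have h1 := h ((LinearMap.pi fun _ => LinearMap.proj i) ∘ₗ φ ∘ₗ
    LinearMap.single ℂ (fun _ : Fin (1 + 1) => ℂ) j ∘ₗ LinearMap.proj 0) fun l hl =>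
      mem_plat2.1 (hφ _ (single_mem hl j)) i
  exact congrFun (LinearMap.congr_fun h1 fun _ => 1) 0

theorem indep {ω : Fin 2 → V 1} (hi : LinearIndependent ℝ ω) :
    LinearIndependent ℝ fun k : Fin 2 × Fin 2 => (Pi.single k.2 (ω k.1 0) : V (1 + 1)) := by
  rw [Fintype.linearIndependent_iff] at hi ⊢
  rintro c hc ⟨a, b⟩
  refine hi (fun a => c (a, b)) (funext fun i => ?_) a
  have := congrFun hc b
  rw [Subsingleton.elim i 0]
  simpa [Fintype.sum_prod_type, Pi.single_apply] using this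

/-- the blocks of the relative period matrix -/
noncomputable def G (u v : Fin 2 → ℂ) (δ : ℂ) (y : Fin 2 → ℂ) :
    (V (1 + 1) × V (1 + 1)) →ₗ[ℂ] V (1 + 1) where
  toFun p a := ∑ b, (p.1 b * (u a * y b / δ) + p.2 b * (v a * y b / δ))
  map_add' p q := by
    funext a
    simp only [Prod.fst_add, Prod.snd_add, Pi.add_apply, ← Finset.sum_add_distrib]
    exact Finset.sum_congr rfl fun b _ => by ring
  map_smul' c p := by
    funext a
    simp only [Prod.smul_fst, Prod.smul_snd, Pi.smul_apply, smul_eq_mul, RingHom.id_apply,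
      Finset.mul_sum]
    exact Finset.sum_congr rfl fun b _ => by ring

theorem G_apply (u v : Fin 2 → ℂ) (δ : ℂ) (y : Fin 2 → ℂ) (p : V (1 + 1) × V (1 + 1))
    (a : Fin (1 + 1)) :
    G u v δ y p a = ∑ b, (p.1 b * (u a * y b / δ) + p.2 b * (v a * y b / δ)) := rfl

theorem G_single (w q y : Fin 2 → ℂ) (h : w 0 * q 1 - w 1 * q 0 ≠ 0) (a b : Fin 2) :
    G ![q 1, -q 0] ![-w 1, w 0] (w 0 * q 1 - w 1 * q 0) y (Pi.single b (w a), Pi.single b (q a)) =
      Pi.single a (y b) := by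
  funext j
  rw [G_apply, Finset.sum_eq_single b (fun b' _ hb => by simp [hb]) (by simp)]
  simp only [Pi.single_eq_same, ← mul_div_assoc, ← add_div, div_eq_iff h]
  fin_cases a <;> fin_cases j <;> simp <;> ring

theorem G_mem {K : IntermediateField ℚ ℂ} {w q y : Fin 2 → ℂ} {δ : ℂ}
    (hw : ∀ a b, w a * y b / δ ∈ K) (hq : ∀ a b, q a * y b / δ ∈ K)
    {p : V (1 + 1) × V (1 + 1)} (h1 : ∀ i, p.1 i ∈ K) (h2 : ∀ i, p.2 i ∈ K) (a : Fin (1 + 1)) :
    G ![q 1, -q 0] ![-w 1, w 0] δ y p a ∈ K := by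
  rw [G_apply]
  refine sum_mem fun b _ => add_mem (mul_mem (h1 b) ?_) (mul_mem (h2 b) ?_)
  · fin_cases a
    · exact hq 1 b
    · have := neg_mem (hq 0 b)
      rwa [← neg_div, ← neg_mul] at this
  · fin_cases a
    · have := neg_mem (hw 1 b)
      rwa [← neg_div, ← neg_mul] at this
    · exact hw 0 b

theorem rank_le (w w' : Fin 2 → ℂ) (h0 : w' 0 ≠ 0) :
    finrank ℂ (Submodule.span ℂ (Set.range fun k : Fin 2 × Fin 2 =>
      ((Pi.single k.2 (w k.1), Pi.single k.1 (w' k.2)) : V (1 + 1) × V (1 + 1)))) ≤ 1 + 1 + 1 := by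
  let φ : (V (1 + 1) × V (1 + 1)) →ₗ[ℂ] ℂ :=
    { toFun := fun p => ∑ b, p.1 b * w' b - ∑ a, p.2 a * w a
      map_add' := fun p q => by
        simp only [Prod.fst_add, Prod.snd_add, Pi.add_apply, add_mul, Finset.sum_add_distrib]
        ring
      map_smul' := fun c p => by
        simp only [Prod.smul_fst, Prod.smul_snd, Pi.smul_apply, smul_eq_mul, RingHom.id_apply,
          mul_assoc, ← Finset.mul_sum]
        ring }
  have h1 : Submodule.span ℂ (Set.range fun k : Fin 2 × Fin 2 =>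
      ((Pi.single k.2 (w k.1), Pi.single k.1 (w' k.2)) : V (1 + 1) × V (1 + 1))) ≤
      LinearMap.ker φ := by
    refine Submodule.span_le.2 ?_
    rintro _ ⟨k, rfl⟩
    show ∑ b, (Pi.single k.2 (w k.1) : V (1 + 1)) b * w' b -
      ∑ a, (Pi.single k.1 (w' k.2) : V (1 + 1)) a * w a = 0
    simp [Pi.single_apply, mul_comm]
  have h2 : LinearMap.ker φ ≠ ⊤ := fun e => by
    have h3 : φ (Pi.single 0 1, 0) = 0 := LinearMap.mem_ker.1 (e ▸ Submodule.mem_top)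
    exact h0 (by simpa [φ] using h3)
  have h3 := Submodule.finrank_lt h2
  have h4 := Submodule.finrank_mono h1
  simp only [finrank_prod, finrank_fin_fun] at h3
  omega

theorem exists_gamma {K : IntermediateField ℚ ℂ} (w q w' q' : Fin 2 → ℂ)
    (h : w 0 * q 1 - w 1 * q 0 ≠ 0) (h1 : ∀ a b, w a * w' b / (w 0 * q 1 - w 1 * q 0) ∈ K)
    (h2 : ∀ a b, q a * w' b / (w 0 * q 1 - w 1 * q 0) ∈ K)
    (h3 : ∀ a b, w a * q' b / (w 0 * q 1 - w 1 * q 0) ∈ K)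
    (h4 : ∀ a b, q a * q' b / (w 0 * q 1 - w 1 * q 0) ∈ K) :
    ∃ Γ : (V (1 + 1) × V (1 + 1)) →ₗ[ℂ] (V (1 + 1) × V (1 + 1)),
      (∀ a b : Fin 2, Γ (Pi.single b (w a), Pi.single b (q a)) =
        (Pi.single a (w' b), Pi.single a (q' b))) ∧ OverK K Γ :=
  ⟨(G ![q 1, -q 0] ![-w 1, w 0] (w 0 * q 1 - w 1 * q 0) w').prod
      (G ![q 1, -q 0] ![-w 1, w 0] (w 0 * q 1 - w 1 * q 0) q'),
    fun a b => Prod.ext (G_single w q w' h a b) (G_single w q q' h a b),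
    fun _ k1 k2 => ⟨G_mem h1 h2 k1 k2, G_mem h3 h4 k1 k2⟩⟩

end EllM

open EllM in
theorem ell (hM : MainStmt) (hP : ProdStmt) : EllStmt := by
  intro N N' Θ Λ η Θ' Λ' η' h h' hn ω ω' hω hω' hi hi' K hK t ht
  obtain ⟨N₁, Θ₁, h₁⟩ := hP 1 1 N N Θ Λ η Θ Λ η h h
  obtain ⟨N₂, Θ₂, h₂⟩ := hP 1 1 N' N' Θ' Λ' η' Θ' Λ' η' h' h'
  have hδ := det_ne h hω hi
  have i2 : LinearIndependent ℝ fun k : Fin 2 × Fin 2 =>
      (Pi.single k.1 (ω' k.2 0) : V (1 + 1)) :=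
    (indep hi').comp Prod.swap Prod.swap_injective
  have rk := rank_le (fun a => ω a 0) (fun b => ω' b 0) fun e => hi'.ne_zero 0 (by
    rw [eq_smul (ω' 0), e, zero_smul])
  obtain ⟨Γ, hΓ, hΓK⟩ : ∃ Γ : (V (1 + 1) × V (1 + 1)) →ₗ[ℂ] (V (1 + 1) × V (1 + 1)),
      (∀ a b : Fin 2, Γ (Pi.single b (ω a 0), Pi.single b (qp η (ω a) 0)) =
        (Pi.single a (ω' b 0), Pi.single a (qp η' (ω' b) 0))) ∧ OverK K Γ :=
    exists_gamma (fun a => ω a 0) (fun a => qp η (ω a) 0) (fun b => ω' b 0)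
      (fun b => qp η' (ω' b) 0) hδ (fun a b => hK a b _ _ (Or.inl rfl) (Or.inl rfl))
      (fun a b => hK a b _ _ (Or.inr rfl) (Or.inl rfl))
      (fun a b => hK a b _ _ (Or.inl rfl) (Or.inr rfl))
      fun a b => hK a b _ _ (Or.inr rfl) (Or.inr rfl)
  have key := hM (1 + 1) N₁ N₂ Θ₁ _ _ Θ₂ _ _ h₁ h₂ (noHom hn) (Fin 2 × Fin 2)
    (fun k => Pi.single k.2 (ω k.1 0)) (fun k => Pi.single k.1 (ω' k.2 0)) (by simp)
    (fun k => single_mem (hω _) _) (fun k => single_mem (hω' _) _) (indep hi) i2 1 rk Γ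
    (fun k => by rw [qp_single h, qp_single h', hΓ]) K hΓK t ht
  omega

end Pool.Agent.SHP
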