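import Pool.Agent.MP_cbf1af_ag.shp.Sigma

/-! GAMF: the two elliptic curves with `j = 1728` and `j = 0`. -/

namespace Pool.Agent.SHP

open Complex PeriodPair Pool.Agent.ELL

theorem indep_of {F E : Type} [Field F] [Field E] [Algebra F E] {n : ℕ} (x : Fin n → E)
    (h : ∀ K : IntermediateField F E, (∀ i, x i ∈ K) → (∀ z, IsAlgebraic F z → z ∈ K) →
      ∀ t : ℕ, Algebra.trdeg F K ≤ t → n ≤ t) : AlgebraicIndependent F x := by
  let R := Algebra.adjoin F (Set.range x)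
  obtain ⟨K, hK⟩ : ∃ K : IntermediateField F E, ∀ z, z ∈ K ↔ IsAlgebraic R z :=
    ⟨((Subalgebra.algebraicClosure R E).restrictScalars F).toIntermediateField
      fun z hz => IsAlgebraic.inv hz, fun z => Iff.rfl⟩
  have h1 : ∀ i, x i ∈ K := fun i =>
    (hK _).2 (isAlgebraic_algebraMap (⟨x i, Algebra.subset_adjoin ⟨i, rfl⟩⟩ : R))
  let y : Fin n → K := fun i => ⟨x i, h1 i⟩
  have h2 : (Algebra.adjoin F (Set.range y)).map K.val = R := by
    rw [AlgHom.map_adjoin, ← Set.range_comp]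
    rfl
  let e := ((Algebra.adjoin F (Set.range y)).equivMapOfInjective K.val K.val.injective).trans
    (Subalgebra.equivOfEq _ _ h2)
  have : Algebra.IsAlgebraic (Algebra.adjoin F (Set.range y)) K := ⟨fun z =>
    .of_ringHom_of_comp_eq e.toRingHom K.val.toRingHom ((hK _).1 z.2) e.surjective
      K.val.injective (RingHom.ext fun _ => rfl)⟩
  have h3 := Algebra.IsAlgebraic.trdeg_le_cardinalMk F (A := K) (Set.range y)
  obtain ⟨t, ht⟩ := Cardinal.lt_aleph0.1 (h3.trans_lt (Set.finite_range y).lt_aleph0)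
  have h4 := h K h1 (fun z hz => (hK z).2 (hz.extendScalars (algebraMap F R).injective)) t ht.le
  exact (Algebra.IsAlgebraic.isTranscendenceBasis_of_le_trdeg_of_finite F y
    (by simpa [ht] using h4)).1.map' (f := K.val) K.val.injective

theorem leg {L : PeriodPair} {σ : ℂ → ℂ} (h : IsSig L σ) :
    ∃ n : ℤ, L.ω₁ * eta L σ L.ω₂ - L.ω₂ * eta L σ L.ω₁ = n * (2 * Real.pi * I) := by
  obtain ⟨c, hc⟩ := h.quasi L.ω₁_mem_lattice
  obtain ⟨d, hd⟩ := h.quasi L.ω₂_mem_lattice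
  have h1 := hd (L.ω₁ / 2 + L.ω₁)
  rw [add_right_comm, hc, hd, hc, ← mul_assoc, ← mul_assoc, ← exp_add, ← exp_add] at h1
  refine exp_eq_one_iff.1 ?_
  rw [← (exp_eq_exp_iff_exp_sub_eq_one.1 (mul_right_cancel₀
    (h.ne L.ω₁_div_two_notMem_lattice) h1).symm)]
  congr 1
  ring

theorem unit_iff {L : PeriodPair} {α : ℂ} {u : ℤ} (h : L.ω₂ = α * L.ω₁) (hu : α ^ 2 = u * α - 1)
    (z : ℂ) : z ∈ L.lattice ↔ α * z ∈ L.lattice := by
  have h1 : ∀ z ∈ L.lattice, α * z ∈ L.lattice := fun z hz => by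
    obtain ⟨m, n, rfl⟩ := mem_lattice.1 hz
    exact mem_lattice.2 ⟨-n, m + n * u, by
      rw [h]; push_cast; linear_combination -n * L.ω₁ * hu⟩
  refine ⟨h1 z, fun hz => ?_⟩
  have := sub_mem (L.lattice.smul_mem u hz) (h1 _ hz)
  rwa [show u • (α * z) - α * (α * z) = z by rw [zsmul_eq_mul]; linear_combination -z * hu] at this

theorem cm_mem {L : PeriodPair} {σ : ℂ → ℂ} (h : IsSig L σ) {α s : ℂ} {u : ℤ}
    (h1 : L.ω₂ = α * L.ω₁) (hu : α ^ 2 = u * α - 1) (h2 : α ^ 2 ≠ 1) (hs : s ^ 2 = Real.pi)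
    {K : IntermediateField ℚ ℂ} (hα : α ∈ K) (hI : I ∈ K) (h3 : L.ω₁ / s ∈ K) :
    (L.ω₁ * (3 * eta L σ L.ω₂) - L.ω₂ * (3 * eta L σ L.ω₁)) / s ^ 2 ∈ K ∧ ∀ a x,
      (x = ![fun _ => L.ω₁, fun _ => L.ω₂] a (0 : Fin 1) ∨
        x = qp (eeta L σ) (![fun _ => L.ω₁, fun _ => L.ω₂] a) 0) → x / s ∈ K := by
  obtain ⟨n, hn⟩ := leg h
  have h4 := h.eta_scale (unit_iff h1 hu) L.ω₁_mem_lattice
  have h5 : s ≠ 0 := fun h0 => Real.pi_ne_zero (by simpa [h0] using hs.symm)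
  have h6 : L.ω₁ ≠ 0 := fun h0 => L.ω₁_div_two_notMem_lattice (by simp [h0])
  have h7 : 1 - α ^ 2 ≠ 0 := sub_ne_zero.2 h2.symm
  have k2 : (2 : ℂ) ∈ K := ofNat_mem K 2
  have k3 : (3 : ℂ) ∈ K := ofNat_mem K 3
  have h8 : eta L σ L.ω₂ / s ∈ K := by
    rw [show eta L σ L.ω₂ / s = n * (2 * I) / ((1 - α ^ 2) * (L.ω₁ / s)) by
      rw [← h4, ← h1, ← hs] at hn
      field_simp
      linear_combination hn + α * eta L σ L.ω₂ * h1]
    exact div_mem (mul_mem (intCast_mem K n) (mul_mem k2 hI))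
      (mul_mem (sub_mem (one_mem K) (pow_mem hα 2)) h3)
  refine ⟨?_, Fin.forall_fin_two.2 ⟨?_, ?_⟩⟩
  · rw [show _ / s ^ 2 = 3 * (n * (2 * I)) by
      rw [← hs] at hn
      field_simp
      linear_combination hn]
    exact mul_mem k3 (mul_mem (intCast_mem K n) (mul_mem k2 hI))
  · rintro x (rfl | rfl)
    · exact h3
    · simpa [qp_eeta, ← h4, ← h1, mul_div_assoc] using mul_mem k3 (mul_mem hα h8)
  · rintro x (rfl | rfl)
    · simpa [h1, mul_div_assoc] using mul_mem hα h3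
    · simpa [qp_eeta, mul_div_assoc] using mul_mem k3 h8

theorem eind (L : PeriodPair) :
    LinearIndependent ℝ (![fun _ => L.ω₁, fun _ => L.ω₂] : Fin 2 → V 1) := by
  refine LinearIndependent.of_comp (LinearMap.proj (R := ℝ) (φ := fun _ : Fin 1 => ℂ) 0) ?_
  refine (congrArg (fun v : Fin 2 → ℂ => LinearIndependent ℝ v) ?_).mp L.indep
  ext i
  fin_cases i <;> rfl

theorem nohom {L L' : PeriodPair} (h : L.ω₂ = I * L.ω₁)
    (h' : L'.ω₂ = (-1 + (√3 : ℝ) * I) / 2 * L'.ω₁) : NoHom (elat L) (elat L') := fun φ hφ => by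
  have h1 : ∀ z : V 1, φ z 0 = z 0 * φ (fun _ => 1) 0 := fun z => by
    rw [show z = z 0 • fun _ => (1 : ℂ) from funext fun j => by simp [Subsingleton.elim j 0],
      map_smul]
    simp
  obtain ⟨m, n, h2⟩ := mem_lattice.1 (hφ (fun _ => L.ω₁) L.ω₁_mem_lattice)
  obtain ⟨m', n', h3⟩ := mem_lattice.1 (hφ (fun _ => L.ω₂) L.ω₂_mem_lattice)
  rw [Pi.evalAddMonoidHom_apply, h1] at h2 h3
  have h6 : ∀ L : PeriodPair, L.ω₁ ≠ 0 := fun L h0 => L.ω₁_div_two_notMem_lattice (by simp [h0])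
  have h4 : I * (2 * m + n * (-1 + (√3 : ℝ) * I)) = 2 * m' + n' * (-1 + (√3 : ℝ) * I) :=
    mul_right_cancel₀ (h6 L') (by
      rw [h'] at h2 h3
      rw [h] at h3
      linear_combination 2 * I * h2 - 2 * h3)
  have h5 : ∀ a b : ℤ, a * √3 = b → a = 0 := fun a b hab => by
    by_contra h0
    exact (Nat.prime_three.irrational_sqrt.intCast_mul h0).ne_int b (by simpa using hab)
  have h7 := congrArg re h4
  have h8 := congrArg im h4
  simp at h7 h8
  obtain rfl := h5 n (n' - 2 * m') (by push_cast; linarith)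
  obtain rfl := h5 n' (2 * m) (by push_cast at h8 ⊢; linarith)
  obtain rfl : m = 0 := by simpa using h8
  have h9 : φ (fun _ => 1) 0 = 0 := by simpa [h6] using h2.symm
  exact LinearMap.ext fun z => funext fun j => by simp [Subsingleton.elim j 0, h1 z, h9]

theorem gam (hI : InvStmt) (hE : EllStmt) : GamStmt := by
  obtain ⟨⟨L, q, a2, a3, hq, h1, h2⟩, L', q', b2, b3, hq', h3, h4⟩ := hI
  obtain ⟨σ, h⟩ := exists_sigma L
  obtain ⟨σ', h'⟩ := exists_sigma L'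
  refine AlgebraicIndependent.of_comp (ofRealAm.restrictScalars ℚ) (indep_of _ fun K h5 h6 => ?_)
  have h7 : (√Real.pi : ℝ) ^ 2 = Real.pi := Real.sq_sqrt Real.pi_pos.le
  have hs : ((√Real.pi : ℝ) : ℂ) ^ 2 = Real.pi := by exact_mod_cast h7
  have h0 : ((√Real.pi : ℝ) : ℂ) ≠ 0 := fun h0 => Real.pi_ne_zero (by simpa [h0] using hs.symm)
  have h8 : ((√3 : ℝ) : ℂ) ^ 2 = 3 := by exact_mod_cast Real.sq_sqrt zero_le_three
  have hI : I ∈ K := h6 _ (IsAlgebraic.of_pow two_pos (by simpa using isAlgebraic_one.neg))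
  have hr : ((√3 : ℝ) : ℂ) ∈ K := h6 _ (IsAlgebraic.of_pow two_pos (h8 ▸ isAlgebraic_natCast 3))
  obtain ⟨c1, c2⟩ := cm_mem h (u := 0) h1 (by simp) (by norm_num) hs hI hI (by
    refine (congrArg (· ∈ K) ?_).mp (mul_mem (h6 q hq) (pow_mem (h5 1) 2))
    simp [h2]
    field)
  obtain ⟨-, c3⟩ := cm_mem h' (u := -1) h3 (by
    push_cast; linear_combination I ^ 2 / 4 * h8 + 3 / 4 * I_sq) (fun h9 => by
      have := congrArg im h9
      simp [sq] at this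
      linarith [Real.sqrt_pos.2 zero_lt_three]) hs
    (div_mem (add_mem (neg_mem (one_mem K)) (mul_mem hr hI)) (ofNat_mem K 2)) hI (by
    refine (congrArg (· ∈ K) ?_).mp (mul_mem (h6 q' hq') (pow_mem (h5 0) 3))
    simp [h4, ← hs]
    field)
  refine hE _ _ _ _ _ _ _ _ (isTheta h a2 a3) (isTheta h' b2 b3) (nohom h1 h3) _ _
    (Fin.forall_fin_two.2 ⟨L.ω₁_mem_lattice, L.ω₂_mem_lattice⟩)
    (Fin.forall_fin_two.2 ⟨L'.ω₁_mem_lattice, L'.ω₂_mem_lattice⟩) (eind L) (eind L') K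
    fun a b x y hx hy => ?_
  refine (congrArg (· ∈ K) ?_).mp (div_mem (mul_mem (c2 a x hx) (c3 b y hy)) c1)
  rw [div_mul_div_comm, ← sq, div_div_div_cancel_right₀ (pow_ne_zero 2 h0), qp_eeta, qp_eeta]
  rfl

end Pool.Agent.SHP
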