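import Mathlib
import Pool.Agent.MP_cbf1af_ag.shp.Spec
import Pool.Agent.MP_cbf1af_ag.ell.Theta

/-! SIGMA: the theta model of an elliptic curve. -/

namespace Pool.Agent.SHP

open Complex Filter Topology PeriodPair Pool.Agent.ELL
open Pool.Agent.CMQ (IsTheta)

theorem fd1 {f : ℂ → ℂ} {f' : ℂ} {z : V 1} (h : HasDerivAt f f' (z 0)) (v : V 1) :
    fderiv ℂ (fun z : V 1 => f (z 0)) z v = v 0 * f' := by
  have := h.comp_hasFDerivAt z (hasFDerivAt_apply (𝕜 := ℂ) 0 z)
  rw [show (fun z : V 1 => f (z 0)) = f ∘ fun z => z 0 from rfl, this.fderiv]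
  simp [mul_comm]

/-- the lattice of periods -/
def elat (L : PeriodPair) : AddSubgroup (V 1) :=
  L.lattice.toAddSubgroup.comap (Pi.evalAddMonoidHom (fun _ => ℂ) 0)

/-- the quasi-periods -/
noncomputable def eeta (L : PeriodPair) (σ : ℂ → ℂ) (l : V 1) : V 1 →ₗ[ℂ] ℂ :=
  (3 * eta L σ (l 0)) • LinearMap.proj 0

theorem qp_eeta (L : PeriodPair) (σ : ℂ → ℂ) (l : V 1) :
    qp (eeta L σ) l 0 = 3 * eta L σ (l 0) := by simp [qp, eeta]

theorem isTheta {L : PeriodPair} {σ : ℂ → ℂ} (h : IsSig L σ) (h2 : IsAlgebraic ℚ L.g₂)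
    (h3 : IsAlgebraic ℚ L.g₃) : IsTheta (fun i z => th σ i (z 0)) (elat L) (eeta L σ) := by
  have h1 : ∀ i (z : V 1) (j : Fin 1), fderiv ℂ (fun z : V 1 => th σ i (z 0)) z (Pi.single j 1) =
      deriv (th σ i) (z 0) := fun i z j => by
    rw [fd1 (h.th_hol i _).hasDerivAt, Subsingleton.elim j 0]
    simp
  refine ⟨fun i z => ((h.th_hol i).analyticAt _).comp (f := fun z : V 1 => z 0)
    ((ContinuousLinearMap.proj (R := ℂ) (φ := fun _ => ℂ) 0).analyticAt z),
    fun z => h.th_ne _, ⟨L.basis.map (LinearEquiv.funUnique (Fin 1) ℝ ℂ).symm, ?_⟩,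
    fun l hl => (h.th_quasi hl).imp fun c hc i z => hc i _,
    fun i j => (h.th_law h2 h3 i j).imp fun a ha => ⟨ha.1, fun z w => ha.2 _ _⟩,
    by simp [h.th_zero], fun i => ?_, fun i j => ?_, fun i j k => ?_, ?_⟩
  · ext z
    refine Iff.trans ?_ ((L.basis.map (LinearEquiv.funUnique (Fin 1) ℝ ℂ).symm).mem_span_iff_repr_mem
      ℤ z).symm |>.trans (by rw [← Submodule.span_int_eq_addSubgroupClosure]; rfl)
    exact (L.lattice_eq_span_range_basis ▸ L.basis.mem_span_iff_repr_mem ℤ (z 0) :)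
  · fin_cases i <;> simp [th, h.at0, h.one, isAlgebraic_zero]
    exact (isAlgebraic_natCast 2).neg
  · rw [h1, Pi.zero_apply, h.th_d1]
    fin_cases i
    exacts [isAlgebraic_zero, isAlgebraic_one, isAlgebraic_zero]
  · rw [funext fun z => h1 i z j, fd1 ((h.th_hol i).deriv _).hasDerivAt, Pi.zero_apply, h.th_d2,
      mul_zero]
    exact isAlgebraic_zero
  · have h4 : ∀ i, HasDerivAt (fun z => th σ i z / th σ 0 z) _ ((0 : V 1) 0) := fun i =>
      (h.th_hol i _).hasDerivAt.fun_div (h.th_hol 0 _).hasDerivAt (by simp [h.th_zero])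
    refine (injective_iff_map_eq_zero _).2 fun v hv => ?_
    have h5 := congrFun hv 1
    rw [fderiv_pi fun i => ((h4 i).differentiableAt.fun_comp' (0 : V 1)
      (differentiableAt_apply (𝕜 := ℂ) 0 0)), ContinuousLinearMap.pi_apply, fd1 (h4 1)] at h5
    exact funext fun j => by simpa [h.th_d1, h.th_zero, Subsingleton.elim j 0] using h5

theorem sigma : SigmaStmt := fun L h2 h3 => by
  obtain ⟨σ, h⟩ := exists_sigma L
  refine ⟨_, _, _, _, isTheta h h2 h3, fun z => Iff.rfl, fun α h4 l hl => ?_⟩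
  rw [qp_eeta, qp_eeta, mul_left_comm, ← h.eta_scale h4 (l := l 0) hl]
  rfl

end Pool.Agent.SHP
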